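import Mathlib
import Pool.Agent.H.MP_c8cc4c_co.Iface

/-! # MP_c8cc4c_co, part G, file 1: the boundary of the rectangular grid

`bpt a b t` = boundary point number `t`, `bix a b x y` = number of the boundary point `(x, y)`,
`bcell a b t` = cell at the boundary edge number `t`. Everything here is a case distinction and `omega`. -/

open scoped Classical
open Finset

noncomputable section

namespace Pool.Agent.H.MP_c8cc4c_co

/-- `(x, y)` is on the boundary of `[0,a] x [0,b]` -/
def onBd (a b x y : ℕ) : Prop := x ≤ a ∧ y ≤ b ∧ ¬ (0 < x ∧ x < a ∧ 0 < y ∧ y < b)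

theorem bpt_le {a b t : ℕ} (ha : 1 ≤ a) (hb : 1 ≤ b) (ht : t < 2 * (a + b)) :
    onBd a b (bpt a b t).1 (bpt a b t).2 := by
  unfold onBd bpt
  split_ifs <;> simp only [] <;> omega

theorem bix_lt {a b x y : ℕ} (ha : 1 ≤ a) (hb : 1 ≤ b) (h : onBd a b x y) :
    bix a b x y < 2 * (a + b) := by
  unfold onBd at h
  unfold bix
  split_ifs <;> omega

theorem bpt_bix {a b x y : ℕ} (ha : 1 ≤ a) (hb : 1 ≤ b) (h : onBd a b x y) :
    bpt a b (bix a b x y) = (x, y) := by
  unfold onBd at h
  unfold bix bpt
  split_ifs <;> first | omega | (refine Prod.ext ?_ ?_ <;> simp only [] <;> omega)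

theorem bix_bpt {a b t : ℕ} (ha : 1 ≤ a) (hb : 1 ≤ b) (ht : t < 2 * (a + b)) :
    bix a b (bpt a b t).1 (bpt a b t).2 = t := by
  rcases Nat.lt_or_ge a t with h1 | h1
  · rcases Nat.lt_or_ge (a + b) t with h2 | h2
    · rcases Nat.lt_or_ge (2 * a + b) t with h3 | h3
      · have e : bpt a b t = (0, 2 * (a + b) - t) := by
          unfold bpt
          rw [if_neg (by omega), if_neg (by omega), if_neg (by omega)]
        rw [e]
        unfold bix
        simp only []
        split_ifs <;> omega
      · have e : bpt a b t = (2 * a + b - t, b) := by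
          unfold bpt
          rw [if_neg (by omega), if_neg (by omega), if_pos (by omega)]
        rw [e]
        unfold bix
        simp only []
        split_ifs <;> omega
    · have e : bpt a b t = (a, t - a) := by
        unfold bpt
        rw [if_neg (by omega), if_pos (by omega)]
      rw [e]
      unfold bix
      simp only []
      split_ifs <;> omega
  · have e : bpt a b t = (t, 0) := by
      unfold bpt
      rw [if_pos (by omega)]
    rw [e]
    unfold bix
    simp only []
    split_ifs <;> omega

/-- the boundary cell is a cell -/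
theorem bcell_lt {a b t : ℕ} (ha : 1 ≤ a) (hb : 1 ≤ b) (ht : t < 2 * (a + b)) :
    (bcell a b t).1 < a ∧ (bcell a b t).2 < b := by
  unfold bcell
  split_ifs <;> simp only [] <;> omega

/-- Grid distance (`l^1`) of two points. -/
def gd (p q : ℕ × ℕ) : ℕ := (p.1 - q.1) + (q.1 - p.1) + (p.2 - q.2) + (q.2 - p.2)

/-- For `a ≤ b ≤ a + 1` the distance along the boundary is at most three times the grid distance. -/
theorem bpt_dist {a b s t : ℕ} (ha : 1 ≤ a) (hab : a ≤ b) (hba : b ≤ a + 1) (hst : s ≤ t)
    (ht : t < 2 * (a + b)) :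
    t - s ≤ 3 * gd (bpt a b s) (bpt a b t) ∨
      2 * (a + b) - (t - s) ≤ 3 * gd (bpt a b s) (bpt a b t) := by
  unfold gd bpt
  split_ifs <;> simp only [] <;> omega

/-- every grid point is at distance at most `a + b` from every other grid point -/
theorem gd_le {a b : ℕ} {p q : ℕ × ℕ} (hp : p.1 ≤ a ∧ p.2 ≤ b) (hq : q.1 ≤ a ∧ q.2 ≤ b) :
    gd p q ≤ a + b := by
  unfold gd
  omega

theorem gd_tri (p q r : ℕ × ℕ) : gd p r ≤ gd p q + gd q r := by
  unfold gd
  omega

theorem gd_comm (p q : ℕ × ℕ) : gd p q = gd q p := by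
  unfold gd
  omega

end Pool.Agent.H.MP_c8cc4c_co
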