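import Mathlib
import Pool.Agent.H.MP_c8cc4c_co.B.Star
import Pool.Agent.H.MP_c8cc4c_co.G.Grid1

/-! # MP_c8cc4c_co, part G, file 4: facts about mouths -/

open scoped Classical
open Finset

noncomputable section

namespace Pool.Agent.H.MP_c8cc4c_co

variable {M : PC} (Mo : Mouths M)

/-- `2 (a + b) ≥ 4`, and `gv`, `ge` depend only on `t` modulo `n i` -/
theorem n_ge (i : Mo.I) : 4 ≤ Mo.n i := by
  have h1 := Mo.ha i
  have h2 := Mo.hab i
  unfold Mouths.n
  omega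

theorem gv_mod (i : Mo.I) (t : ℕ) : Mo.gv i t = Mo.gv i (t % Mo.n i) := by
  have h : Function.Periodic (Mo.gv i) (Mo.n i) := fun t => Mo.gv_per i t
  exact (h.map_mod_nat t).symm

theorem ge_mod (i : Mo.I) (t : ℕ) : Mo.ge i t = Mo.ge i (t % Mo.n i) := by
  have h : Function.Periodic (Mo.ge i) (Mo.n i) := fun t => Mo.ge_per i t
  exact (h.map_mod_nat t).symm

theorem gv_inj' (i : Mo.I) {s t : ℕ} (h : Mo.gv i s = Mo.gv i t) : s % Mo.n i = t % Mo.n i := by
  have h1 := n_ge Mo i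
  rw [gv_mod Mo i s, gv_mod Mo i t] at h
  exact Mo.gv_inj i _ _ (Nat.mod_lt _ (by omega)) (Nat.mod_lt _ (by omega)) h

theorem Mouth_mod1 {n t k : ℕ} (hk : 0 < k) (hkn : k < n) : (t + k) % n ≠ t % n := by
  intro h
  have h1 : t + k ≡ t + 0 [MOD n] := h
  have h2 := Nat.ModEq.add_left_cancel' t h1
  unfold Nat.ModEq at h2
  rw [Nat.mod_eq_of_lt hkn, Nat.zero_mod] at h2
  omega

theorem Mouth_mod2 {n s t : ℕ} (hn : 1 ≤ n) (h : t % n = (s + 1) % n) :
    (t + n - 1) % n = s % n := by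
  have h1 : t + n - 1 + 1 ≡ s + 1 [MOD n] := by
    rw [Nat.sub_add_cancel (by omega)]
    unfold Nat.ModEq
    rw [Nat.add_mod_right]
    exact h
  exact Nat.ModEq.add_right_cancel' 1 h1

theorem gv_succ_ne (i : Mo.I) (t : ℕ) : Mo.gv i t ≠ Mo.gv i (t + 1) := by
  have h1 := n_ge Mo i
  intro h
  exact Mouth_mod1 (t := t) one_pos (by omega : 1 < Mo.n i) (gv_inj' Mo i h).symm

/-- the ends of `ge i t` -/
theorem ge_ends (hM : M.IsSphere) (i : Mo.I) (t : ℕ) (v : M.V) :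
    M.inc (Mo.ge i t) v ↔ v = Mo.gv i t ∨ v = Mo.gv i (t + 1) := by
  obtain ⟨x, y, -, hxy⟩ := hM.inc_two (Mo.ge i t)
  obtain ⟨h1, h2⟩ := Mo.ge_inc i t
  have h3 := gv_succ_ne Mo i t
  constructor
  · intro hv
    rcases (hxy _).1 h1 with e1 | e1
    · rcases (hxy _).1 h2 with e2 | e2
      · exact absurd (e1.trans e2.symm) h3
      · rcases (hxy v).1 hv with e3 | e3
        · exact Or.inl (e3.trans e1.symm)
        · exact Or.inr (e3.trans e2.symm)
    · rcases (hxy _).1 h2 with e2 | e2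
      · rcases (hxy v).1 hv with e3 | e3
        · exact Or.inr (e3.trans e2.symm)
        · exact Or.inl (e3.trans e1.symm)
      · exact absurd (e1.trans e2.symm) h3
  · rintro (rfl | rfl)
    · exact h1
    · exact h2

/-- the edges `ge i t`, `t < n i`, are different (their ends are different pairs because `n i ≥ 4`) -/
theorem ge_inj (hM : M.IsSphere) (i : Mo.I) {s t : ℕ} (hs : s < Mo.n i) (ht : t < Mo.n i)
    (h : Mo.ge i s = Mo.ge i t) : s = t := by
  have hn := n_ge Mo i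
  have h1 : M.inc (Mo.ge i t) (Mo.gv i s) := h ▸ (Mo.ge_inc i s).1
  have h2 : M.inc (Mo.ge i t) (Mo.gv i (s + 1)) := h ▸ (Mo.ge_inc i s).2
  rcases (ge_ends Mo hM i t _).1 h1 with e1 | e1
  · have h3 := gv_inj' Mo i e1
    rwa [Nat.mod_eq_of_lt hs, Nat.mod_eq_of_lt ht] at h3
  · exfalso
    rcases (ge_ends Mo hM i t _).1 h2 with e2 | e2
    · have h3 := gv_inj' Mo i e1
      have h4 := gv_inj' Mo i e2
      have h5 : (t + 1 + 1) % Mo.n i = t % Mo.n i := by
        rw [← h4, Nat.add_mod (t + 1) 1, ← h3, ← Nat.add_mod]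
      exact Mouth_mod1 (n := Mo.n i) (t := t) (k := 2) (by omega) (by omega) h5
    · exact gv_succ_ne Mo i s (e1.trans e2.symm)

/-- one face of `ge i t` is in the disc `i`, the other is not -/
theorem ge_faces (hM : M.IsSphere) (i : Mo.I) (t : ℕ) : ∃ f g, f ≠ g ∧ M.bd f (Mo.ge i t) ∧
    M.bd g (Mo.ge i t) ∧ Mo.c i f = 1 ∧ Mo.c i g = 0 := by
  have h1 : M.dF (Mo.c i) (Mo.ge i t) ≠ 0 := (Mo.dc i _).2 ⟨t, rfl⟩
  obtain ⟨f, g, hf, hg, h2, h3⟩ := (dF_ne_zero_iff hM _).1 h1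
  refine ⟨f, g, ?_, hf, hg, h2, h3⟩
  rintro rfl
  rw [h2] at h3
  exact one_ne_zero h3

/-- `gv i t` is a real vertex: it has the face `g` of `ge_faces` not in the disc `i` and the face `f` in the disc
`i`, hence not in the disc `j ≠ i` (`disj`). -/
theorem gv_real (hM : M.IsSphere) (i : Mo.I) (t : ℕ) : Mo.gv i t ∈ Mo.Real := by
  intro j hj
  obtain ⟨f, g, -, hf, hg, h1, h2⟩ := ge_faces Mo hM i t
  by_cases hij : i = j
  · subst hij
    have h3 := hj g ⟨_, hg, (Mo.ge_inc i t).1⟩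
    rw [h2] at h3
    exact zero_ne_one h3
  · have h3 := hj f ⟨_, hf, (Mo.ge_inc i t).1⟩
    apply hij
    apply Mo.disj i j f
    · rw [h1]; exact one_ne_zero
    · rw [h3]; exact one_ne_zero

/-- A vertex not in the interior of the disc `i` with a face in the disc `i` is on `gv i`: by the star property at
`x` some edge at `x` is in `dF (c i)`. -/
theorem on_gv (hM : M.IsSphere) (i : Mo.I) {x : M.V} (hx : x ∉ M.intr (Mo.c i)) {f : M.F}
    (hf : M.At f x) (hc : Mo.c i f ≠ 0) : ∃ t < Mo.n i, Mo.gv i t = x := by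
  have hn := n_ge Mo i
  have h1 : ∃ g, M.At g x ∧ Mo.c i g ≠ 1 := by
    by_contra hcon
    push Not at hcon
    exact hx hcon
  obtain ⟨g, hg, hg1⟩ := h1
  have h2 : ∃ e, M.inc e x ∧ M.dF (Mo.c i) e ≠ 0 := by
    by_contra hcon
    push Not at hcon
    have h3 := hM.star x (Mo.c i) hcon f g hf hg
    rw [zmod2_ne_zero] at hc
    exact hg1 (h3 ▸ hc)
  obtain ⟨e, he, hde⟩ := h2
  obtain ⟨t, rfl⟩ := (Mo.dc i e).1 hde
  rcases (ge_ends Mo hM i t x).1 he with h | h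
  · exact ⟨t % Mo.n i, Nat.mod_lt _ (by omega), by rw [← gv_mod]; exact h.symm⟩
  · exact ⟨(t + 1) % Mo.n i, Nat.mod_lt _ (by omega), by rw [← gv_mod]; exact h.symm⟩

/-- A vertex adjacent to an interior vertex of the disc `i` is interior or on `gv i`. -/
theorem adj_intr (hM : M.IsSphere) (i : Mo.I) {x y : M.V} (hx : x ∈ M.intr (Mo.c i))
    (hxy : M.graph.Adj x y) : y ∈ M.intr (Mo.c i) ∨ ∃ t < Mo.n i, Mo.gv i t = y := by
  obtain ⟨f, hfx, hfy⟩ := adj_face hM hxy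
  by_cases hy : y ∈ M.intr (Mo.c i)
  · exact Or.inl hy
  · right
    apply on_gv Mo hM i hy hfy
    rw [hx f hfx]
    exact one_ne_zero

/-- An edge has both ends real iff no disc contains both its faces: if both faces are in the disc `i` use
`Mo.edge`; if an end is in the interior of the disc `i` both faces are in the disc `i`. -/
theorem real_edge_iff (hM : M.IsSphere) (e : M.E) :
    (∀ x, M.inc e x → x ∈ Mo.Real) ↔ ∀ i, ∃ f, M.bd f e ∧ Mo.c i f = 0 := by
  constructor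
  · intro h i
    by_contra hcon
    push Not at hcon
    obtain ⟨x, hx, hxi⟩ := Mo.edge i e (fun f hf => zmod2_ne_zero.1 (hcon f hf))
    exact h x hx i hxi
  · intro h x hx i hxi
    obtain ⟨f, hf, h0⟩ := h i
    have h1 := hxi f ⟨e, hf, hx⟩
    rw [h0] at h1
    exact zero_ne_one h1

/-- A face in the disc `i` at a real edge `e`: then `e = ge i t`. -/
theorem real_edge_ge (hM : M.IsSphere) {e : M.E} (he : ∀ x, M.inc e x → x ∈ Mo.Real) {i : Mo.I}
    {f : M.F} (hf : M.bd f e) (hc : Mo.c i f ≠ 0) : ∃ t < Mo.n i, Mo.ge i t = e := by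
  have hn := n_ge Mo i
  obtain ⟨g, hg, h0⟩ := (real_edge_iff Mo hM e).1 he i
  have h1 : M.dF (Mo.c i) e ≠ 0 :=
    (dF_ne_zero_iff hM _).2 ⟨f, g, hf, hg, zmod2_ne_zero.1 hc, h0⟩
  obtain ⟨t, rfl⟩ := (Mo.dc i e).1 h1
  exact ⟨t % Mo.n i, Nat.mod_lt _ (by omega), (ge_mod Mo i t).symm⟩

/-- All edges and vertices of a face in no disc are real. -/
theorem ok_face (hM : M.IsSphere) {f : M.F} (hf : ∀ i, Mo.c i f = 0) :
    (∀ x, M.At f x → x ∈ Mo.Real) ∧ ∀ e, M.bd f e → ∀ x, M.inc e x → x ∈ Mo.Real := by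
  have h1 : ∀ x, M.At f x → x ∈ Mo.Real := by
    intro x hx i hxi
    have h2 := hxi f hx
    rw [hf i] at h2
    exact zero_ne_one h2
  exact ⟨h1, fun e he x hx => h1 x ⟨e, he, hx⟩⟩

/-- The interiors of different discs are disjoint (an interior vertex has a face: the disc `i` has `gv i 0`, so there
are two vertices, `exists_at`). -/
theorem intr_disj (hM : M.IsSphere) {i j : Mo.I} {x : M.V} (hi : x ∈ M.intr (Mo.c i))
    (hj : x ∈ M.intr (Mo.c j)) : i = j := by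
  have h1 : ∃ y, x ≠ y := by
    by_cases h : x = Mo.gv i 0
    · exact ⟨Mo.gv i 1, fun h' => gv_succ_ne Mo i 0 (h.symm.trans h')⟩
    · exact ⟨_, h⟩
  obtain ⟨y, hy⟩ := h1
  obtain ⟨f, hf⟩ := exists_at hM hy
  apply Mo.disj i j f
  · rw [hi f hf]; exact one_ne_zero
  · rw [hj f hf]; exact one_ne_zero

/-- the edges at `gv i t` in `dF (c i)` are `ge i t` and `ge i (t + n i - 1)` -/
theorem gv_edges (hM : M.IsSphere) (i : Mo.I) (t : ℕ) (e : M.E) :
    (M.inc e (Mo.gv i t) ∧ M.dF (Mo.c i) e ≠ 0) ↔ e = Mo.ge i t ∨ e = Mo.ge i (t + Mo.n i - 1) := by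
  have hn := n_ge Mo i
  constructor
  · rintro ⟨h1, h2⟩
    obtain ⟨s, rfl⟩ := (Mo.dc i e).1 h2
    rcases (ge_ends Mo hM i s _).1 h1 with h | h
    · left
      rw [ge_mod Mo i s, ge_mod Mo i t, gv_inj' Mo i h]
    · right
      have h3 := Mouth_mod2 (by omega : 1 ≤ Mo.n i) (gv_inj' Mo i h)
      rw [ge_mod Mo i s, ge_mod Mo i (t + Mo.n i - 1), h3]
  · rintro (rfl | rfl)
    · exact ⟨(Mo.ge_inc i t).1, (Mo.dc i _).2 ⟨t, rfl⟩⟩
    · refine ⟨?_, (Mo.dc i _).2 ⟨_, rfl⟩⟩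
      have h1 := (Mo.ge_inc i (t + Mo.n i - 1)).2
      rw [Nat.sub_add_cancel (by omega)] at h1
      have h2 : Mo.gv i (t + Mo.n i) = Mo.gv i t := Mo.gv_per i t
      rwa [h2] at h1

end Pool.Agent.H.MP_c8cc4c_co
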