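import Mathlib
import Pool.Agent.H.MP_c8cc4c_co.G.Mouth

/-! # MP_c8cc4c_co, part G, file 5: raw grid points and grid edges -/

open scoped Classical
open Finset

noncomputable section

namespace Pool.Agent.H.MP_c8cc4c_co

variable {M : PC} (Mo : Mouths M)

theorem Raw_hb (i : Mo.I) : 1 ≤ Mo.b i := le_trans (Mo.ha i) (Mo.hab i)

/-- a boundary grid point -/
theorem gp_bd (i : Mo.I) {t : ℕ} (ht : t < Mo.n i) :
    Mo.gp i (bpt (Mo.a i) (Mo.b i) t).1 (bpt (Mo.a i) (Mo.b i) t).2 = Sum.inl (Mo.gv i t) := by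
  have h := bpt_le (Mo.ha i) (Raw_hb Mo i) ht
  unfold Mouths.gp
  rw [if_neg h.2.2, bix_bpt (Mo.ha i) (Raw_hb Mo i) ht]

theorem gp_bd' (i : Mo.I) {x y : ℕ} (h : onBd (Mo.a i) (Mo.b i) x y) :
    Mo.gp i x y = Sum.inl (Mo.gv i (bix (Mo.a i) (Mo.b i) x y)) := by
  unfold Mouths.gp
  rw [if_neg h.2.2]

theorem gp_int (i : Mo.I) {x y : ℕ} (h : 0 < x ∧ x < Mo.a i ∧ 0 < y ∧ y < Mo.b i) :
    Mo.gp i x y = Sum.inr (i, x, y) := by
  unfold Mouths.gp
  rw [if_pos h]

/-- grid points are vertices of the glued complex -/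
theorem gp_ok (hM : M.IsSphere) (i : Mo.I) (x y : ℕ) : Mo.okV (Mo.gp i x y) := by
  unfold Mouths.gp
  split_ifs with h
  · exact h
  · exact gv_real Mo hM i _

/-- the grid points of `[0,a] x [0,b]` are different -/
theorem gp_inj (i : Mo.I) {x y x' y' : ℕ} (hx : x ≤ Mo.a i) (hy : y ≤ Mo.b i) (hx' : x' ≤ Mo.a i)
    (hy' : y' ≤ Mo.b i) (h : Mo.gp i x y = Mo.gp i x' y') : x = x' ∧ y = y' := by
  unfold Mouths.gp at h
  split_ifs at h with h1 h2 h2
  · simp only [Sum.inr.injEq, Prod.mk.injEq] at h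
    exact h.2
  · have b1 : onBd (Mo.a i) (Mo.b i) x y := ⟨hx, hy, h1⟩
    have b2 : onBd (Mo.a i) (Mo.b i) x' y' := ⟨hx', hy', h2⟩
    have e := gv_inj' Mo i (Sum.inl.inj h)
    have l1 := bix_lt (Mo.ha i) (Raw_hb Mo i) b1
    have l2 := bix_lt (Mo.ha i) (Raw_hb Mo i) b2
    have e' : bix (Mo.a i) (Mo.b i) x y = bix (Mo.a i) (Mo.b i) x' y' := by
      unfold Mouths.n at e
      rwa [Nat.mod_eq_of_lt l1, Nat.mod_eq_of_lt l2] at e
    have p1 := bpt_bix (Mo.ha i) (Raw_hb Mo i) b1
    have p2 := bpt_bix (Mo.ha i) (Raw_hb Mo i) b2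
    rw [e', p2] at p1
    simp only [Prod.mk.injEq] at p1
    exact ⟨p1.1.symm, p1.2.symm⟩

/-- a grid point which is a real vertex is a boundary point -/
theorem gp_real (i : Mo.I) {x y : ℕ} (hx : x ≤ Mo.a i) (hy : y ≤ Mo.b i) {v : M.V}
    (h : Mo.gp i x y = Sum.inl v) : ∃ t < Mo.n i, Mo.gv i t = v ∧
      (x, y) = bpt (Mo.a i) (Mo.b i) t := by
  unfold Mouths.gp at h
  split_ifs at h with h1
  have b1 : onBd (Mo.a i) (Mo.b i) x y := ⟨hx, hy, h1⟩
  exact ⟨bix (Mo.a i) (Mo.b i) x y, bix_lt (Mo.ha i) (Raw_hb Mo i) b1, Sum.inl.inj h,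
    (bpt_bix (Mo.ha i) (Raw_hb Mo i) b1).symm⟩

theorem Raw_ge_ok (hM : M.IsSphere) (i : Mo.I) (t : ℕ) : Mo.okE (Sum.inl (Mo.ge i t)) := by
  intro x hx
  rcases (ge_ends Mo hM i t x).1 hx with h | h <;> rw [h] <;> exact gv_real Mo hM i _

/-- grid edges are edges of the glued complex -/
theorem he_ok (hM : M.IsSphere) (i : Mo.I) {x y : ℕ} (hx : x < Mo.a i) (hy : y ≤ Mo.b i) :
    Mo.okE (Mo.he i x y) := by
  unfold Mouths.he
  split_ifs with h1 h2
  · exact Raw_ge_ok Mo hM i _
  · exact Raw_ge_ok Mo hM i _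
  · exact ⟨hx, by omega, by omega⟩

theorem ve_ok (hM : M.IsSphere) (i : Mo.I) {x y : ℕ} (hx : x ≤ Mo.a i) (hy : y < Mo.b i) :
    Mo.okE (Mo.ve i x y) := by
  unfold Mouths.ve
  split_ifs with h1 h2
  · exact Raw_ge_ok Mo hM i _
  · exact Raw_ge_ok Mo hM i _
  · exact ⟨by omega, by omega, hy⟩

theorem Raw_rinc_ge (hM : M.IsSphere) (i : Mo.I) (t : ℕ) (v : M.V ⊕ (Mo.I × ℕ × ℕ)) :
    Mo.rinc (Sum.inl (Mo.ge i t)) v ↔
      v = Sum.inl (Mo.gv i t) ∨ v = Sum.inl (Mo.gv i (t + 1)) := by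
  constructor
  · rintro ⟨x, hx, rfl⟩
    rcases (ge_ends Mo hM i t x).1 hx with h | h
    · left; rw [h]
    · right; rw [h]
  · rintro (h | h)
    · exact ⟨_, (ge_ends Mo hM i t _).2 (Or.inl rfl), h⟩
    · exact ⟨_, (ge_ends Mo hM i t _).2 (Or.inr rfl), h⟩

/-- the ends of the horizontal grid edge -/
theorem he_inc (hM : M.IsSphere) (i : Mo.I) {x y : ℕ} (hx : x < Mo.a i) (hy : y ≤ Mo.b i)
    (v : M.V ⊕ (Mo.I × ℕ × ℕ)) :
    Mo.rinc (Mo.he i x y) v ↔ v = Mo.gp i x y ∨ v = Mo.gp i (x + 1) y := by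
  have ha := Mo.ha i
  have hb := Raw_hb Mo i
  unfold Mouths.he
  split_ifs with h1 h2
  · subst h1
    rw [Raw_rinc_ge Mo hM, gp_bd' Mo i (x := x) (y := 0) ⟨by omega, by omega, by omega⟩,
      gp_bd' Mo i (x := x + 1) (y := 0) ⟨by omega, by omega, by omega⟩]
    simp [bix]
  · have e1 : bix (Mo.a i) (Mo.b i) x y = 2 * Mo.a i + Mo.b i - x - 1 + 1 := by
      unfold bix
      rw [if_neg h1, if_neg (by omega), if_pos h2]
      omega
    have e2 : bix (Mo.a i) (Mo.b i) (x + 1) y = 2 * Mo.a i + Mo.b i - x - 1 := by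
      unfold bix
      rw [if_neg h1]
      split_ifs
      · omega
      · omega
    rw [Raw_rinc_ge Mo hM, gp_bd' Mo i (x := x) (y := y) ⟨by omega, by omega, by omega⟩,
      gp_bd' Mo i (x := x + 1) (y := y) ⟨by omega, by omega, by omega⟩, e1, e2]
    exact or_comm
  · exact Iff.rfl

theorem ve_inc (hM : M.IsSphere) (i : Mo.I) {x y : ℕ} (hx : x ≤ Mo.a i) (hy : y < Mo.b i)
    (v : M.V ⊕ (Mo.I × ℕ × ℕ)) :
    Mo.rinc (Mo.ve i x y) v ↔ v = Mo.gp i x y ∨ v = Mo.gp i x (y + 1) := by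
  have ha := Mo.ha i
  have hb := Raw_hb Mo i
  unfold Mouths.ve
  split_ifs with h1 h2
  · subst h1
    have e1 : Mo.gv i (bix (Mo.a i) (Mo.b i) 0 y) =
        Mo.gv i (2 * (Mo.a i + Mo.b i) - y - 1 + 1) := by
      unfold bix
      by_cases hy0 : y = 0
      · rw [if_pos hy0, hy0]
        have : 2 * (Mo.a i + Mo.b i) - 0 - 1 + 1 = 0 + 2 * (Mo.a i + Mo.b i) := by omega
        rw [this, Mo.gv_per]
      · rw [if_neg hy0, if_neg (by omega)]
        split_ifs <;> congr 1 <;> omega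
    have e2 : bix (Mo.a i) (Mo.b i) 0 (y + 1) = 2 * (Mo.a i + Mo.b i) - y - 1 := by
      unfold bix
      rw [if_neg (by omega), if_neg (by omega)]
      split_ifs <;> omega
    rw [Raw_rinc_ge Mo hM, gp_bd' Mo i (x := 0) (y := y) ⟨by omega, by omega, by omega⟩,
      gp_bd' Mo i (x := 0) (y := y + 1) ⟨by omega, by omega, by omega⟩, e1, e2]
    exact or_comm
  · have e1 : bix (Mo.a i) (Mo.b i) x y = Mo.a i + y := by
      unfold bix
      split_ifs <;> omega
    have e2 : bix (Mo.a i) (Mo.b i) x (y + 1) = Mo.a i + y + 1 := by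
      unfold bix
      rw [if_neg (by omega), if_pos h2]
      omega
    rw [Raw_rinc_ge Mo hM, gp_bd' Mo i (x := x) (y := y) ⟨by omega, by omega, by omega⟩,
      gp_bd' Mo i (x := x) (y := y + 1) ⟨by omega, by omega, by omega⟩, e1, e2]
  · exact Iff.rfl

/-- The four edges of a cell are different (by their ends). -/
theorem cell_edges_ne (hM : M.IsSphere) (i : Mo.I) {x y : ℕ} (hx : x < Mo.a i) (hy : y < Mo.b i) :
    Mo.he i x y ≠ Mo.he i x (y + 1) ∧ Mo.he i x y ≠ Mo.ve i x y ∧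
    Mo.he i x y ≠ Mo.ve i (x + 1) y ∧ Mo.he i x (y + 1) ≠ Mo.ve i x y ∧
    Mo.he i x (y + 1) ≠ Mo.ve i (x + 1) y ∧ Mo.ve i x y ≠ Mo.ve i (x + 1) y := by
  have H1 := he_inc Mo hM i hx (le_of_lt hy)
  have H2 := he_inc Mo hM i hx (show y + 1 ≤ Mo.b i from hy)
  have V1 := ve_inc Mo hM i (le_of_lt hx) hy
  have V2 := ve_inc Mo hM i (show x + 1 ≤ Mo.a i from hx) hy
  have inj : ∀ {p q p' q' : ℕ}, p ≤ Mo.a i → q ≤ Mo.b i → p' ≤ Mo.a i → q' ≤ Mo.b i →
      Mo.gp i p q = Mo.gp i p' q' → p = p' ∧ q = q' := fun h1 h2 h3 h4 h =>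
    gp_inj Mo i h1 h2 h3 h4 h
  refine ⟨?_, ?_, ?_, ?_, ?_, ?_⟩ <;> intro e
  · have h := (H1 (Mo.gp i x y)).2 (Or.inl rfl)
    rw [e, H2] at h
    rcases h with h | h
    · have := inj (by omega) (by omega) (by omega) (by omega) h; omega
    · have := inj (by omega) (by omega) (by omega) (by omega) h; omega
  · have h := (H1 (Mo.gp i (x + 1) y)).2 (Or.inr rfl)
    rw [e, V1] at h
    rcases h with h | h
    · have := inj (by omega) (by omega) (by omega) (by omega) h; omega
    · have := inj (by omega) (by omega) (by omega) (by omega) h; omega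
  · have h := (H1 (Mo.gp i x y)).2 (Or.inl rfl)
    rw [e, V2] at h
    rcases h with h | h
    · have := inj (by omega) (by omega) (by omega) (by omega) h; omega
    · have := inj (by omega) (by omega) (by omega) (by omega) h; omega
  · have h := (H2 (Mo.gp i (x + 1) (y + 1))).2 (Or.inr rfl)
    rw [e, V1] at h
    rcases h with h | h
    · have := inj (by omega) (by omega) (by omega) (by omega) h; omega
    · have := inj (by omega) (by omega) (by omega) (by omega) h; omega
  · have h := (H2 (Mo.gp i x (y + 1))).2 (Or.inl rfl)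
    rw [e, V2] at h
    rcases h with h | h
    · have := inj (by omega) (by omega) (by omega) (by omega) h; omega
    · have := inj (by omega) (by omega) (by omega) (by omega) h; omega
  · have h := (V1 (Mo.gp i x y)).2 (Or.inl rfl)
    rw [e, V2] at h
    rcases h with h | h
    · have := inj (by omega) (by omega) (by omega) (by omega) h; omega
    · have := inj (by omega) (by omega) (by omega) (by omega) h; omega

theorem Raw_rbd_real (e : M.E) (j : Mo.I) {x y : ℕ} (hx : x < Mo.a j)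
    (hy : y < Mo.b j) : Mo.rbd (Sum.inr (j, x, y)) (Sum.inl e) ↔
      ∃ s < Mo.n j, Mo.ge j s = e ∧ (x, y) = bcell (Mo.a j) (Mo.b j) s := by
  have ha := Mo.ha j
  have hb := Raw_hb Mo j
  unfold Mouths.n
  constructor
  · rintro (h | h | h | h)
    · unfold Mouths.he at h
      split_ifs at h with h1 h2
      · refine ⟨x, by omega, (Sum.inl.inj h).symm, ?_⟩
        unfold bcell
        rw [if_pos hx, h1]
      · omega
    · unfold Mouths.he at h
      rw [if_neg (Nat.succ_ne_zero y)] at h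
      split_ifs at h with h2
      · refine ⟨_, ?_, (Sum.inl.inj h).symm, ?_⟩
        · omega
        · unfold bcell
          rw [if_neg (by omega), if_neg (by omega), if_pos (by omega)]
          ext
          · show x = _; omega
          · show y = _; omega
    · unfold Mouths.ve at h
      split_ifs at h with h1 h2
      · refine ⟨_, ?_, (Sum.inl.inj h).symm, ?_⟩
        · omega
        · unfold bcell
          rw [if_neg (by omega), if_neg (by omega), if_neg (by omega)]
          ext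
          · show x = _; omega
          · show y = _; omega
      · omega
    · unfold Mouths.ve at h
      rw [if_neg (Nat.succ_ne_zero x)] at h
      split_ifs at h with h2
      · refine ⟨_, ?_, (Sum.inl.inj h).symm, ?_⟩
        · omega
        · unfold bcell
          rw [if_neg (by omega), if_pos (by omega)]
          ext
          · show x = _; omega
          · show y = _; omega
  · rintro ⟨s, hs, rfl, hxy⟩
    unfold bcell at hxy
    split_ifs at hxy with c1 c2 c3
    · simp only [Prod.mk.injEq] at hxy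
      left
      unfold Mouths.he
      rw [if_pos hxy.2, hxy.1]
    · simp only [Prod.mk.injEq] at hxy
      right; right; right
      unfold Mouths.ve
      rw [if_neg (by omega), if_pos (by omega)]
      congr 2
      omega
    · simp only [Prod.mk.injEq] at hxy
      right; left
      unfold Mouths.he
      rw [if_neg (by omega), if_pos (by omega)]
      congr 2
      omega
    · simp only [Prod.mk.injEq] at hxy
      right; right; left
      unfold Mouths.ve
      rw [if_pos (by omega)]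
      congr 2
      omega

/-- the cells at the boundary edge `ge i t`, `t < n i`: exactly `bcell t` -/
theorem rbd_ge (hM : M.IsSphere) (i j : Mo.I) {t x y : ℕ} (ht : t < Mo.n i) (hx : x < Mo.a j)
    (hy : y < Mo.b j) : Mo.rbd (Sum.inr (j, x, y)) (Sum.inl (Mo.ge i t)) ↔
      ∃ s < Mo.n j, Mo.ge j s = Mo.ge i t ∧ (x, y) = bcell (Mo.a j) (Mo.b j) s :=
  Raw_rbd_real Mo _ j hx hy

/-- the cells at a real edge -/
theorem rbd_real (hM : M.IsSphere) (e : M.E) (j : Mo.I) {x y : ℕ} (hx : x < Mo.a j)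
    (hy : y < Mo.b j) : Mo.rbd (Sum.inr (j, x, y)) (Sum.inl e) ↔
      ∃ s < Mo.n j, Mo.ge j s = e ∧ (x, y) = bcell (Mo.a j) (Mo.b j) s :=
  Raw_rbd_real Mo e j hx hy

/-- the cells at an interior horizontal edge -/
theorem rbd_h (i j : Mo.I) {x y x' y' : ℕ} (h : x < Mo.a i ∧ 0 < y ∧ y < Mo.b i)
    (hx : x' < Mo.a j) (hy : y' < Mo.b j) :
    Mo.rbd (Sum.inr (j, x', y')) (Sum.inr (i, false, x, y)) ↔
      j = i ∧ x' = x ∧ (y' = y ∨ y' + 1 = y) := by
  constructor
  · rintro (h' | h' | h' | h')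
    · unfold Mouths.he at h'
      split_ifs at h' with h1 h2
      simp only [Sum.inr.injEq, Prod.mk.injEq] at h'
      exact ⟨h'.1.symm, h'.2.2.1.symm, Or.inl h'.2.2.2.symm⟩
    · unfold Mouths.he at h'
      rw [if_neg (Nat.succ_ne_zero y')] at h'
      split_ifs at h' with h2
      simp only [Sum.inr.injEq, Prod.mk.injEq] at h'
      exact ⟨h'.1.symm, h'.2.2.1.symm, Or.inr h'.2.2.2.symm⟩
    · unfold Mouths.ve at h'
      split_ifs at h' with h1 h2
      simp at h'
    · unfold Mouths.ve at h'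
      rw [if_neg (Nat.succ_ne_zero x')] at h'
      split_ifs at h' with h2
      simp at h'
  · rintro ⟨rfl, rfl, rfl | rfl⟩
    · left
      unfold Mouths.he
      rw [if_neg (by omega), if_neg (by omega)]
    · right; left
      unfold Mouths.he
      rw [if_neg (by omega), if_neg (by omega)]

theorem rbd_v (i j : Mo.I) {x y x' y' : ℕ} (h : 0 < x ∧ x < Mo.a i ∧ y < Mo.b i)
    (hx : x' < Mo.a j) (hy : y' < Mo.b j) :
    Mo.rbd (Sum.inr (j, x', y')) (Sum.inr (i, true, x, y)) ↔
      j = i ∧ y' = y ∧ (x' = x ∨ x' + 1 = x) := by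
  constructor
  · rintro (h' | h' | h' | h')
    · unfold Mouths.he at h'
      split_ifs at h' with h1 h2
      simp at h'
    · unfold Mouths.he at h'
      rw [if_neg (Nat.succ_ne_zero y')] at h'
      split_ifs at h' with h2
      simp at h'
    · unfold Mouths.ve at h'
      split_ifs at h' with h1 h2
      simp only [Sum.inr.injEq, Prod.mk.injEq] at h'
      exact ⟨h'.1.symm, h'.2.2.2.symm, Or.inl h'.2.2.1.symm⟩
    · unfold Mouths.ve at h'
      rw [if_neg (Nat.succ_ne_zero x')] at h'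
      split_ifs at h' with h2
      simp only [Sum.inr.injEq, Prod.mk.injEq] at h'
      exact ⟨h'.1.symm, h'.2.2.2.symm, Or.inr h'.2.2.1.symm⟩
  · rintro ⟨rfl, rfl, rfl | rfl⟩
    · right; right; left
      unfold Mouths.ve
      rw [if_neg (by omega), if_neg (by omega)]
    · right; right; right
      unfold Mouths.ve
      rw [if_neg (by omega), if_neg (by omega)]

end Pool.Agent.H.MP_c8cc4c_co
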