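import Mathlib
import Pool.Agent.H.MP_c8cc4c_co.G.Raw

/-! # MP_c8cc4c_co, part G, file 6: the glued complex, edges and faces

`(glue M Mo).V` etc. are subtypes of the raw types; `inc` and `bd` are the raw relations. -/

open scoped Classical
open Finset

noncomputable section

namespace Pool.Agent.H.MP_c8cc4c_co

variable {M : PC} (Mo : Mouths M)

/-- every edge of the glued complex has two ends (real edges: `inc_two` of `M`; interior grid edges: `gp_inj`, `gp_ok`) -/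
theorem glue_inc_two (hM : M.IsSphere) : ∀ e : (glue M Mo).E, ∃ x y, x ≠ y ∧
    ∀ v, (glue M Mo).inc e v ↔ v = x ∨ v = y := by
  rintro ⟨e | ⟨i, b, x, y⟩, he⟩
  · obtain ⟨a, b, hab, h⟩ := hM.inc_two e
    refine ⟨⟨Sum.inl a, he a ((h a).2 (Or.inl rfl))⟩, ⟨Sum.inl b, he b ((h b).2 (Or.inr rfl))⟩,
      ?_, ?_⟩
    · intro h'
      exact hab (Sum.inl.inj (Subtype.ext_iff.1 h'))
    · rintro ⟨v, hv⟩
      constructor
      · rintro ⟨x, hx, hvx⟩
        have hvx' : v = Sum.inl x := hvx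
        subst hvx'
        rcases (h x).1 hx with rfl | rfl
        · exact Or.inl rfl
        · exact Or.inr rfl
      · rintro (h' | h')
        · exact ⟨a, (h a).2 (Or.inl rfl), Subtype.ext_iff.1 h'⟩
        · exact ⟨b, (h b).2 (Or.inr rfl), Subtype.ext_iff.1 h'⟩
  · cases b
    · obtain ⟨h1, h2, h3⟩ : x < Mo.a i ∧ 0 < y ∧ y < Mo.b i := he
      refine ⟨⟨Mo.gp i x y, gp_ok Mo hM i x y⟩, ⟨Mo.gp i (x + 1) y, gp_ok Mo hM i _ _⟩, ?_, ?_⟩
      · intro h'
        have h4 := gp_inj Mo i (by omega) (by omega) (by omega) (by omega) (Subtype.ext_iff.1 h')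
        omega
      · rintro ⟨v, hv⟩
        refine Iff.trans ?_ (or_congr Subtype.ext_iff Subtype.ext_iff).symm
        exact Iff.rfl
    · obtain ⟨h1, h2, h3⟩ : 0 < x ∧ x < Mo.a i ∧ y < Mo.b i := he
      refine ⟨⟨Mo.gp i x y, gp_ok Mo hM i x y⟩, ⟨Mo.gp i x (y + 1), gp_ok Mo hM i _ _⟩, ?_, ?_⟩
      · intro h'
        have h4 := gp_inj Mo i (by omega) (by omega) (by omega) (by omega) (Subtype.ext_iff.1 h')
        omega
      · rintro ⟨v, hv⟩
        refine Iff.trans ?_ (or_congr Subtype.ext_iff Subtype.ext_iff).symm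
        exact Iff.rfl

/-- the face of the glued complex which replaces the face `f` at the real edge `e` -/
def GlueA_R (e : M.E) (f : M.F) (h : (glue M Mo).F) : Prop :=
  (h.1 = Sum.inl f ∧ ∀ i, Mo.c i f = 0) ∨
  ∃ i x y, h.1 = Sum.inr (i, x, y) ∧ Mo.c i f ≠ 0 ∧
    ∃ s < Mo.n i, Mo.ge i s = e ∧ (x, y) = bcell (Mo.a i) (Mo.b i) s

theorem GlueA_R_ex (hM : M.IsSphere) {e : M.E} (he : ∀ x, M.inc e x → x ∈ Mo.Real) {f : M.F}
    (hf : M.bd f e) : ∃ h, GlueA_R Mo e f h := by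
  by_cases h0 : ∀ i, Mo.c i f = 0
  · exact ⟨⟨Sum.inl f, h0⟩, Or.inl ⟨rfl, h0⟩⟩
  · push Not at h0
    obtain ⟨i, hi⟩ := h0
    obtain ⟨t, ht, hte⟩ := real_edge_ge Mo hM he hf hi
    have h1 := Mo.ha i
    have h2 := Mo.hab i
    have h3 := bcell_lt (a := Mo.a i) (b := Mo.b i) h1 (by omega) ht
    exact ⟨⟨Sum.inr (i, (bcell (Mo.a i) (Mo.b i) t).1, (bcell (Mo.a i) (Mo.b i) t).2), h3⟩,
      Or.inr ⟨i, _, _, rfl, hi, t, ht, hte, rfl⟩⟩

theorem GlueA_R_uniq (hM : M.IsSphere) {e : M.E} {f : M.F} {h h' : (glue M Mo).F}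
    (h1 : GlueA_R Mo e f h) (h2 : GlueA_R Mo e f h') : h = h' := by
  apply Subtype.ext
  rcases h1 with ⟨h1, h0⟩ | ⟨i, x, y, h1, hi, s, hs, hse, hxy⟩
  · rcases h2 with ⟨h2, -⟩ | ⟨i, x, y, h2, hi, -⟩
    · rw [h1, h2]
    · exact absurd (h0 i) hi
  · rcases h2 with ⟨h2, h0⟩ | ⟨i', x', y', h2, hi', s', hs', hse', hxy'⟩
    · exact absurd (h0 i) hi
    · obtain rfl := Mo.disj i i' f hi hi'
      obtain rfl := ge_inj Mo hM i hs hs' (hse.trans hse'.symm)
      rw [← hxy'] at hxy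
      rw [h1, h2]
      rw [Prod.mk.injEq] at hxy
      rw [hxy.1, hxy.2]

theorem GlueA_R_bd (hM : M.IsSphere) {e : M.E} (he : ∀ x, M.inc e x → x ∈ Mo.Real)
    (h : (glue M Mo).F) :
    (glue M Mo).bd h ⟨Sum.inl e, he⟩ ↔ ∃ f, M.bd f e ∧ GlueA_R Mo e f h := by
  obtain ⟨h, hh⟩ := h
  rcases h with f | ⟨j, x, y⟩
  · constructor
    · rintro ⟨e', hfe, hee⟩
      have h1 : e = e' := Sum.inl.inj hee
      subst h1
      exact ⟨f, hfe, Or.inl ⟨rfl, hh⟩⟩
    · rintro ⟨f', hfe, h1 | ⟨i, x, y, h1, -⟩⟩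
      · have h2 : f = f' := Sum.inl.inj h1.1
        subst h2
        exact ⟨e, hfe, rfl⟩
      · exact absurd h1 (by simp)
  · obtain ⟨hx, hy⟩ : x < Mo.a j ∧ y < Mo.b j := hh
    have key := rbd_real Mo hM e j hx hy
    constructor
    · intro h1
      obtain ⟨t, ht, hte, hxy⟩ := key.1 h1
      obtain ⟨f, g, -, hf, -, hcf, -⟩ := ge_faces Mo hM j t
      rw [hte] at hf
      exact ⟨f, hf, Or.inr ⟨j, x, y, rfl, by rw [hcf]; exact one_ne_zero, t, ht, hte, hxy⟩⟩
    · rintro ⟨f', hfe, h1 | ⟨i, x', y', h1, hc, t, ht, hte, hxy⟩⟩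
      · exact absurd h1.1 (by simp)
      · have h2 := Sum.inr.inj h1
        rw [Prod.mk.injEq, Prod.mk.injEq] at h2
        obtain ⟨rfl, rfl, rfl⟩ := h2
        exact key.2 ⟨t, ht, hte, hxy⟩

theorem GlueA_R_inj (hM : M.IsSphere) {e : M.E} (he : ∀ x, M.inc e x → x ∈ Mo.Real) {f g : M.F}
    (hf : M.bd f e) (hg : M.bd g e) {h : (glue M Mo).F}
    (h1 : GlueA_R Mo e f h) (h2 : GlueA_R Mo e g h) : f = g := by
  rcases h1 with ⟨h1, h0⟩ | ⟨i, x, y, h1, hi, -⟩
  · rcases h2 with ⟨h2, -⟩ | ⟨i, x, y, h2, hi, -⟩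
    · exact Sum.inl.inj (h1.symm.trans h2)
    · exact absurd (h1.symm.trans h2) (by simp)
  · rcases h2 with ⟨h2, h0⟩ | ⟨i', x', y', h2, hi', -⟩
    · exact absurd (h1.symm.trans h2) (by simp)
    · have h3 := Sum.inr.inj (h1.symm.trans h2)
      rw [Prod.mk.injEq] at h3
      obtain ⟨rfl, -⟩ := h3
      obtain ⟨k, hk, hk0⟩ := (real_edge_iff Mo hM e).1 he i
      obtain ⟨a, b, hab, hall⟩ := hM.bd_two e
      by_contra hfg
      have hkf : k ≠ f := by
        rintro rfl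
        exact hi hk0
      have hkg : k ≠ g := by
        rintro rfl
        exact hi' hk0
      rcases (hall f).1 hf with rfl | rfl <;> rcases (hall g).1 hg with rfl | rfl <;>
        rcases (hall k).1 hk with rfl | rfl <;> first | exact hfg rfl | exact hkf rfl |
          exact hkg rfl

/-- Every edge of the glued complex is in two faces. Real edge `e` (no disc contains both faces `f`, `g` of `e`,
`real_edge_iff`): a face in no disc stays, a face in the disc `i` is replaced by the cell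
`bcell t`, `e = ge i t` (`real_edge_ge`, `rbd_real`); the two are different (if `f` is in the disc `i` and `g` in the
disc `j` then `i ≠ j`). Interior edges: `rbd_h`, `rbd_v`. -/
theorem glue_bd_two (hM : M.IsSphere) : ∀ e : (glue M Mo).E, ∃ f g, f ≠ g ∧
    ∀ h, (glue M Mo).bd h e ↔ h = f ∨ h = g := by
  rintro ⟨e | ⟨i, b, x, y⟩, he⟩
  · obtain ⟨f, g, hfg, hfe⟩ := hM.bd_two e
    have hf := (hfe f).2 (Or.inl rfl)
    have hg := (hfe g).2 (Or.inr rfl)
    obtain ⟨f', hf'⟩ := GlueA_R_ex Mo hM he hf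
    obtain ⟨g', hg'⟩ := GlueA_R_ex Mo hM he hg
    refine ⟨f', g', ?_, ?_⟩
    · rintro rfl
      exact hfg (GlueA_R_inj Mo hM he hf hg hf' hg')
    · intro h
      constructor
      · intro h1
        obtain ⟨k, hk, hR⟩ := (GlueA_R_bd Mo hM he h).1 h1
        rcases (hfe k).1 hk with rfl | rfl
        · exact Or.inl (GlueA_R_uniq Mo hM hR hf')
        · exact Or.inr (GlueA_R_uniq Mo hM hR hg')
      · rintro (rfl | rfl)
        · exact (GlueA_R_bd Mo hM he _).2 ⟨f, hf, hf'⟩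
        · exact (GlueA_R_bd Mo hM he _).2 ⟨g, hg, hg'⟩
  · cases b
    · obtain ⟨h1, h2, h3⟩ : x < Mo.a i ∧ 0 < y ∧ y < Mo.b i := he
      refine ⟨⟨Sum.inr (i, x, y), h1, h3⟩, ⟨Sum.inr (i, x, y - 1), h1, by omega⟩, ?_, ?_⟩
      · intro h'
        have h4 := Sum.inr.inj (Subtype.ext_iff.1 h')
        rw [Prod.mk.injEq, Prod.mk.injEq] at h4
        omega
      · rintro ⟨f | ⟨j, x', y'⟩, hf⟩
        · constructor
          · rintro ⟨e', -, h'⟩
            exact absurd h' (by simp)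
          · rintro (h' | h')
            · exact absurd (Subtype.ext_iff.1 h') (by simp)
            · exact absurd (Subtype.ext_iff.1 h') (by simp)
        · obtain ⟨hx', hy'⟩ : x' < Mo.a j ∧ y' < Mo.b j := hf
          refine (rbd_h Mo i j ⟨h1, h2, h3⟩ hx' hy').trans
            (Iff.trans ?_ (or_congr Subtype.ext_iff Subtype.ext_iff).symm)
          show _ ↔ ((Sum.inr (j, x', y') : M.F ⊕ (Mo.I × ℕ × ℕ)) = Sum.inr (i, x, y) ∨
            (Sum.inr (j, x', y') : M.F ⊕ (Mo.I × ℕ × ℕ)) = Sum.inr (i, x, y - 1))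
          rw [Sum.inr.injEq, Sum.inr.injEq, Prod.mk.injEq,
            Prod.mk.injEq, Prod.mk.injEq, Prod.mk.injEq]
          constructor
          · rintro ⟨h4, h5, h6 | h6⟩
            · exact Or.inl ⟨h4, h5, h6⟩
            · exact Or.inr ⟨h4, h5, by omega⟩
          · rintro (⟨h4, h5, h6⟩ | ⟨h4, h5, h6⟩)
            · exact ⟨h4, h5, Or.inl h6⟩
            · exact ⟨h4, h5, Or.inr (by omega)⟩
    · obtain ⟨h1, h2, h3⟩ : 0 < x ∧ x < Mo.a i ∧ y < Mo.b i := he
      refine ⟨⟨Sum.inr (i, x, y), h2, h3⟩, ⟨Sum.inr (i, x - 1, y), by omega, h3⟩, ?_, ?_⟩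
      · intro h'
        have h4 := Sum.inr.inj (Subtype.ext_iff.1 h')
        rw [Prod.mk.injEq, Prod.mk.injEq] at h4
        omega
      · rintro ⟨f | ⟨j, x', y'⟩, hf⟩
        · constructor
          · rintro ⟨e', -, h'⟩
            exact absurd h' (by simp)
          · rintro (h' | h')
            · exact absurd (Subtype.ext_iff.1 h') (by simp)
            · exact absurd (Subtype.ext_iff.1 h') (by simp)
        · obtain ⟨hx', hy'⟩ : x' < Mo.a j ∧ y' < Mo.b j := hf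
          refine (rbd_v Mo i j ⟨h1, h2, h3⟩ hx' hy').trans
            (Iff.trans ?_ (or_congr Subtype.ext_iff Subtype.ext_iff).symm)
          show _ ↔ ((Sum.inr (j, x', y') : M.F ⊕ (Mo.I × ℕ × ℕ)) = Sum.inr (i, x, y) ∨
            (Sum.inr (j, x', y') : M.F ⊕ (Mo.I × ℕ × ℕ)) = Sum.inr (i, x - 1, y))
          rw [Sum.inr.injEq, Sum.inr.injEq, Prod.mk.injEq,
            Prod.mk.injEq, Prod.mk.injEq, Prod.mk.injEq]
          constructor
          · rintro ⟨h4, h5, h6 | h6⟩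
            · exact Or.inl ⟨h4, h6, h5⟩
            · exact Or.inr ⟨h4, by omega, h5⟩
          · rintro (⟨h4, h5, h6⟩ | ⟨h4, h5, h6⟩)
            · exact ⟨h4, h6, Or.inl h5⟩
            · exact ⟨h4, h6, Or.inr (by omega)⟩

/-- vertices of a face which stays -/
theorem glue_at_real (hM : M.IsSphere) {f : (glue M Mo).F} {f' : M.F} (hf : f.1 = Sum.inl f')
    (v : (glue M Mo).V) : (glue M Mo).At f v ↔ ∃ x, v.1 = Sum.inl x ∧ M.At f' x := by
  obtain ⟨f, hf0⟩ := f
  have hf' : f = Sum.inl f' := hf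
  subst hf'
  constructor
  · rintro ⟨⟨e, he⟩, ⟨e', h1, h2⟩, h3⟩
    have h2' : e = Sum.inl e' := h2
    subst h2'
    obtain ⟨x, hx, hv⟩ := h3
    exact ⟨x, hv, e', h1, hx⟩
  · rintro ⟨x, hv, e', h1, h2⟩
    exact ⟨⟨Sum.inl e', (ok_face Mo hM hf0).2 e' h1⟩, ⟨e', h1, rfl⟩, x, h2, hv⟩

/-- vertices of a cell -/
theorem glue_at_cell (hM : M.IsSphere) {f : (glue M Mo).F} {i : Mo.I} {x y : ℕ}
    (hf : f.1 = Sum.inr (i, x, y)) (v : (glue M Mo).V) : (glue M Mo).At f v ↔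
      v.1 = Mo.gp i x y ∨ v.1 = Mo.gp i (x + 1) y ∨ v.1 = Mo.gp i x (y + 1) ∨
        v.1 = Mo.gp i (x + 1) (y + 1) := by
  obtain ⟨f, hf0⟩ := f
  have hf' : f = Sum.inr (i, x, y) := hf
  subst hf'
  obtain ⟨hx, hy⟩ : x < Mo.a i ∧ y < Mo.b i := hf0
  constructor
  · rintro ⟨⟨e, he⟩, h1, h3⟩
    have h1' : e = Mo.he i x y ∨ e = Mo.he i x (y + 1) ∨ e = Mo.ve i x y ∨
      e = Mo.ve i (x + 1) y := h1
    have h3' : Mo.rinc e v.1 := h3
    rcases h1' with rfl | rfl | rfl | rfl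
    · rcases (he_inc Mo hM i hx (by omega) _).1 h3' with h | h
      · exact Or.inl h
      · exact Or.inr (Or.inl h)
    · rcases (he_inc Mo hM i hx (by omega) _).1 h3' with h | h
      · exact Or.inr (Or.inr (Or.inl h))
      · exact Or.inr (Or.inr (Or.inr h))
    · rcases (ve_inc Mo hM i (by omega) hy _).1 h3' with h | h
      · exact Or.inl h
      · exact Or.inr (Or.inr (Or.inl h))
    · rcases (ve_inc Mo hM i (by omega) hy _).1 h3' with h | h
      · exact Or.inr (Or.inl h)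
      · exact Or.inr (Or.inr (Or.inr h))
  · rintro (h | h | h | h)
    · exact ⟨⟨Mo.he i x y, he_ok Mo hM i hx (by omega)⟩, Or.inl rfl,
        (he_inc Mo hM i hx (by omega) _).2 (Or.inl h)⟩
    · exact ⟨⟨Mo.he i x y, he_ok Mo hM i hx (by omega)⟩, Or.inl rfl,
        (he_inc Mo hM i hx (by omega) _).2 (Or.inr h)⟩
    · exact ⟨⟨Mo.he i x (y + 1), he_ok Mo hM i hx (by omega)⟩, Or.inr (Or.inl rfl),
        (he_inc Mo hM i hx (by omega) _).2 (Or.inl h)⟩
    · exact ⟨⟨Mo.he i x (y + 1), he_ok Mo hM i hx (by omega)⟩, Or.inr (Or.inl rfl),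
        (he_inc Mo hM i hx (by omega) _).2 (Or.inr h)⟩

/-- adjacency of real vertices in the glued complex implies adjacency in `M`, or the two are grid points of a mouth joined by an
interior grid edge -/
theorem glue_adj (hM : M.IsSphere) {u v : (glue M Mo).V} (h : (glue M Mo).graph.Adj u v) :
    (∃ x y, u.1 = Sum.inl x ∧ v.1 = Sum.inl y ∧ M.graph.Adj x y) ∨
    ∃ i x y x' y', x ≤ Mo.a i ∧ y ≤ Mo.b i ∧ x' ≤ Mo.a i ∧ y' ≤ Mo.b i ∧
      u.1 = Mo.gp i x y ∧ v.1 = Mo.gp i x' y' ∧ gd (x, y) (x', y') = 1 := by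
  obtain ⟨huv, ⟨e, he⟩, h1, h2⟩ := h
  have huv' : u.1 ≠ v.1 := fun h => huv (Subtype.ext h)
  rcases e with e | ⟨i, b, x, y⟩
  · left
    obtain ⟨x, hx, hu⟩ := h1
    obtain ⟨y, hy, hv⟩ := h2
    refine ⟨x, y, hu, hv, inc_adj hM hx hy ?_⟩
    rintro rfl
    exact huv' (hu.trans hv.symm)
  · right
    cases b
    · obtain ⟨h3, h4, h5⟩ : x < Mo.a i ∧ 0 < y ∧ y < Mo.b i := he
      have h1' : u.1 = Mo.gp i x y ∨ u.1 = Mo.gp i (x + 1) y := h1
      have h2' : v.1 = Mo.gp i x y ∨ v.1 = Mo.gp i (x + 1) y := h2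
      rcases h1' with h1 | h1 <;> rcases h2' with h2 | h2
      · exact absurd (h1.trans h2.symm) huv'
      · exact ⟨i, x, y, x + 1, y, by omega, by omega, by omega, by omega, h1, h2, by
          unfold gd; simp only []; omega⟩
      · exact ⟨i, x + 1, y, x, y, by omega, by omega, by omega, by omega, h1, h2, by
          unfold gd; simp only []; omega⟩
      · exact absurd (h1.trans h2.symm) huv'
    · obtain ⟨h3, h4, h5⟩ : 0 < x ∧ x < Mo.a i ∧ y < Mo.b i := he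
      have h1' : u.1 = Mo.gp i x y ∨ u.1 = Mo.gp i x (y + 1) := h1
      have h2' : v.1 = Mo.gp i x y ∨ v.1 = Mo.gp i x (y + 1) := h2
      rcases h1' with h1 | h1 <;> rcases h2' with h2 | h2
      · exact absurd (h1.trans h2.symm) huv'
      · exact ⟨i, x, y, x, y + 1, by omega, by omega, by omega, by omega, h1, h2, by
          unfold gd; simp only []; omega⟩
      · exact ⟨i, x, y + 1, x, y, by omega, by omega, by omega, by omega, h1, h2, by
          unfold gd; simp only []; omega⟩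
      · exact absurd (h1.trans h2.symm) huv'

/-- real vertices adjacent in `M` are adjacent in the glued complex -/
theorem glue_adj_real (hM : M.IsSphere) {u v : (glue M Mo).V} {x y : M.V} (hu : u.1 = Sum.inl x)
    (hv : v.1 = Sum.inl y) (h : M.graph.Adj x y) : (glue M Mo).graph.Adj u v := by
  obtain ⟨hxy, e, hx, hy⟩ := h
  obtain ⟨u, hu0⟩ := u
  obtain ⟨v, hv0⟩ := v
  have hu' : u = Sum.inl x := hu
  have hv' : v = Sum.inl y := hv
  subst hu' hv'
  refine ⟨fun h => hxy (Sum.inl.inj (Subtype.ext_iff.1 h)), ⟨Sum.inl e, ?_⟩, ⟨x, hx, rfl⟩,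
    ⟨y, hy, rfl⟩⟩
  intro z hz
  obtain ⟨a, b, hab, hall⟩ := hM.inc_two e
  have hzz : z = x ∨ z = y := by
    rcases (hall x).1 hx with rfl | rfl
    · rcases (hall y).1 hy with rfl | rfl
      · exact absurd rfl hxy
      · exact (hall z).1 hz
    · rcases (hall y).1 hy with rfl | rfl
      · exact ((hall z).1 hz).symm
      · exact absurd rfl hxy
  rcases hzz with rfl | rfl
  · exact hu0
  · exact hv0

/-- adjacent grid points are adjacent in the glued complex -/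
theorem glue_adj_grid (hM : M.IsSphere) {u v : (glue M Mo).V} {i : Mo.I} {x y x' y' : ℕ}
    (hx : x ≤ Mo.a i) (hy : y ≤ Mo.b i) (hx' : x' ≤ Mo.a i) (hy' : y' ≤ Mo.b i)
    (hu : u.1 = Mo.gp i x y) (hv : v.1 = Mo.gp i x' y') (h : gd (x, y) (x', y') = 1) :
    (glue M Mo).graph.Adj u v := by
  have hne : u ≠ v := by
    rintro rfl
    have h4 := gp_inj Mo i hx hy hx' hy' (hu.symm.trans hv)
    unfold gd at h
    simp only [] at h
    omega
  refine ⟨hne, ?_⟩
  have hcase : (x' = x + 1 ∧ y' = y) ∨ (x = x' + 1 ∧ y' = y) ∨ (x' = x ∧ y' = y + 1) ∨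
      (x' = x ∧ y = y' + 1) := by
    unfold gd at h
    simp only [] at h
    omega
  rcases hcase with ⟨rfl, rfl⟩ | ⟨rfl, rfl⟩ | ⟨rfl, rfl⟩ | ⟨rfl, rfl⟩
  · exact ⟨⟨Mo.he i x y', he_ok Mo hM i (by omega) hy⟩,
      (he_inc Mo hM i (by omega) hy _).2 (Or.inl hu),
      (he_inc Mo hM i (by omega) hy _).2 (Or.inr hv)⟩
  · exact ⟨⟨Mo.he i x' y', he_ok Mo hM i (by omega) hy⟩,
      (he_inc Mo hM i (by omega) hy _).2 (Or.inr hu),
      (he_inc Mo hM i (by omega) hy _).2 (Or.inl hv)⟩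
  · exact ⟨⟨Mo.ve i x' y, ve_ok Mo hM i (by omega) (by omega)⟩,
      (ve_inc Mo hM i (by omega) (by omega) _).2 (Or.inl hu),
      (ve_inc Mo hM i (by omega) (by omega) _).2 (Or.inr hv)⟩
  · exact ⟨⟨Mo.ve i x' y', ve_ok Mo hM i (by omega) (by omega)⟩,
      (ve_inc Mo hM i (by omega) (by omega) _).2 (Or.inr hu),
      (ve_inc Mo hM i (by omega) (by omega) _).2 (Or.inl hv)⟩

/-- in the grid one can walk from any point to any other point of the same mouth -/
theorem glue_near_grid (hM : M.IsSphere) {u v : (glue M Mo).V} {i : Mo.I} {x y x' y' : ℕ}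
    (hx : x ≤ Mo.a i) (hy : y ≤ Mo.b i) (hx' : x' ≤ Mo.a i) (hy' : y' ≤ Mo.b i)
    (hu : u.1 = Mo.gp i x y) (hv : v.1 = Mo.gp i x' y') :
    Near (glue M Mo).graph {w | ∃ p q, p ≤ Mo.a i ∧ q ≤ Mo.b i ∧ w.1 = Mo.gp i p q}
      (gd (x, y) (x', y')) u v := by
  induction hd : gd (x, y) (x', y') generalizing x y u with
  | zero =>
    have h1 : x = x' ∧ y = y' := by
      unfold gd at hd
      simp only [] at hd
      omega
    obtain ⟨rfl, rfl⟩ := h1
    have h2 : u = v := Subtype.ext (hu.trans hv.symm)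
    subst h2
    exact near_refl ⟨x, y, hx, hy, hu⟩
  | succ d ih =>
    have h1 : ∃ x1 y1, x1 ≤ Mo.a i ∧ y1 ≤ Mo.b i ∧ gd (x, y) (x1, y1) = 1 ∧
        gd (x1, y1) (x', y') = d := by
      unfold gd at hd ⊢
      simp only [] at hd ⊢
      rcases lt_trichotomy x x' with h | h | h
      · exact ⟨x + 1, y, by omega, by omega, by omega, by omega⟩
      · rcases lt_trichotomy y y' with h' | h' | h'
        · exact ⟨x, y + 1, by omega, by omega, by omega, by omega⟩
        · omega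
        · exact ⟨x, y - 1, by omega, by omega, by omega, by omega⟩
      · exact ⟨x - 1, y, by omega, by omega, by omega, by omega⟩
    obtain ⟨x1, y1, hx1, hy1, h2, h3⟩ := h1
    have h4 := ih (u := ⟨Mo.gp i x1 y1, gp_ok Mo hM i x1 y1⟩) hx1 hy1 rfl h3
    exact near_succ.2 (Or.inr ⟨⟨x, y, hx, hy, hu⟩, _,
      glue_adj_grid Mo hM hx hy hx1 hy1 hu rfl h2, h4⟩)

end Pool.Agent.H.MP_c8cc4c_co
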