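import Mathlib
import Pool.Agent.H.MP_c8cc4c_co.G.GlueA

/-! # MP_c8cc4c_co, part G, file 7: faces of the glued complex are cycles -/

open scoped Classical
open Finset

noncomputable section

namespace Pool.Agent.H.MP_c8cc4c_co

variable {M : PC} (Mo : Mouths M)

/-- the value of `dE` for a chain on the edges of one face -/
theorem GlueB_pair (N : PC) (f : N.F) (z : N.E → ZMod 2) (hz : ∀ e, z e ≠ 0 → N.bd f e) (v : N.V)
    (A B : N.E) (hAB : A ≠ B) (h : ∀ d, (N.bd f d ∧ N.inc d v) ↔ d = A ∨ d = B) :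
    N.dE z v = z A + z B := by
  have h1 : ∑ e ∈ ({A, B} : Finset N.E), z e = N.dE z v := by
    refine Finset.sum_subset ?_ ?_
    · intro e he
      rw [Finset.mem_insert, Finset.mem_singleton] at he
      rw [Finset.mem_filter]
      exact ⟨Finset.mem_univ _, ((h e).2 he).2⟩
    · intro e he he'
      rw [Finset.mem_filter] at he
      rw [Finset.mem_insert, Finset.mem_singleton] at he'
      by_contra hne
      exact he' ((h e).1 ⟨hz e hne, he.2⟩)
  rw [← h1, Finset.sum_pair hAB]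

/-- the edges of a cell at a corner -/
theorem GlueB_corner (hM : M.IsSphere) {i : Mo.I} {x y p q : ℕ} (hx : x < Mo.a i)
    (hy : y < Mo.b i) (f : (glue M Mo).F) (hf : f.1 = Sum.inr (i, x, y)) (v : (glue M Mo).V)
    (hp : p = x ∨ p = x + 1) (hq : q = y ∨ q = y + 1) (hv : v.1 = Mo.gp i p q)
    (A : (glue M Mo).E) (hA : A.1 = Mo.he i x q) (B : (glue M Mo).E) (hB : B.1 = Mo.ve i p y) :
    A ≠ B ∧ ∀ d, ((glue M Mo).bd f d ∧ (glue M Mo).inc d v) ↔ d = A ∨ d = B := by
  obtain ⟨n1, n2, n3, n4, n5, n6⟩ := cell_edges_ne Mo hM i hx hy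
  have key1 : ∀ (d : (glue M Mo).E) (r : ℕ), r ≤ Mo.b i → d.1 = Mo.he i x r →
      ((glue M Mo).inc d v ↔ v.1 = Mo.gp i x r ∨ v.1 = Mo.gp i (x + 1) r) := by
    intro d r hr hd
    change Mo.rinc d.1 v.1 ↔ _
    rw [hd]
    exact he_inc Mo hM i hx hr v.1
  have key2 : ∀ (d : (glue M Mo).E) (r : ℕ), r ≤ Mo.a i → d.1 = Mo.ve i r y →
      ((glue M Mo).inc d v ↔ v.1 = Mo.gp i r y ∨ v.1 = Mo.gp i r (y + 1)) := by
    intro d r hr hd
    change Mo.rinc d.1 v.1 ↔ _
    rw [hd]
    exact ve_inc Mo hM i hr hy v.1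
  have hbd : ∀ d, (glue M Mo).bd f d ↔ d.1 = Mo.he i x y ∨ d.1 = Mo.he i x (y + 1) ∨
      d.1 = Mo.ve i x y ∨ d.1 = Mo.ve i (x + 1) y := by
    intro d
    change Mo.rbd f.1 d.1 ↔ _
    rw [hf]
    rfl
  have inj : ∀ {c d e g : ℕ}, c ≤ Mo.a i → d ≤ Mo.b i → e ≤ Mo.a i → g ≤ Mo.b i →
      Mo.gp i c d = Mo.gp i e g → c = e ∧ d = g := fun h1 h2 h3 h4 h => gp_inj Mo i h1 h2 h3 h4 h
  have hpa : p ≤ Mo.a i := by omega
  have hqb : q ≤ Mo.b i := by omega
  refine ⟨?_, ?_⟩
  · intro hAB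
    have h1 : Mo.he i x q = Mo.ve i p y := by rw [← hA, ← hB, hAB]
    rcases hq with rfl | rfl <;> rcases hp with rfl | rfl
    · exact n2 h1
    · exact n3 h1
    · exact n4 h1
    · exact n5 h1
  · intro d
    constructor
    · rintro ⟨h1, h2⟩
      rw [hbd] at h1
      rcases h1 with h1 | h1 | h1 | h1
      · rw [key1 d y hy.le h1, hv] at h2
        left
        apply Subtype.ext
        rw [h1, hA]
        rcases h2 with h2 | h2
        · rw [(inj hpa hqb hx.le hy.le h2).2]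
        · rw [(inj hpa hqb hx hy.le h2).2]
      · rw [key1 d (y + 1) hy h1, hv] at h2
        left
        apply Subtype.ext
        rw [h1, hA]
        rcases h2 with h2 | h2
        · rw [(inj hpa hqb hx.le hy h2).2]
        · rw [(inj hpa hqb hx hy h2).2]
      · rw [key2 d x hx.le h1, hv] at h2
        right
        apply Subtype.ext
        rw [h1, hB]
        rcases h2 with h2 | h2
        · rw [(inj hpa hqb hx.le hy.le h2).1]
        · rw [(inj hpa hqb hx.le hy h2).1]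
      · rw [key2 d (x + 1) hx h1, hv] at h2
        right
        apply Subtype.ext
        rw [h1, hB]
        rcases h2 with h2 | h2
        · rw [(inj hpa hqb hx hy.le h2).1]
        · rw [(inj hpa hqb hx hy h2).1]
    · rintro (rfl | rfl)
      · refine ⟨(hbd _).2 ?_, (key1 _ q hqb hA).2 ?_⟩
        · rcases hq with rfl | rfl
          · exact Or.inl hA
          · exact Or.inr (Or.inl hA)
        · rcases hp with rfl | rfl
          · exact Or.inl hv
          · exact Or.inr hv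
      · refine ⟨(hbd _).2 ?_, (key2 _ p hpa hB).2 ?_⟩
        · rcases hp with rfl | rfl
          · exact Or.inr (Or.inr (Or.inl hB))
          · exact Or.inr (Or.inr (Or.inr hB))
        · rcases hq with rfl | rfl
          · exact Or.inl hv
          · exact Or.inr hv

/-- Every face has exactly two edges at each of its vertices. Faces which stay: all their edges are real (`ok_face`), use
`face_two` of `M`. Cells: a 4-cycle (`he_inc`, `ve_inc`, `gp_inj`, `cell_edges_ne`). -/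
theorem glue_face_two (hM : M.IsSphere) : ∀ (f : (glue M Mo).F) v, (glue M Mo).At f v →
    ∃ e e', e ≠ e' ∧ ∀ d, ((glue M Mo).bd f d ∧ (glue M Mo).inc d v) ↔ d = e ∨ d = e' := by
  intro f v hat
  obtain ⟨f0, hf⟩ := f
  rcases f0 with f' | ⟨i, x, y⟩
  · obtain ⟨x, hx, hxat⟩ := (glue_at_real Mo hM (f := ⟨Sum.inl f', hf⟩) rfl v).1 hat
    obtain ⟨e1, e2, hne, he⟩ := hM.face_two f' x hxat
    have hok := (ok_face Mo hM hf).2
    have h1 := ((he e1).2 (Or.inl rfl)).1
    have h2 := ((he e2).2 (Or.inr rfl)).1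
    refine ⟨⟨Sum.inl e1, hok e1 h1⟩, ⟨Sum.inl e2, hok e2 h2⟩, ?_, ?_⟩
    · intro h
      exact hne (Sum.inl.inj (congrArg Subtype.val h))
    · rintro ⟨d0, hd⟩
      change (Mo.rbd (Sum.inl f') d0 ∧ Mo.rinc d0 v.1) ↔ _
      rw [hx]
      rcases d0 with d' | d'
      · have h3 : (Mo.rbd (Sum.inl f') (Sum.inl d') ∧ Mo.rinc (Sum.inl d') (Sum.inl x)) ↔
            (M.bd f' d' ∧ M.inc d' x) := by
          constructor
          · rintro ⟨⟨e', h4, h5⟩, ⟨x', h6, h7⟩⟩
            rw [Sum.inl.inj h7]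
            refine ⟨?_, h6⟩
            rw [Sum.inl.inj h5]
            exact h4
          · rintro ⟨h4, h5⟩
            exact ⟨⟨d', h4, rfl⟩, ⟨x, h5, rfl⟩⟩
        rw [h3, he d']
        constructor
        · rintro (rfl | rfl)
          · exact Or.inl rfl
          · exact Or.inr rfl
        · rintro (h | h)
          · exact Or.inl (Sum.inl.inj (congrArg Subtype.val h))
          · exact Or.inr (Sum.inl.inj (congrArg Subtype.val h))
      · constructor
        · rintro ⟨⟨e', h4, h5⟩, -⟩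
          cases h5
        · rintro (h | h)
          · cases congrArg Subtype.val h
          · cases congrArg Subtype.val h
  · have hxy : x < Mo.a i ∧ y < Mo.b i := hf
    have hc := (glue_at_cell Mo hM (f := ⟨Sum.inr (i, x, y), hf⟩) rfl v).1 hat
    have main : ∀ p q, (p = x ∨ p = x + 1) → (q = y ∨ q = y + 1) → v.1 = Mo.gp i p q →
        ∃ e e', e ≠ e' ∧ ∀ d, ((glue M Mo).bd ⟨Sum.inr (i, x, y), hf⟩ d ∧
          (glue M Mo).inc d v) ↔ d = e ∨ d = e' := by
      intro p q hp hq hv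
      obtain ⟨h1, h2⟩ := GlueB_corner Mo hM hxy.1 hxy.2 ⟨Sum.inr (i, x, y), hf⟩ rfl v hp hq hv
        ⟨Mo.he i x q, he_ok Mo hM i hxy.1 (by omega)⟩ rfl
        ⟨Mo.ve i p y, ve_ok Mo hM i (by omega) hxy.2⟩ rfl
      exact ⟨_, _, h1, h2⟩
    rcases hc with h | h | h | h
    · exact main x y (Or.inl rfl) (Or.inl rfl) h
    · exact main (x + 1) y (Or.inr rfl) (Or.inl rfl) h
    · exact main x (y + 1) (Or.inl rfl) (Or.inr rfl) h
    · exact main (x + 1) (y + 1) (Or.inr rfl) (Or.inr rfl) h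

theorem glue_face_ne (hM : M.IsSphere) : ∀ f : (glue M Mo).F, ∃ e, (glue M Mo).bd f e := by
  rintro ⟨f' | ⟨i, x, y⟩, hf⟩
  · obtain ⟨e, he⟩ := hM.face_ne f'
    exact ⟨⟨Sum.inl e, (ok_face Mo hM hf).2 e he⟩, e, he, rfl⟩
  · have hxy : x < Mo.a i ∧ y < Mo.b i := hf
    exact ⟨⟨Mo.he i x y, he_ok Mo hM i hxy.1 hxy.2.le⟩, Or.inl rfl⟩

/-- Faces which stay: transport `z` to a chain of `M` (all edges of the face are real, `ok_face`). Cells: consecutive
edges of the 4-cycle have the same coefficient. -/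
theorem glue_face_cyc (hM : M.IsSphere) : ∀ (f : (glue M Mo).F) (z : (glue M Mo).E → ZMod 2),
    (glue M Mo).Ev z → (∀ e, z e ≠ 0 → (glue M Mo).bd f e) →
    z = 0 ∨ ∀ e, (glue M Mo).bd f e → z e ≠ 0 := by
  rintro ⟨f' | ⟨i, x, y⟩, hf⟩ z hz hs
  · have hok := (ok_face Mo hM hf).2
    have hreal : ∀ e, (glue M Mo).bd ⟨Sum.inl f', hf⟩ e → ∃ e', e.1 = Sum.inl e' ∧ M.bd f' e' := by
      rintro e ⟨e', h1, h2⟩
      exact ⟨e', h2, h1⟩
    obtain ⟨z', hz'⟩ : ∃ z' : M.E → ZMod 2, ∀ e, z' e =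
        if h : Mo.okE (Sum.inl e) then z ⟨Sum.inl e, h⟩ else 0 := ⟨_, fun _ => rfl⟩
    have hz1 : ∀ (e : M.E) (h : Mo.okE (Sum.inl e)), z' e = z ⟨Sum.inl e, h⟩ := by
      intro e h
      rw [hz', dif_pos h]
    have hsup : ∀ e, z' e ≠ 0 → M.bd f' e := by
      intro e he
      by_cases h : Mo.okE (Sum.inl e)
      · rw [hz1 e h] at he
        obtain ⟨e', h1, h2⟩ := hreal _ (hs _ he)
        have h3 : e = e' := Sum.inl.inj h1
        rw [h3]
        exact h2
      · rw [hz', dif_neg h] at he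
        exact absurd rfl he
    have hev : M.Ev z' := by
      intro v
      by_cases hv : ∃ e, M.bd f' e ∧ M.inc e v
      · obtain ⟨e1, e2, hne, he⟩ := hM.face_two f' v hv
        have hvr : v ∈ Mo.Real := (ok_face Mo hM hf).1 v hv
        have b1 := ((he e1).2 (Or.inl rfl)).1
        have b2 := ((he e2).2 (Or.inr rfl)).1
        rw [GlueB_pair M f' z' hsup v e1 e2 hne he, hz1 e1 (hok e1 b1), hz1 e2 (hok e2 b2)]
        have h4 := hz ⟨Sum.inl v, hvr⟩
        have hne' : (⟨Sum.inl e1, hok e1 b1⟩ : (glue M Mo).E) ≠ ⟨Sum.inl e2, hok e2 b2⟩ :=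
          fun h => hne (Sum.inl.inj (congrArg Subtype.val h))
        rw [GlueB_pair (glue M Mo) ⟨Sum.inl f', hf⟩ z hs ⟨Sum.inl v, hvr⟩ _ _ hne'] at h4
        · exact h4
        · intro d
          constructor
          · rintro ⟨h5, h6⟩
            obtain ⟨d', h7, h8⟩ := hreal d h5
            have h9 : M.inc d' v := by
              have h10 : Mo.rinc d.1 (Sum.inl v) := h6
              rw [h7] at h10
              obtain ⟨x', h11, h12⟩ := h10
              rw [Sum.inl.inj h12]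
              exact h11
            rcases (he d').1 ⟨h8, h9⟩ with rfl | rfl
            · exact Or.inl (Subtype.ext h7)
            · exact Or.inr (Subtype.ext h7)
          · rintro (rfl | rfl)
            · exact ⟨⟨e1, b1, rfl⟩, ⟨v, ((he e1).2 (Or.inl rfl)).2, rfl⟩⟩
            · exact ⟨⟨e2, b2, rfl⟩, ⟨v, ((he e2).2 (Or.inr rfl)).2, rfl⟩⟩
      · refine Finset.sum_eq_zero fun e he => ?_
        by_contra h
        exact hv ⟨e, hsup e h, (Finset.mem_filter.1 he).2⟩
    rcases hM.face_cyc f' z' hev hsup with h | h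
    · left
      funext e
      by_contra hne
      obtain ⟨e', h1, h2⟩ := hreal e (hs e hne)
      obtain ⟨e0, he0⟩ := e
      have h1' : e0 = Sum.inl e' := h1
      subst h1'
      apply hne
      have h3 := congrFun h e'
      rw [hz1 e' he0] at h3
      exact h3
    · right
      intro e he
      obtain ⟨e', h1, h2⟩ := hreal e he
      obtain ⟨e0, he0⟩ := e
      have h1' : e0 = Sum.inl e' := h1
      subst h1'
      have h3 := h e' h2
      rw [hz1 e' he0] at h3
      exact h3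
  · have hxy : x < Mo.a i ∧ y < Mo.b i := hf
    have hx := hxy.1
    have hy := hxy.2
    have main : ∀ (p q : ℕ) (hp : p = x ∨ p = x + 1) (hq : q = y ∨ q = y + 1)
        (A : (glue M Mo).E) (_ : A.1 = Mo.he i x q) (B : (glue M Mo).E) (_ : B.1 = Mo.ve i p y),
        z A = z B := by
      intro p q hp hq A hA B hB
      obtain ⟨h1, h2⟩ := GlueB_corner Mo hM hx hy ⟨Sum.inr (i, x, y), hf⟩ rfl
        ⟨Mo.gp i p q, gp_ok Mo hM i p q⟩ hp hq rfl A hA B hB
      have h3 := hz ⟨Mo.gp i p q, gp_ok Mo hM i p q⟩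
      rw [GlueB_pair (glue M Mo) ⟨Sum.inr (i, x, y), hf⟩ z hs _ A B h1 h2] at h3
      rcases zmod2_cases (z A) with h4 | h4 <;> rcases zmod2_cases (z B) with h5 | h5
      · rw [h4, h5]
      · rw [h4, h5] at h3
        exact absurd h3 (by decide)
      · rw [h4, h5] at h3
        exact absurd h3 (by decide)
      · rw [h4, h5]
    obtain ⟨H0, hH0⟩ : ∃ H0 : (glue M Mo).E, H0.1 = Mo.he i x y :=
      ⟨⟨_, he_ok Mo hM i hx hy.le⟩, rfl⟩
    obtain ⟨V0, hV0⟩ : ∃ V0 : (glue M Mo).E, V0.1 = Mo.ve i x y :=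
      ⟨⟨_, ve_ok Mo hM i hx.le hy⟩, rfl⟩
    have hall : ∀ e, (glue M Mo).bd ⟨Sum.inr (i, x, y), hf⟩ e → z e = z H0 := by
      intro e he
      have he' : e.1 = Mo.he i x y ∨ e.1 = Mo.he i x (y + 1) ∨ e.1 = Mo.ve i x y ∨
        e.1 = Mo.ve i (x + 1) y := he
      rcases he' with h | h | h | h
      · rw [show e = H0 from Subtype.ext (h.trans hH0.symm)]
      · rw [main x (y + 1) (Or.inl rfl) (Or.inr rfl) e h V0 hV0,
          main x y (Or.inl rfl) (Or.inl rfl) H0 hH0 V0 hV0]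
      · rw [main x y (Or.inl rfl) (Or.inl rfl) H0 hH0 e h]
      · rw [main (x + 1) y (Or.inr rfl) (Or.inl rfl) H0 hH0 e h]
    rcases zmod2_cases (z H0) with h | h
    · left
      funext e
      by_contra hne
      apply hne
      rw [hall e (hs e hne), h]
      rfl
    · right
      intro e he
      rw [hall e he, h]
      decide

theorem GlueB_card4 {α : Type} [Fintype α] (P : α → Prop) {a b c d : α}
    (h : ∀ e, P e ↔ e = a ∨ e = b ∨ e = c ∨ e = d) (hab : a ≠ b) (hac : a ≠ c) (had : a ≠ d)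
    (hbc : b ≠ c) (hbd : b ≠ d) (hcd : c ≠ d) : (univ.filter fun e => P e).card = 4 := by
  have e1 : (univ.filter fun e => P e) = {a, b, c, d} := by
    ext e
    simp only [mem_filter, mem_univ, true_and, mem_insert, mem_singleton]
    exact h e
  rw [e1, card_insert_of_notMem, card_insert_of_notMem, card_insert_of_notMem, card_singleton]
  · simpa using hcd
  · simp only [mem_insert, mem_singleton, not_or]
    exact ⟨hbc, hbd⟩
  · simp only [mem_insert, mem_singleton, not_or]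
    exact ⟨hab, hac, had⟩

/-- number of edges of a face -/
theorem glue_quad : GlueQuadStmt := by
  intro M hM Mo hlen f
  obtain ⟨f, hf⟩ := f
  rcases f with f' | ⟨i, x, y⟩
  · have hf' : ∀ i, Mo.c i f' = 0 := hf
    have h4 := hlen f' hf'
    rw [← h4]
    unfold PC.len
    symm
    have ok : ∀ e ∈ univ.filter (fun e => M.bd f' e), Mo.okE (Sum.inl e) := by
      intro e he
      rw [mem_filter] at he
      exact (ok_face Mo hM hf').2 e he.2
    refine Finset.card_bij (fun e he => (⟨Sum.inl e, ok e he⟩ : (glue M Mo).E)) ?_ ?_ ?_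
    · intro e he
      rw [mem_filter] at he ⊢
      exact ⟨mem_univ _, e, he.2, rfl⟩
    · intro e _ e' _ h
      have h1 : (Sum.inl e : M.E ⊕ (Mo.I × Bool × ℕ × ℕ)) = Sum.inl e' := congrArg Subtype.val h
      exact Sum.inl.inj h1
    · intro e he
      rw [mem_filter] at he
      obtain ⟨e', h1, h2⟩ := he.2
      exact ⟨e', mem_filter.2 ⟨mem_univ _, h1⟩, Subtype.ext h2.symm⟩
  · have hxy : x < Mo.a i ∧ y < Mo.b i := hf
    have hx := hxy.1
    have hy := hxy.2
    obtain ⟨n1, n2, n3, n4, n5, n6⟩ := cell_edges_ne Mo hM i hx hy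
    have ne : ∀ {e e' : M.E ⊕ (Mo.I × Bool × ℕ × ℕ)} (h : Mo.okE e) (h' : Mo.okE e'), e ≠ e' →
        (⟨e, h⟩ : (glue M Mo).E) ≠ ⟨e', h'⟩ := fun h h' hne heq =>
      hne (congrArg Subtype.val heq)
    unfold PC.len
    refine GlueB_card4 (fun e => (glue M Mo).bd ⟨Sum.inr (i, x, y), hf⟩ e)
      (a := ⟨Mo.he i x y, he_ok Mo hM i hx hy.le⟩)
      (b := ⟨Mo.he i x (y + 1), he_ok Mo hM i hx hy⟩)
      (c := ⟨Mo.ve i x y, ve_ok Mo hM i hx.le hy⟩)
      (d := ⟨Mo.ve i (x + 1) y, ve_ok Mo hM i hx hy⟩) ?_ (ne _ _ n1) (ne _ _ n2) (ne _ _ n3)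
      (ne _ _ n4) (ne _ _ n5) (ne _ _ n6)
    intro e
    have ex : ∀ {e' : M.E ⊕ (Mo.I × Bool × ℕ × ℕ)} (h' : Mo.okE e'),
        e = (⟨e', h'⟩ : (glue M Mo).E) ↔ e.1 = e' := fun h' => Subtype.ext_iff
    rw [ex, ex, ex, ex]
    exact Iff.rfl

theorem GlueB_near (hM : M.IsSphere) (i : Mo.I) {s t : ℕ} (hs : s < Mo.n i) (ht : t < Mo.n i)
    {u v : (glue M Mo).V} (hu : u.1 = Sum.inl (Mo.gv i s)) (hv : v.1 = Sum.inl (Mo.gv i t)) :
    ∃ n, Near (glue M Mo).graph Set.univ n u v := by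
  have h1 := bpt_le (Mo.ha i) (Raw_hb Mo i) hs
  have h2 := bpt_le (Mo.ha i) (Raw_hb Mo i) ht
  exact ⟨_, near_mono (glue_near_grid Mo hM h1.1 h1.2.1 h2.1 h2.2.1
    (by rw [hu]; exact (gp_bd Mo i hs).symm) (by rw [hv]; exact (gp_bd Mo i ht).symm)) le_rfl
    (Set.subset_univ _)⟩

/-- the real vertex which replaces `z` -/
theorem GlueB_phi (hM : M.IsSphere) : ∃ Φ : M.V → (glue M Mo).V,
    (∀ z, z ∈ Mo.Real → (Φ z).1 = Sum.inl z) ∧
    (∀ i z, z ∈ M.intr (Mo.c i) → (Φ z).1 = Sum.inl (Mo.gv i 0)) := by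
  have h : ∀ z : M.V, ∃ w : (glue M Mo).V, (z ∈ Mo.Real → w.1 = Sum.inl z) ∧
      (∀ i, z ∈ M.intr (Mo.c i) → w.1 = Sum.inl (Mo.gv i 0)) := by
    intro z
    by_cases hz : z ∈ Mo.Real
    · exact ⟨⟨Sum.inl z, hz⟩, fun _ => rfl, fun i hi => absurd hi (hz i)⟩
    · have h1 : ∃ i, z ∈ M.intr (Mo.c i) := by
        by_contra hcon
        push Not at hcon
        exact hz hcon
      obtain ⟨i, hi⟩ := h1
      refine ⟨⟨Sum.inl (Mo.gv i 0), gv_real Mo hM i 0⟩, fun h => absurd h hz, fun j hj => ?_⟩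
      rw [intr_disj Mo hM hj hi]
  choose Φ h1 h2 using h
  exact ⟨Φ, h1, fun i z hz => h2 z i hz⟩

/-- Connectedness. Every grid point is joined to a real vertex (`glue_near_grid`). For real `x`, `y` take a walk in `M`
and replace it: for a vertex `z` of the walk let `Φ z` = `z` if `z` is real and `gv i 0` if `z` is in the interior of the disc
`i` (`intr_disj`); adjacent `z`, `z'` have `Φ z`, `Φ z'` joined in the glued complex (`adj_intr`; the vertices
`gv i t` are joined along the mouth by `glue_adj_real`). -/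
theorem glue_conn (hM : M.IsSphere) : ∀ x y : (glue M Mo).V,
    ∃ n, Near (glue M Mo).graph Set.univ n x y := by
  obtain ⟨Φ, hr, hi⟩ := GlueB_phi Mo hM
  have refl' : ∀ x : (glue M Mo).V, ∃ n, Near (glue M Mo).graph Set.univ n x x := fun x =>
    ⟨0, near_refl (Set.mem_univ x)⟩
  have trans' : ∀ {x y z : (glue M Mo).V}, (∃ n, Near (glue M Mo).graph Set.univ n x y) →
      (∃ n, Near (glue M Mo).graph Set.univ n y z) →
      ∃ n, Near (glue M Mo).graph Set.univ n x z := by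
    rintro x y z ⟨m, hm⟩ ⟨n, hn⟩
    exact ⟨m + n, near_trans hm hn⟩
  have symm' : ∀ {x y : (glue M Mo).V}, (∃ n, Near (glue M Mo).graph Set.univ n x y) →
      ∃ n, Near (glue M Mo).graph Set.univ n y x := by
    rintro x y ⟨m, hm⟩
    exact ⟨m, near_symm hm⟩
  have npos : ∀ i, 0 < Mo.n i := fun i => by
    have := n_ge Mo i
    omega
  have mix : ∀ z z', M.graph.Adj z z' → z ∈ Mo.Real → z' ∉ Mo.Real →
      ∃ n, Near (glue M Mo).graph Set.univ n (Φ z) (Φ z') := by
    intro z z' hadj hz hz'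
    have h1 : ∃ i, z' ∈ M.intr (Mo.c i) := by
      by_contra hcon
      push Not at hcon
      exact hz' hcon
    obtain ⟨i, hzi⟩ := h1
    rcases adj_intr Mo hM i hzi hadj.symm with h | ⟨t, ht, h⟩
    · exact absurd h (hz i)
    · refine GlueB_near Mo hM i ht (npos i) ?_ (hi i z' hzi)
      rw [h]
      exact hr z hz
  have step : ∀ z z', M.graph.Adj z z' →
      ∃ n, Near (glue M Mo).graph Set.univ n (Φ z) (Φ z') := by
    intro z z' hadj
    by_cases hz : z ∈ Mo.Real
    · by_cases hz' : z' ∈ Mo.Real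
      · exact ⟨1, near_adj (Set.mem_univ _) (Set.mem_univ _)
          (glue_adj_real Mo hM (hr z hz) (hr z' hz') hadj)⟩
      · exact mix z z' hadj hz hz'
    · by_cases hz' : z' ∈ Mo.Real
      · exact symm' (mix z' z hadj.symm hz' hz)
      · have h1 : ∃ i, z ∈ M.intr (Mo.c i) := by
          by_contra hcon
          push Not at hcon
          exact hz hcon
        obtain ⟨i, hzi⟩ := h1
        rcases adj_intr Mo hM i hzi hadj with h | ⟨t, ht, h⟩
        · have e1 : Φ z = Φ z' := Subtype.ext ((hi i z hzi).trans (hi i z' h).symm)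
          rw [e1]
          exact refl' _
        · rw [← h] at hz'
          exact absurd (gv_real Mo hM i t) hz'
  have all : ∀ z z', ∃ n, Near (glue M Mo).graph Set.univ n (Φ z) (Φ z') := by
    intro z z'
    obtain ⟨n, hn⟩ := hM.conn z z'
    exact near_induct (P := fun w => ∃ n, Near (glue M Mo).graph Set.univ n (Φ z) (Φ w))
      (fun u v _ _ huv hu => trans' hu (step u v huv)) hn (refl' _)
  have base : ∀ w : (glue M Mo).V, ∃ z, ∃ n, Near (glue M Mo).graph Set.univ n w (Φ z) := by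
    rintro ⟨z | ⟨i, x, y⟩, hw⟩
    · refine ⟨z, 0, ?_⟩
      have e1 : Φ z = ⟨Sum.inl z, hw⟩ := Subtype.ext (hr z hw)
      rw [e1]
      exact near_refl (Set.mem_univ _)
    · have hw' : 0 < x ∧ x < Mo.a i ∧ 0 < y ∧ y < Mo.b i := hw
      refine ⟨Mo.gv i 0, ?_⟩
      have h2 := bpt_le (Mo.ha i) (Raw_hb Mo i) (npos i)
      exact ⟨_, near_mono (glue_near_grid Mo hM (i := i) (x := x) (y := y) hw'.2.1.le
        hw'.2.2.2.le h2.1 h2.2.1 (gp_int Mo i hw').symm
        (by rw [hr _ (gv_real Mo hM i 0)]; exact (gp_bd Mo i (npos i)).symm)) le_rfl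
        (Set.subset_univ _)⟩
  intro x y
  obtain ⟨z, hz⟩ := base x
  obtain ⟨z', hz'⟩ := base y
  exact trans' (trans' hz (all z z')) (symm' hz')

theorem glue_nonempty (hM : M.IsSphere) : Nonempty (glue M Mo).V := by
  obtain ⟨Φ, -, -⟩ := GlueB_phi Mo hM
  obtain ⟨z⟩ := hM.nonempty
  exact ⟨Φ z⟩

end Pool.Agent.H.MP_c8cc4c_co
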