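import Mathlib
import Pool.Agent.H.MP_c8cc4c_co.G.GlueA

/-! # MP_c8cc4c_co, part G, file 8: chains of the glued complex, star property -/

open scoped Classical
open Finset

noncomputable section

namespace Pool.Agent.H.MP_c8cc4c_co

variable {M : PC} (Mo : Mouths M)

/-- extension of a face chain by zero to raw faces -/
def xF (c : (glue M Mo).F → ZMod 2) (f : M.F ⊕ (Mo.I × ℕ × ℕ)) : ZMod 2 :=
  if h : Mo.okF f then c ⟨f, h⟩ else 0

/-- extension of an edge chain by zero to raw edges -/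
def xE (z : (glue M Mo).E → ZMod 2) (e : M.E ⊕ (Mo.I × Bool × ℕ × ℕ)) : ZMod 2 :=
  if h : Mo.okE e then z ⟨e, h⟩ else 0

/-- boundary of a face chain at an edge with the faces `f`, `g` -/
theorem GlueD_two (N : PC) (c : N.F → ZMod 2) (e : N.E) {f g : N.F} (hfg : f ≠ g)
    (h : ∀ k, N.bd k e ↔ k = f ∨ k = g) : N.dF c e = c f + c g := by
  have h1 : univ.filter (fun f => N.bd f e) = {f, g} := by
    ext k
    rw [Finset.mem_filter, Finset.mem_insert, Finset.mem_singleton, h k]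
    exact ⟨fun h2 => h2.2, fun h2 => ⟨Finset.mem_univ _, h2⟩⟩
  unfold PC.dF
  rw [h1, Finset.sum_pair hfg]

theorem GlueD_four (N : PC) (z : N.E → ZMod 2) (v : N.V) {a b c d : N.E} (hab : a ≠ b)
    (hac : a ≠ c) (had : a ≠ d) (hbc : b ≠ c) (hbd : b ≠ d) (hcd : c ≠ d)
    (h : ∀ e, N.inc e v ↔ e = a ∨ e = b ∨ e = c ∨ e = d) :
    N.dE z v = z a + z b + z c + z d := by
  have h1 : univ.filter (fun e => N.inc e v) = {a, b, c, d} := by
    ext k
    rw [Finset.mem_filter, Finset.mem_insert, Finset.mem_insert, Finset.mem_insert,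
      Finset.mem_singleton, h k]
    exact ⟨fun h2 => h2.2, fun h2 => ⟨Finset.mem_univ _, h2⟩⟩
  unfold PC.dE
  rw [h1, Finset.sum_insert, Finset.sum_insert, Finset.sum_pair hcd]
  · ring
  · rw [Finset.mem_insert, Finset.mem_singleton]
    rintro (h2 | h2)
    · exact hbc h2
    · exact hbd h2
  · rw [Finset.mem_insert, Finset.mem_insert, Finset.mem_singleton]
    rintro (h2 | h2 | h2)
    · exact hab h2
    · exact hac h2
    · exact had h2

theorem GlueD_xF_pos (c : (glue M Mo).F → ZMod 2) (f : M.F ⊕ (Mo.I × ℕ × ℕ)) (h : Mo.okF f) :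
    xF Mo c f = c ⟨f, h⟩ := dif_pos h

theorem GlueD_xE_pos (z : (glue M Mo).E → ZMod 2) (e : M.E ⊕ (Mo.I × Bool × ℕ × ℕ))
    (h : Mo.okE e) : xE Mo z e = z ⟨e, h⟩ := dif_pos h

/-- boundary of a face chain at an interior horizontal edge -/
theorem glue_dF_h (hM : M.IsSphere) (c : (glue M Mo).F → ZMod 2) (i : Mo.I) {x y : ℕ}
    (h : Mo.okE (Sum.inr (i, false, x, y))) : (glue M Mo).dF c ⟨Sum.inr (i, false, x, y), h⟩ =
      xF Mo c (Sum.inr (i, x, y - 1)) + xF Mo c (Sum.inr (i, x, y)) := by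
  obtain ⟨h1, h2, h3⟩ : x < Mo.a i ∧ 0 < y ∧ y < Mo.b i := h
  have k1 : Mo.okF (Sum.inr (i, x, y - 1)) := ⟨h1, by omega⟩
  have k2 : Mo.okF (Sum.inr (i, x, y)) := ⟨h1, h3⟩
  rw [GlueD_xF_pos Mo c _ k1, GlueD_xF_pos Mo c _ k2]
  refine GlueD_two (glue M Mo) c _ ?_ ?_
  · intro h'
    have h4 := Sum.inr.inj (Subtype.ext_iff.1 h')
    rw [Prod.mk.injEq, Prod.mk.injEq] at h4
    omega
  · rintro ⟨f | ⟨j, x', y'⟩, hf⟩
    · constructor
      · rintro ⟨e', -, h'⟩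
        exact absurd h' (by simp)
      · rintro (h' | h')
        · exact absurd (Subtype.ext_iff.1 h') (by simp)
        · exact absurd (Subtype.ext_iff.1 h') (by simp)
    · obtain ⟨hx', hy'⟩ : x' < Mo.a j ∧ y' < Mo.b j := hf
      refine (rbd_h Mo i j ⟨h1, h2, h3⟩ hx' hy').trans
        (Iff.trans ?_ (or_congr Subtype.ext_iff Subtype.ext_iff).symm)
      show _ ↔ ((Sum.inr (j, x', y') : M.F ⊕ (Mo.I × ℕ × ℕ)) = Sum.inr (i, x, y - 1) ∨
        (Sum.inr (j, x', y') : M.F ⊕ (Mo.I × ℕ × ℕ)) = Sum.inr (i, x, y))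
      rw [Sum.inr.injEq, Sum.inr.injEq, Prod.mk.injEq,
        Prod.mk.injEq, Prod.mk.injEq, Prod.mk.injEq]
      constructor
      · rintro ⟨h4, h5, h6 | h6⟩
        · exact Or.inr ⟨h4, h5, h6⟩
        · exact Or.inl ⟨h4, h5, by omega⟩
      · rintro (⟨h4, h5, h6⟩ | ⟨h4, h5, h6⟩)
        · exact ⟨h4, h5, Or.inr (by omega)⟩
        · exact ⟨h4, h5, Or.inl h6⟩

/-- boundary of a face chain at an interior vertical edge -/
theorem glue_dF_v (hM : M.IsSphere) (c : (glue M Mo).F → ZMod 2) (i : Mo.I) {x y : ℕ}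
    (h : Mo.okE (Sum.inr (i, true, x, y))) : (glue M Mo).dF c ⟨Sum.inr (i, true, x, y), h⟩ =
      xF Mo c (Sum.inr (i, x - 1, y)) + xF Mo c (Sum.inr (i, x, y)) := by
  obtain ⟨h1, h2, h3⟩ : 0 < x ∧ x < Mo.a i ∧ y < Mo.b i := h
  have k1 : Mo.okF (Sum.inr (i, x - 1, y)) := ⟨by omega, h3⟩
  have k2 : Mo.okF (Sum.inr (i, x, y)) := ⟨h2, h3⟩
  rw [GlueD_xF_pos Mo c _ k1, GlueD_xF_pos Mo c _ k2]
  refine GlueD_two (glue M Mo) c _ ?_ ?_
  · intro h'
    have h4 := Sum.inr.inj (Subtype.ext_iff.1 h')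
    rw [Prod.mk.injEq, Prod.mk.injEq] at h4
    omega
  · rintro ⟨f | ⟨j, x', y'⟩, hf⟩
    · constructor
      · rintro ⟨e', -, h'⟩
        exact absurd h' (by simp)
      · rintro (h' | h')
        · exact absurd (Subtype.ext_iff.1 h') (by simp)
        · exact absurd (Subtype.ext_iff.1 h') (by simp)
    · obtain ⟨hx', hy'⟩ : x' < Mo.a j ∧ y' < Mo.b j := hf
      refine (rbd_v Mo i j ⟨h1, h2, h3⟩ hx' hy').trans
        (Iff.trans ?_ (or_congr Subtype.ext_iff Subtype.ext_iff).symm)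
      show _ ↔ ((Sum.inr (j, x', y') : M.F ⊕ (Mo.I × ℕ × ℕ)) = Sum.inr (i, x - 1, y) ∨
        (Sum.inr (j, x', y') : M.F ⊕ (Mo.I × ℕ × ℕ)) = Sum.inr (i, x, y))
      rw [Sum.inr.injEq, Sum.inr.injEq, Prod.mk.injEq,
        Prod.mk.injEq, Prod.mk.injEq, Prod.mk.injEq]
      constructor
      · rintro ⟨h4, h5, h6 | h6⟩
        · exact Or.inr ⟨h4, h6, h5⟩
        · exact Or.inl ⟨h4, by omega, h5⟩
      · rintro (⟨h4, h5, h6⟩ | ⟨h4, h5, h6⟩)
        · exact ⟨h4, h6, Or.inr (by omega)⟩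
        · exact ⟨h4, h6, Or.inl h5⟩

/-- the value of the chain `c` seen from the real edge `e` on the side of the face `f` of `M` -/
def side (c : (glue M Mo).F → ZMod 2) (e : M.E) (f : M.F) : ZMod 2 :=
  if h : ∃ i, ∃ t < Mo.n i, Mo.c i f ≠ 0 ∧ Mo.ge i t = e then
    xF Mo c (Sum.inr (h.choose, bcell (Mo.a h.choose) (Mo.b h.choose) h.choose_spec.choose))
  else xF Mo c (Sum.inl f)

/-- `side` for a face in the disc `i` -/
theorem side_in (hM : M.IsSphere) (c : (glue M Mo).F → ZMod 2) {i : Mo.I} {t : ℕ}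
    (ht : t < Mo.n i) {f : M.F} (hf : Mo.c i f ≠ 0) :
    side Mo c (Mo.ge i t) f = xF Mo c (Sum.inr (i, bcell (Mo.a i) (Mo.b i) t)) := by
  have h : ∃ j, ∃ s < Mo.n j, Mo.c j f ≠ 0 ∧ Mo.ge j s = Mo.ge i t := ⟨i, t, ht, hf, rfl⟩
  have key : ∀ j, ∀ s, s < Mo.n j → Mo.c j f ≠ 0 → Mo.ge j s = Mo.ge i t →
      xF Mo c (Sum.inr (j, bcell (Mo.a j) (Mo.b j) s)) =
        xF Mo c (Sum.inr (i, bcell (Mo.a i) (Mo.b i) t)) := by
    intro j s hs hj hse
    obtain rfl := Mo.disj j i f hj hf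
    obtain rfl := ge_inj Mo hM j hs ht hse
    rfl
  unfold side
  rw [dif_pos h]
  exact key _ _ h.choose_spec.choose_spec.1 h.choose_spec.choose_spec.2.1
    h.choose_spec.choose_spec.2.2

/-- `side` for a face in no disc -/
theorem side_out (c : (glue M Mo).F → ZMod 2) (e : M.E) {f : M.F} (hf : ∀ i, Mo.c i f = 0) :
    side Mo c e f = xF Mo c (Sum.inl f) := by
  unfold side
  rw [dif_neg]
  rintro ⟨i, t, -, h, -⟩
  exact h (hf i)

/-- the value at the face replacing `f` -/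
theorem GlueD_R (hM : M.IsSphere) (c : (glue M Mo).F → ZMod 2) {e : M.E} {f : M.F}
    {h : (glue M Mo).F} (h1 : GlueA_R Mo e f h) : c h = side Mo c e f := by
  obtain ⟨h, hok⟩ := h
  rcases h1 with ⟨h1, h0⟩ | ⟨i, x, y, h1, hi, s, hs, hse, hxy⟩
  · have h2 : h = Sum.inl f := h1
    subst h2
    rw [side_out Mo c e h0]
    exact (GlueD_xF_pos Mo c _ hok).symm
  · have h2 : h = Sum.inr (i, x, y) := h1
    subst h2
    rw [← hse, side_in Mo hM c hs hi, ← hxy]
    exact (GlueD_xF_pos Mo c _ hok).symm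

/-- boundary of a face chain at a real edge with the faces `f`, `g` in `M` (proof of `glue_bd_two`) -/
theorem glue_dF_real (hM : M.IsSphere) (c : (glue M Mo).F → ZMod 2) {e : M.E}
    (h : Mo.okE (Sum.inl e)) {f g : M.F} (hfg : f ≠ g) (hf : M.bd f e) (hg : M.bd g e) :
    (glue M Mo).dF c ⟨Sum.inl e, h⟩ = side Mo c e f + side Mo c e g := by
  obtain ⟨f₀, g₀, hfg₀, hall₀⟩ := hM.bd_two e
  have hall : ∀ k, M.bd k e ↔ k = f ∨ k = g := by
    intro k
    constructor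
    · intro hk
      rcases (hall₀ f).1 hf with rfl | rfl <;> rcases (hall₀ g).1 hg with rfl | rfl
      · exact absurd rfl hfg
      · exact (hall₀ k).1 hk
      · exact ((hall₀ k).1 hk).symm
      · exact absurd rfl hfg
    · rintro (rfl | rfl)
      · exact hf
      · exact hg
  obtain ⟨f', hf'⟩ := GlueA_R_ex Mo hM h hf
  obtain ⟨g', hg'⟩ := GlueA_R_ex Mo hM h hg
  rw [← GlueD_R Mo hM c hf', ← GlueD_R Mo hM c hg']
  refine GlueD_two (glue M Mo) c _ ?_ ?_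
  · rintro rfl
    exact hfg (GlueA_R_inj Mo hM h hf hg hf' hg')
  · intro k
    constructor
    · intro h1
      obtain ⟨l, hl, hR⟩ := (GlueA_R_bd Mo hM h k).1 h1
      rcases (hall l).1 hl with rfl | rfl
      · exact Or.inl (GlueA_R_uniq Mo hM hR hf')
      · exact Or.inr (GlueA_R_uniq Mo hM hR hg')
    · rintro (rfl | rfl)
      · exact (GlueA_R_bd Mo hM h _).2 ⟨f, hf, hf'⟩
      · exact (GlueA_R_bd Mo hM h _).2 ⟨g, hg, hg'⟩

theorem GlueD_gp_int {i j : Mo.I} {x y p q : ℕ} (h : 0 < x ∧ x < Mo.a i ∧ 0 < y ∧ y < Mo.b i) :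
    (Sum.inr (i, x, y) : M.V ⊕ (Mo.I × ℕ × ℕ)) = Mo.gp j p q ↔ j = i ∧ p = x ∧ q = y := by
  constructor
  · intro h1
    unfold Mouths.gp at h1
    split_ifs at h1 with h2
    rw [Sum.inr.injEq, Prod.mk.injEq, Prod.mk.injEq] at h1
    exact ⟨h1.1.symm, h1.2.1.symm, h1.2.2.symm⟩
  · rintro ⟨rfl, rfl, rfl⟩
    exact (gp_int Mo j h).symm

/-- boundary of an edge chain at an interior grid vertex -/
theorem glue_dE_int (hM : M.IsSphere) (z : (glue M Mo).E → ZMod 2) (i : Mo.I) {x y : ℕ}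
    (h : Mo.okV (Sum.inr (i, x, y))) : (glue M Mo).dE z ⟨Sum.inr (i, x, y), h⟩ =
      xE Mo z (Sum.inr (i, false, x - 1, y)) + xE Mo z (Sum.inr (i, false, x, y)) +
      xE Mo z (Sum.inr (i, true, x, y - 1)) + xE Mo z (Sum.inr (i, true, x, y)) := by
  have hh : 0 < x ∧ x < Mo.a i ∧ 0 < y ∧ y < Mo.b i := h
  obtain ⟨h1, h2, h3, h4⟩ := hh
  have k1 : Mo.okE (Sum.inr (i, false, x - 1, y)) := ⟨by omega, h3, h4⟩
  have k2 : Mo.okE (Sum.inr (i, false, x, y)) := ⟨h2, h3, h4⟩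
  have k3 : Mo.okE (Sum.inr (i, true, x, y - 1)) := ⟨h1, h2, by omega⟩
  have k4 : Mo.okE (Sum.inr (i, true, x, y)) := ⟨h1, h2, h4⟩
  rw [GlueD_xE_pos Mo z _ k1, GlueD_xE_pos Mo z _ k2, GlueD_xE_pos Mo z _ k3,
    GlueD_xE_pos Mo z _ k4]
  have hne : ∀ {e e' : Mo.I × Bool × ℕ × ℕ} (k : Mo.okE (Sum.inr e)) (k' : Mo.okE (Sum.inr e')),
      e ≠ e' → (⟨Sum.inr e, k⟩ : (glue M Mo).E) ≠ ⟨Sum.inr e', k'⟩ := by
    intro e e' k k' h5 h6
    exact h5 (Sum.inr.inj (Subtype.ext_iff.1 h6))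
  refine GlueD_four (glue M Mo) z _ (hne k1 k2 ?_) (hne k1 k3 ?_) (hne k1 k4 ?_) (hne k2 k3 ?_)
    (hne k2 k4 ?_) (hne k3 k4 ?_) ?_
  · intro h6
    rw [Prod.mk.injEq, Prod.mk.injEq, Prod.mk.injEq] at h6
    omega
  · intro h6
    rw [Prod.mk.injEq, Prod.mk.injEq] at h6
    exact absurd h6.2.1 (by decide)
  · intro h6
    rw [Prod.mk.injEq, Prod.mk.injEq] at h6
    exact absurd h6.2.1 (by decide)
  · intro h6
    rw [Prod.mk.injEq, Prod.mk.injEq] at h6
    exact absurd h6.2.1 (by decide)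
  · intro h6
    rw [Prod.mk.injEq, Prod.mk.injEq] at h6
    exact absurd h6.2.1 (by decide)
  · intro h6
    rw [Prod.mk.injEq, Prod.mk.injEq, Prod.mk.injEq] at h6
    omega
  · rintro ⟨e, he⟩
    refine Iff.trans ?_ (or_congr Subtype.ext_iff (or_congr Subtype.ext_iff
      (or_congr Subtype.ext_iff Subtype.ext_iff))).symm
    show Mo.rinc e (Sum.inr (i, x, y)) ↔ (e = Sum.inr (i, false, x - 1, y) ∨
      e = Sum.inr (i, false, x, y) ∨ e = Sum.inr (i, true, x, y - 1) ∨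
      e = Sum.inr (i, true, x, y))
    rcases e with e | ⟨j, b, p, q⟩
    · constructor
      · rintro ⟨x', -, h5⟩
        exact absurd h5 (by simp)
      · rintro (h5 | h5 | h5 | h5) <;> exact absurd h5 (by simp)
    · rw [Sum.inr.injEq, Sum.inr.injEq, Sum.inr.injEq, Sum.inr.injEq, Prod.mk.injEq,
        Prod.mk.injEq, Prod.mk.injEq, Prod.mk.injEq, Prod.mk.injEq, Prod.mk.injEq,
        Prod.mk.injEq, Prod.mk.injEq, Prod.mk.injEq, Prod.mk.injEq, Prod.mk.injEq,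
        Prod.mk.injEq]
      cases b
      · have hr : Mo.rinc (Sum.inr (j, false, p, q)) (Sum.inr (i, x, y)) ↔
            ((j = i ∧ p = x ∧ q = y) ∨ (j = i ∧ p + 1 = x ∧ q = y)) :=
          or_congr (GlueD_gp_int Mo ⟨h1, h2, h3, h4⟩) (GlueD_gp_int Mo ⟨h1, h2, h3, h4⟩)
        rw [hr]
        constructor
        · rintro (⟨h5, h6, h7⟩ | ⟨h5, h6, h7⟩)
          · exact Or.inr (Or.inl ⟨h5, rfl, h6, h7⟩)
          · exact Or.inl ⟨h5, rfl, by omega, h7⟩
        · rintro (⟨h5, -, h6, h7⟩ | ⟨h5, -, h6, h7⟩ | ⟨-, h6, -⟩ | ⟨-, h6, -⟩)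
          · exact Or.inr ⟨h5, by omega, h7⟩
          · exact Or.inl ⟨h5, h6, h7⟩
          · exact absurd h6 (by decide)
          · exact absurd h6 (by decide)
      · have hr : Mo.rinc (Sum.inr (j, true, p, q)) (Sum.inr (i, x, y)) ↔
            ((j = i ∧ p = x ∧ q = y) ∨ (j = i ∧ p = x ∧ q + 1 = y)) :=
          or_congr (GlueD_gp_int Mo ⟨h1, h2, h3, h4⟩) (GlueD_gp_int Mo ⟨h1, h2, h3, h4⟩)
        rw [hr]
        constructor
        · rintro (⟨h5, h6, h7⟩ | ⟨h5, h6, h7⟩)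
          · exact Or.inr (Or.inr (Or.inr ⟨h5, rfl, h6, h7⟩))
          · exact Or.inr (Or.inr (Or.inl ⟨h5, rfl, h6, by omega⟩))
        · rintro (⟨-, h6, -⟩ | ⟨-, h6, -⟩ | ⟨h5, -, h6, h7⟩ | ⟨h5, -, h6, h7⟩)
          · exact absurd h6 (by decide)
          · exact absurd h6 (by decide)
          · exact Or.inr ⟨h5, h6, by omega⟩
          · exact Or.inl ⟨h5, h6, h7⟩

/-- boundary at a real vertex of an edge chain which vanishes on all interior grid edges -/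
theorem glue_dE_real (hM : M.IsSphere) (z : (glue M Mo).E → ZMod 2)
    (hz : ∀ e p, e.1 = Sum.inr p → z e = 0) {x : M.V} (h : Mo.okV (Sum.inl x)) :
    (glue M Mo).dE z ⟨Sum.inl x, h⟩ = M.dE (fun e => xE Mo z (Sum.inl e)) x := by
  symm
  have hok : ∀ e : M.E, xE Mo z (Sum.inl e) ≠ 0 → Mo.okE (Sum.inl e) := by
    intro e he
    by_contra h1
    exact he (dif_neg h1)
  unfold PC.dE
  refine Finset.sum_bij_ne_zero (fun e _ h2 => (⟨Sum.inl e, hok e h2⟩ : (glue M Mo).E))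
    ?_ ?_ ?_ ?_
  · intro e he h2
    rw [Finset.mem_filter] at he ⊢
    exact ⟨Finset.mem_univ _, x, he.2, rfl⟩
  · intro e _ _ e' _ _ heq
    exact Sum.inl.inj (Subtype.ext_iff.1 heq)
  · rintro ⟨e, he⟩ hb hne
    rw [Finset.mem_filter] at hb
    rcases e with e | p
    · obtain ⟨x', hx', hxx⟩ := hb.2
      have h5 : x = x' := Sum.inl.inj hxx
      subst h5
      refine ⟨e, ?_, ?_, rfl⟩
      · rw [Finset.mem_filter]
        exact ⟨Finset.mem_univ _, hx'⟩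
      · rw [GlueD_xE_pos Mo z _ he]
        exact hne
    · exact absurd (hz _ p rfl) hne
  · intro e _ h2
    exact GlueD_xE_pos Mo z _ (hok e h2)

theorem GlueD_xF (c : (glue M Mo).F → ZMod 2) (f : (glue M Mo).F) : xF Mo c f.1 = c f := by
  unfold xF
  rw [dif_pos f.2]
  rfl

theorem GlueD_add {a b : ZMod 2} (h : a + b = 0) : a = b := by
  revert a b
  decide

/-- the cells of the mouth `i` at the grid point `(P, Q)` have the same value -/
theorem GlueD_cells (hM : M.IsSphere) (v : (glue M Mo).V) {i : Mo.I} {P Q : ℕ}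
    (hv : v.1 = Mo.gp i P Q) (c : (glue M Mo).F → ZMod 2)
    (h : ∀ e, (glue M Mo).inc e v → (glue M Mo).dF c e = 0) {x y x' y' : ℕ}
    (hx : x < Mo.a i) (hy : y < Mo.b i) (hx' : x' < Mo.a i) (hy' : y' < Mo.b i)
    (h1 : x = P ∨ x + 1 = P) (h2 : y = Q ∨ y + 1 = Q) (h1' : x' = P ∨ x' + 1 = P)
    (h2' : y' = Q ∨ y' + 1 = Q) :
    xF Mo c (Sum.inr (i, x, y)) = xF Mo c (Sum.inr (i, x', y')) := by
  -- horizontal moves
  have H : ∀ y, y < Mo.b i → (y = Q ∨ y + 1 = Q) → 0 < P → P < Mo.a i →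
      xF Mo c (Sum.inr (i, P - 1, y)) = xF Mo c (Sum.inr (i, P, y)) := by
    intro y hy h3 hP1 hP2
    have hok : Mo.okE (Sum.inr (i, true, P, y)) := ⟨hP1, hP2, hy⟩
    have h4 := h ⟨_, hok⟩ (by
      rcases h3 with rfl | rfl
      · exact Or.inl hv
      · exact Or.inr hv)
    rw [glue_dF_v Mo hM c i hok] at h4
    exact GlueD_add h4
  -- vertical moves
  have V : ∀ x, x < Mo.a i → (x = P ∨ x + 1 = P) → 0 < Q → Q < Mo.b i →
      xF Mo c (Sum.inr (i, x, Q - 1)) = xF Mo c (Sum.inr (i, x, Q)) := by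
    intro x hx h3 hQ1 hQ2
    have hok : Mo.okE (Sum.inr (i, false, x, Q)) := ⟨hx, hQ1, hQ2⟩
    have h4 := h ⟨_, hok⟩ (by
      rcases h3 with rfl | rfl
      · exact Or.inl hv
      · exact Or.inr hv)
    rw [glue_dF_h Mo hM c i hok] at h4
    exact GlueD_add h4
  have e1 : xF Mo c (Sum.inr (i, x, y)) = xF Mo c (Sum.inr (i, x', y)) := by
    by_cases hxx : x = x'
    · rw [hxx]
    rcases h1 with h1 | h1 <;> rcases h1' with h1' | h1'
    · omega
    · have h3 := H y hy h2 (by omega) (by omega)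
      have h4 : x' = P - 1 := by omega
      rw [h1, h4]
      exact h3.symm
    · have h3 := H y hy h2 (by omega) (by omega)
      have h4 : x = P - 1 := by omega
      rw [h1', h4]
      exact h3
    · omega
  have e2 : xF Mo c (Sum.inr (i, x', y)) = xF Mo c (Sum.inr (i, x', y')) := by
    by_cases hyy : y = y'
    · rw [hyy]
    rcases h2 with h2 | h2 <;> rcases h2' with h2' | h2'
    · omega
    · have h3 := V x' hx' h1' (by omega) (by omega)
      have h4 : y' = Q - 1 := by omega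
      rw [h2, h4]
      exact h3.symm
    · have h3 := V x' hx' h1' (by omega) (by omega)
      have h4 : y = Q - 1 := by omega
      rw [h2', h4]
      exact h3
    · omega
  exact e1.trans e2

theorem GlueD_bcell {a b t : ℕ} (ha : 1 ≤ a) (hb : 1 ≤ b) (ht : t < 2 * (a + b)) :
    ((bcell a b t).1 = (bpt a b t).1 ∨ (bcell a b t).1 + 1 = (bpt a b t).1) ∧
      ((bcell a b t).2 = (bpt a b t).2 ∨ (bcell a b t).2 + 1 = (bpt a b t).2) := by
  unfold bcell bpt
  split_ifs <;> (try simp) <;> omega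

theorem GlueD_bcell' {a b t : ℕ} (ha : 1 ≤ a) (hb : 1 ≤ b) (ht : t < 2 * (a + b)) :
    ((bcell a b ((t + 2 * (a + b) - 1) % (2 * (a + b)))).1 = (bpt a b t).1 ∨
      (bcell a b ((t + 2 * (a + b) - 1) % (2 * (a + b)))).1 + 1 = (bpt a b t).1) ∧
      ((bcell a b ((t + 2 * (a + b) - 1) % (2 * (a + b)))).2 = (bpt a b t).2 ∨
      (bcell a b ((t + 2 * (a + b) - 1) % (2 * (a + b)))).2 + 1 = (bpt a b t).2) := by
  obtain ⟨s, hs⟩ : ∃ s, s = (t + 2 * (a + b) - 1) % (2 * (a + b)) := ⟨_, rfl⟩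
  rw [← hs]
  have h1 : (t = 0 ∧ s = 2 * (a + b) - 1) ∨ (0 < t ∧ s = t - 1) := by
    rcases Nat.eq_zero_or_pos t with h0 | h0
    · left
      refine ⟨h0, ?_⟩
      rw [hs, h0, Nat.zero_add, Nat.mod_eq_of_lt (by omega)]
    · right
      refine ⟨h0, ?_⟩
      have h2 : t + 2 * (a + b) - 1 = (t - 1) + 2 * (a + b) := by omega
      rw [hs, h2, Nat.add_mod_right, Nat.mod_eq_of_lt (by omega)]
  clear hs
  rcases h1 with ⟨h0, h1⟩ | ⟨h0, h1⟩
  · subst h0
    subst h1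
    unfold bcell bpt
    split_ifs <;> (try simp) <;> omega
  · subst h1
    unfold bcell bpt
    split_ifs <;> (try simp) <;> omega

/-- Star property at an interior grid vertex: the four cells around it are separated by its four edges. -/
theorem glue_star_int (hM : M.IsSphere) (v : (glue M Mo).V) {p : Mo.I × ℕ × ℕ}
    (hv : v.1 = Sum.inr p) (c : (glue M Mo).F → ZMod 2)
    (h : ∀ e, (glue M Mo).inc e v → (glue M Mo).dF c e = 0) :
    ∀ f g, (glue M Mo).At f v → (glue M Mo).At g v → c f = c g := by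
  obtain ⟨i, P, Q⟩ := p
  have hok : 0 < P ∧ P < Mo.a i ∧ 0 < Q ∧ Q < Mo.b i := by
    have h1 := v.2
    rw [hv] at h1
    exact h1
  have hvgp : v.1 = Mo.gp i P Q := by rw [gp_int Mo i hok, hv]
  have key : ∀ f, (glue M Mo).At f v → ∃ x y, f.1 = Sum.inr (i, x, y) ∧ x < Mo.a i ∧
      y < Mo.b i ∧ (x = P ∨ x + 1 = P) ∧ (y = Q ∨ y + 1 = Q) := by
    intro f hf
    rcases hf1 : f.1 with f' | ⟨j, x, y⟩
    · obtain ⟨x, hx, -⟩ := (glue_at_real Mo hM hf1 v).1 hf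
      rw [hv] at hx
      exact absurd hx (by simp)
    · have hfok : x < Mo.a j ∧ y < Mo.b j := by
        have h1 := f.2
        rw [hf1] at h1
        exact h1
      have h2 := (glue_at_cell Mo hM hf1 v).1 hf
      have h3 : ∀ p q, v.1 = Mo.gp j p q → j = i ∧ p = P ∧ q = Q := by
        intro p q hpq
        rw [hv] at hpq
        unfold Mouths.gp at hpq
        split_ifs at hpq with h4
        rw [Sum.inr.injEq, Prod.mk.injEq, Prod.mk.injEq] at hpq
        exact ⟨hpq.1.symm, hpq.2.1.symm, hpq.2.2.symm⟩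
      rcases h2 with h2 | h2 | h2 | h2
      · obtain ⟨rfl, h4, h5⟩ := h3 _ _ h2
        exact ⟨x, y, rfl, hfok.1, hfok.2, Or.inl h4, Or.inl h5⟩
      · obtain ⟨rfl, h4, h5⟩ := h3 _ _ h2
        exact ⟨x, y, rfl, hfok.1, hfok.2, Or.inr h4, Or.inl h5⟩
      · obtain ⟨rfl, h4, h5⟩ := h3 _ _ h2
        exact ⟨x, y, rfl, hfok.1, hfok.2, Or.inl h4, Or.inr h5⟩
      · obtain ⟨rfl, h4, h5⟩ := h3 _ _ h2
        exact ⟨x, y, rfl, hfok.1, hfok.2, Or.inr h4, Or.inr h5⟩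
  intro f g hf hg
  obtain ⟨x, y, hfe, hx, hy, h1, h2⟩ := key f hf
  obtain ⟨x', y', hge, hx', hy', h1', h2'⟩ := key g hg
  rw [← GlueD_xF Mo c f, ← GlueD_xF Mo c g, hfe, hge]
  exact GlueD_cells Mo hM v hvgp c h hx hy hx' hy' h1 h2 h1' h2'

/-- The two boundary cells at `gv i t` have the same value if the boundary of `c` vanishes at the edges at this
vertex: at a corner they are the same cell, otherwise they are separated by an interior grid edge. -/
theorem glue_corner (hM : M.IsSphere) (v : (glue M Mo).V) {i : Mo.I} {t : ℕ} (ht : t < Mo.n i)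
    (hv : v.1 = Sum.inl (Mo.gv i t)) (c : (glue M Mo).F → ZMod 2)
    (h : ∀ e, (glue M Mo).inc e v → (glue M Mo).dF c e = 0) :
    xF Mo c (Sum.inr (i, bcell (Mo.a i) (Mo.b i) t)) =
      xF Mo c (Sum.inr (i, bcell (Mo.a i) (Mo.b i) ((t + Mo.n i - 1) % Mo.n i))) ∧
    ∀ x y, x < Mo.a i → y < Mo.b i →
      (Mo.gp i x y = v.1 ∨ Mo.gp i (x + 1) y = v.1 ∨ Mo.gp i x (y + 1) = v.1 ∨
        Mo.gp i (x + 1) (y + 1) = v.1) →
      xF Mo c (Sum.inr (i, x, y)) = xF Mo c (Sum.inr (i, bcell (Mo.a i) (Mo.b i) t)) := by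
  have ha := Mo.ha i
  have hb := Raw_hb Mo i
  have hvgp : v.1 = Mo.gp i (bpt (Mo.a i) (Mo.b i) t).1 (bpt (Mo.a i) (Mo.b i) t).2 := by
    rw [gp_bd Mo i ht, hv]
  have hbp := bpt_le ha hb ht
  obtain ⟨hB1, hB2⟩ := GlueD_bcell ha hb ht
  obtain ⟨hB3, hB4⟩ := bcell_lt ha hb ht
  refine ⟨?_, ?_⟩
  · have hn : (t + Mo.n i - 1) % Mo.n i < 2 * (Mo.a i + Mo.b i) :=
      Nat.mod_lt _ (by have := n_ge Mo i; omega)
    obtain ⟨hC1, hC2⟩ := GlueD_bcell' ha hb ht
    obtain ⟨hC3, hC4⟩ := bcell_lt ha hb hn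
    exact GlueD_cells Mo hM v hvgp c h hB3 hB4 hC3 hC4 hB1 hB2 hC1 hC2
  · intro x y hx hy hxy
    have h3 : ∀ p q, p ≤ Mo.a i → q ≤ Mo.b i → Mo.gp i p q = v.1 →
        p = (bpt (Mo.a i) (Mo.b i) t).1 ∧ q = (bpt (Mo.a i) (Mo.b i) t).2 := by
      intro p q hp hq hpq
      rw [hvgp] at hpq
      exact gp_inj Mo i hp hq hbp.1 hbp.2.1 hpq
    have h4 : (x = (bpt (Mo.a i) (Mo.b i) t).1 ∨ x + 1 = (bpt (Mo.a i) (Mo.b i) t).1) ∧
        (y = (bpt (Mo.a i) (Mo.b i) t).2 ∨ y + 1 = (bpt (Mo.a i) (Mo.b i) t).2) := by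
      rcases hxy with h5 | h5 | h5 | h5
      · obtain ⟨h6, h7⟩ := h3 _ _ (by omega) (by omega) h5
        exact ⟨Or.inl h6, Or.inl h7⟩
      · obtain ⟨h6, h7⟩ := h3 _ _ (by omega) (by omega) h5
        exact ⟨Or.inr h6, Or.inl h7⟩
      · obtain ⟨h6, h7⟩ := h3 _ _ (by omega) (by omega) h5
        exact ⟨Or.inl h6, Or.inr h7⟩
      · obtain ⟨h6, h7⟩ := h3 _ _ (by omega) (by omega) h5
        exact ⟨Or.inr h6, Or.inr h7⟩
    exact GlueD_cells Mo hM v hvgp c h hx hy hB3 hB4 h4.1 h4.2 hB1 hB2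

/-- the value of `c` on the face of `M` at the vertex `x` -/
def GlueD_c (c : (glue M Mo).F → ZMod 2) (x : M.V) (f : M.F) : ZMod 2 :=
  if h : ∃ i, ∃ t < Mo.n i, Mo.c i f ≠ 0 ∧ Mo.gv i t = x then
    xF Mo c (Sum.inr (h.choose, bcell (Mo.a h.choose) (Mo.b h.choose) h.choose_spec.choose))
  else xF Mo c (Sum.inl f)

theorem GlueD_c_in (c : (glue M Mo).F → ZMod 2) {x : M.V} {f : M.F} {i : Mo.I} {t : ℕ}
    (ht : t < Mo.n i) (hf : Mo.c i f ≠ 0) (hx : Mo.gv i t = x) :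
    GlueD_c Mo c x f = xF Mo c (Sum.inr (i, bcell (Mo.a i) (Mo.b i) t)) := by
  have h : ∃ i, ∃ t < Mo.n i, Mo.c i f ≠ 0 ∧ Mo.gv i t = x := ⟨i, t, ht, hf, hx⟩
  have key : ∀ j, ∀ s, s < Mo.n j → Mo.c j f ≠ 0 → Mo.gv j s = x →
      xF Mo c (Sum.inr (j, bcell (Mo.a j) (Mo.b j) s)) =
        xF Mo c (Sum.inr (i, bcell (Mo.a i) (Mo.b i) t)) := by
    intro j s hs hj hsx
    obtain rfl := Mo.disj j i f hj hf
    obtain rfl := Mo.gv_inj j s t hs ht (hsx.trans hx.symm)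
    rfl
  unfold GlueD_c
  rw [dif_pos h]
  exact key _ _ h.choose_spec.choose_spec.1 h.choose_spec.choose_spec.2.1
    h.choose_spec.choose_spec.2.2

theorem GlueD_c_out (c : (glue M Mo).F → ZMod 2) {x : M.V} {f : M.F} (hf : ∀ i, Mo.c i f = 0) :
    GlueD_c Mo c x f = xF Mo c (Sum.inl f) := by
  unfold GlueD_c
  rw [dif_neg]
  rintro ⟨i, t, -, h, -⟩
  exact h (hf i)

theorem GlueD_side (hM : M.IsSphere) (v : (glue M Mo).V) {x : M.V}
    (hv : v.1 = Sum.inl x) (c : (glue M Mo).F → ZMod 2)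
    (h : ∀ e, (glue M Mo).inc e v → (glue M Mo).dF c e = 0) {e : M.E}
    (he : ∀ y, M.inc e y → y ∈ Mo.Real) (hex : M.inc e x) {f : M.F} (hf : M.bd f e) :
    side Mo c e f = GlueD_c Mo c x f := by
  by_cases h0 : ∀ i, Mo.c i f = 0
  · rw [side_out Mo c e h0, GlueD_c_out Mo c h0]
  push Not at h0
  obtain ⟨i, hi⟩ := h0
  obtain ⟨s, hs, hse⟩ := real_edge_ge Mo hM he hf hi
  have hn := n_ge Mo i
  rw [← hse, side_in Mo hM c hs hi]
  rw [← hse] at hex
  rcases (ge_ends Mo hM i s x).1 hex with h1 | h1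
  · rw [GlueD_c_in Mo c hs hi h1.symm]
  · have ht : (s + 1) % Mo.n i < Mo.n i := Nat.mod_lt _ (by omega)
    have h2 : Mo.gv i ((s + 1) % Mo.n i) = x := by rw [← gv_mod, h1]
    rw [GlueD_c_in Mo c ht hi h2]
    have h3 := (glue_corner Mo hM v ht (by rw [h2, hv]) c h).1
    have h4 : ((s + 1) % Mo.n i + Mo.n i - 1) % Mo.n i = s := by
      have h5 : ((s + 1) % Mo.n i) % Mo.n i = (s + 1) % Mo.n i := Nat.mod_mod _ _
      rw [Mouth_mod2 (by omega) h5, Nat.mod_eq_of_lt hs]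
    rw [h4] at h3
    exact h3.symm

/-- Star property at a real vertex `x`. Define `c'` on the faces of `M` at `x`: `c' f = xF c (inl f)` if `f` is in no disc;
if `f` is in the disc `i`, then `x = gv i t` (`on_gv`) and `c' f` = value of the cell `bcell t` of the mouth `i`
(well defined). By `glue_corner`, `gv_edges` and `glue_dF_real` the boundary of `c'` vanishes at all edges of `M` at `x` (an edge which is not real
has both faces in one disc, `real_edge_iff`). By `star` of `M`, `c'` is constant on the faces at `x`; so `c` has the same value on all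
faces of the glued complex at `x` (cells at `x`: `glue_corner`). -/
theorem glue_star_real (hM : M.IsSphere) (v : (glue M Mo).V) {x : M.V}
    (hv : v.1 = Sum.inl x) (c : (glue M Mo).F → ZMod 2)
    (h : ∀ e, (glue M Mo).inc e v → (glue M Mo).dF c e = 0) :
    ∀ f g, (glue M Mo).At f v → (glue M Mo).At g v → c f = c g := by
  have hxR : x ∈ Mo.Real := by
    have h1 := v.2
    rw [hv] at h1
    exact h1
  have hstar : ∀ e, M.inc e x → M.dF (GlueD_c Mo c x) e = 0 := by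
    intro e hex
    obtain ⟨f, g, hfg, hall⟩ := hM.bd_two e
    have hf := (hall f).2 (Or.inl rfl)
    have hg := (hall g).2 (Or.inr rfl)
    rw [dF_eq hM hfg hf hg]
    by_cases he : ∀ y, M.inc e y → y ∈ Mo.Real
    · rw [← GlueD_side Mo hM v hv c h he hex hf, ← GlueD_side Mo hM v hv c h he hex hg,
        ← glue_dF_real Mo hM c he hfg hf hg]
      exact h _ ⟨x, hex, hv⟩
    · rw [real_edge_iff Mo hM e] at he
      push Not at he
      obtain ⟨i, hi⟩ := he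
      obtain ⟨t, ht, htx⟩ := on_gv Mo hM i (hxR i) (⟨e, hf, hex⟩ : M.At f x) (hi f hf)
      rw [GlueD_c_in Mo c ht (hi f hf) htx, GlueD_c_in Mo c ht (hi g hg) htx]
      exact CharTwo.add_self_eq_zero _
  have hconst := hM.star x _ hstar
  have key : ∀ F, (glue M Mo).At F v → ∃ f, M.At f x ∧ c F = GlueD_c Mo c x f := by
    intro F hF
    rcases hF1 : F.1 with f | ⟨i, p, q⟩
    · obtain ⟨y, hy, hfy⟩ := (glue_at_real Mo hM hF1 v).1 hF
      rw [hv] at hy
      obtain rfl := Sum.inl.inj hy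
      refine ⟨f, hfy, ?_⟩
      have h0 : ∀ i, Mo.c i f = 0 := by
        have h1 := F.2
        rw [hF1] at h1
        exact h1
      rw [GlueD_c_out Mo c h0, ← hF1, GlueD_xF]
    · have hok : p < Mo.a i ∧ q < Mo.b i := by
        have h1 := F.2
        rw [hF1] at h1
        exact h1
      have h2 := (glue_at_cell Mo hM hF1 v).1 hF
      have h3 : ∃ t < Mo.n i, Mo.gv i t = x := by
        rw [hv] at h2
        rcases h2 with h2 | h2 | h2 | h2
        · obtain ⟨t, ht, htx, -⟩ := gp_real Mo i (by omega) (by omega) h2.symm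
          exact ⟨t, ht, htx⟩
        · obtain ⟨t, ht, htx, -⟩ := gp_real Mo i (by omega) (by omega) h2.symm
          exact ⟨t, ht, htx⟩
        · obtain ⟨t, ht, htx, -⟩ := gp_real Mo i (by omega) (by omega) h2.symm
          exact ⟨t, ht, htx⟩
        · obtain ⟨t, ht, htx, -⟩ := gp_real Mo i (by omega) (by omega) h2.symm
          exact ⟨t, ht, htx⟩
      obtain ⟨t, ht, htx⟩ := h3
      obtain ⟨f, g, -, hf, -, hc, -⟩ := ge_faces Mo hM i t
      have hc' : Mo.c i f ≠ 0 := by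
        rw [hc]
        exact one_ne_zero
      refine ⟨f, ⟨_, hf, htx ▸ (Mo.ge_inc i t).1⟩, ?_⟩
      rw [GlueD_c_in Mo c ht hc' htx, ← GlueD_xF Mo c F, hF1]
      refine (glue_corner Mo hM v ht (by rw [htx, hv]) c h).2 p q hok.1 hok.2 ?_
      rcases h2 with h2 | h2 | h2 | h2
      · exact Or.inl h2.symm
      · exact Or.inr (Or.inl h2.symm)
      · exact Or.inr (Or.inr (Or.inl h2.symm))
      · exact Or.inr (Or.inr (Or.inr h2.symm))
  intro F G hF hG
  obtain ⟨f, hf, hcf⟩ := key F hF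
  obtain ⟨g, hg, hcg⟩ := key G hG
  rw [hcf, hcg]
  exact hconst f g hf hg

end Pool.Agent.H.MP_c8cc4c_co
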