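import Mathlib
import Pool.Agent.H.MP_c8cc4c_co.G.Grid1

/-! # MP_c8cc4c_co, part G, file 2: filling and isoperimetry in the grid

Cells `(i, j)`, `i < a`, `j < b` (unit square with lower left corner `(i, j)`). Interior horizontal edges
`(x, y)-(x+1, y)`: `x < a`, `0 < y < b`, between the cells `(x, y-1)` and `(x, y)`. Interior vertical edges
`(x, y)-(x, y+1)`: `0 < x < a`, `y < b`, between the cells `(x-1, y)` and `(x, y)`. A chain of interior edges is given by
`yh x y` and `yv x y`. -/

open scoped Classical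
open Finset

noncomputable section

namespace Pool.Agent.H.MP_c8cc4c_co

/-- the chain of interior edges is even at all interior vertices -/
def GEven (a b : ℕ) (yh yv : ℕ → ℕ → ZMod 2) : Prop :=
  ∀ x y, 0 < x → x < a → 0 < y → y < b →
    yh (x - 1) y + yh x y + yv x (y - 1) + yv x y = 0

/-- the cell chain `P` has the boundary `yh`, `yv` on the interior edges -/
def GFill (a b : ℕ) (yh yv P : ℕ → ℕ → ZMod 2) : Prop :=
  (∀ x y, x < a → 0 < y → y < b → P x (y - 1) + P x y = yh x y) ∧
  (∀ x y, 0 < x → x < a → y < b → P (x - 1) y + P x y = yv x y)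

/-- number of interior edges in the chain -/
def gN (a b : ℕ) (yh yv : ℕ → ℕ → ZMod 2) : ℕ :=
  ((range a ×ˢ range b).filter fun p => 0 < p.2 ∧ yh p.1 p.2 ≠ 0).card +
  ((range a ×ˢ range b).filter fun p => 0 < p.1 ∧ yv p.1 p.2 ≠ 0).card

/-- Fill: `P i j = ∑ x in 1..i, yv x j + ∑ j' in 1..j, yh 0 j'`. Vertical edges: clear. Horizontal edges: induction on `x`
with `GEven`. -/
theorem grid_fill (a b : ℕ) (yh yv : ℕ → ℕ → ZMod 2) (h : GEven a b yh yv) :
    ∃ P, GFill a b yh yv P := by
  have h2 : (2 : ZMod 2) = 0 := rfl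
  refine ⟨fun i j => (∑ x ∈ range i, yv (x + 1) j) + ∑ j' ∈ range j, yh 0 (j' + 1), ?_, ?_⟩
  · intro x y hx hy hyb
    obtain ⟨y, rfl⟩ : ∃ k, y = k + 1 := ⟨y - 1, by omega⟩
    simp only [Nat.add_sub_cancel]
    induction x with
    | zero =>
      simp only [range_zero, sum_empty, zero_add]
      rw [sum_range_succ]
      linear_combination (∑ x ∈ range y, yh 0 (x + 1)) * h2
    | succ x ih =>
      have ih' := ih (by omega)
      have hE := h (x + 1) (y + 1) (by omega) hx (by omega) hyb
      simp only [Nat.add_sub_cancel] at hE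
      rw [sum_range_succ (fun x => yv (x + 1) y) x, sum_range_succ (fun x => yv (x + 1) (y + 1)) x]
      linear_combination ih' + hE - yh (x + 1) (y + 1) * h2
  · intro x y hx hxa hy
    obtain ⟨x, rfl⟩ : ∃ k, x = k + 1 := ⟨x - 1, by omega⟩
    simp only [Nat.add_sub_cancel]
    rw [sum_range_succ]
    linear_combination (∑ x ∈ range x, yv (x + 1) y + ∑ j' ∈ range y, yh 0 (j' + 1)) * h2

/-- A fill can be replaced by its complement. -/
theorem grid_fill_compl {a b : ℕ} {yh yv P : ℕ → ℕ → ZMod 2} (h : GFill a b yh yv P) :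
    GFill a b yh yv (fun x y => P x y + 1) := by
  have h2 : (2 : ZMod 2) = 0 := rfl
  refine ⟨fun x y hx hy hyb => ?_, fun x y hx hxa hy => ?_⟩
  · linear_combination h.1 x y hx hy hyb + h2
  · linear_combination h.2 x y hx hxa hy + h2

/-- A column (row) without edge of the chain has the same value on all its cells. -/
theorem fill_col {a b : ℕ} {yh yv P : ℕ → ℕ → ZMod 2} (h : GFill a b yh yv P) {x : ℕ} (hx : x < a)
    (h0 : ∀ y, 0 < y → y < b → yh x y = 0) {j j' : ℕ} (hj : j < b) (hj' : j' < b) :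
    P x j = P x j' := by
  have h2 : (2 : ZMod 2) = 0 := rfl
  have key : ∀ j, j < b → P x j = P x 0 := by
    intro j
    induction j with
    | zero => intro _; rfl
    | succ j ih =>
      intro hj
      have h3 := h.1 x (j + 1) hx (by omega) hj
      rw [h0 (j + 1) (by omega) hj, Nat.add_sub_cancel] at h3
      have h4 := ih (by omega)
      linear_combination h3 + h4 - P x j * h2
  rw [key j hj, key j' hj']

theorem fill_row {a b : ℕ} {yh yv P : ℕ → ℕ → ZMod 2} (h : GFill a b yh yv P) {y : ℕ} (hy : y < b)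
    (h0 : ∀ x, 0 < x → x < a → yv x y = 0) {i i' : ℕ} (hi : i < a) (hi' : i' < a) :
    P i y = P i' y := by
  have h2 : (2 : ZMod 2) = 0 := rfl
  have key : ∀ i, i < a → P i y = P 0 y := by
    intro i
    induction i with
    | zero => intro _; rfl
    | succ i ih =>
      intro hi
      have h3 := h.2 (i + 1) y (by omega) hi hy
      rw [h0 (i + 1) (by omega) hi, Nat.add_sub_cancel] at h3
      have h4 := ih (by omega)
      linear_combination h3 + h4 - P i y * h2
  rw [key i hi, key i' hi']

/-- If in the row `y` two cells `i < i'` have different values then there is an edge of the chain between them. -/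
theorem fill_change {a b : ℕ} {yh yv P : ℕ → ℕ → ZMod 2} (h : GFill a b yh yv P) {y : ℕ}
    (hy : y < b) {i i' : ℕ} (hi : i < i') (hi' : i' < a) (hne : P i y ≠ P i' y) :
    ∃ x, i < x ∧ x ≤ i' ∧ yv x y ≠ 0 := by
  by_contra hcon
  push Not at hcon
  apply hne
  have h2 : (2 : ZMod 2) = 0 := rfl
  have key : ∀ k, i ≤ k → k ≤ i' → P k y = P i y := by
    intro k hk
    induction k, hk using Nat.le_induction with
    | base => intro _; rfl
    | succ k hk ih =>
      intro hk'
      have h3 := h.2 (k + 1) y (by omega) (by omega) hy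
      rw [hcon (k + 1) (by omega) hk', Nat.add_sub_cancel] at h3
      have h4 := ih (by omega)
      linear_combination h3 + h4 - P k y * h2
  exact (key i' hi.le le_rfl).symm

/-- Affected columns / rows: at most as many as edges of the chain. -/
theorem affected_le (a b : ℕ) (yh yv : ℕ → ℕ → ZMod 2) :
    ((range a).filter fun x => ∃ y, 0 < y ∧ y < b ∧ yh x y ≠ 0).card +
    ((range b).filter fun y => ∃ x, 0 < x ∧ x < a ∧ yv x y ≠ 0).card ≤ gN a b yh yv := by
  unfold gN
  apply Nat.add_le_add
  · have h1 : ((range a).filter fun x => ∃ y, 0 < y ∧ y < b ∧ yh x y ≠ 0) ⊆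
        (((range a ×ˢ range b).filter fun p => 0 < p.2 ∧ yh p.1 p.2 ≠ 0).image Prod.fst) := by
      intro x hx
      rw [mem_filter, mem_range] at hx
      obtain ⟨hx, y, hy, hyb, hne⟩ := hx
      rw [mem_image]
      exact ⟨(x, y), by simp only [mem_filter, mem_product, mem_range]; exact ⟨⟨hx, hyb⟩, hy, hne⟩, rfl⟩
    exact (card_le_card h1).trans card_image_le
  · have h1 : ((range b).filter fun y => ∃ x, 0 < x ∧ x < a ∧ yv x y ≠ 0) ⊆
        (((range a ×ˢ range b).filter fun p => 0 < p.1 ∧ yv p.1 p.2 ≠ 0).image Prod.snd) := by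
      intro y hy
      rw [mem_filter, mem_range] at hy
      obtain ⟨hy, x, hx, hxa, hne⟩ := hy
      rw [mem_image]
      exact ⟨(x, y), by simp only [mem_filter, mem_product, mem_range]; exact ⟨⟨hxa, hy⟩, hx, hne⟩, rfl⟩
    exact (card_le_card h1).trans card_image_le

/-- nearest good number above -/
theorem grid2_up (U : ℕ → Prop) {i x0 : ℕ} (hx : i < x0) (h0 : U x0) :
    ∃ i', i < i' ∧ i' ≤ x0 ∧ U i' ∧ ∀ k, i < k → k < i' → ¬ U k := by
  induction x0, hx using Nat.le_induction with
  | base => exact ⟨i + 1, by omega, le_rfl, h0, fun k h1 h2 => by omega⟩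
  | succ m hm ih =>
    by_cases hU : ∃ k, i < k ∧ k < m + 1 ∧ U k
    · obtain ⟨k, h1, h2, h3⟩ := hU
      have : ∃ j, i < j ∧ U j := ⟨k, h1, h3⟩
      have hs := Nat.find_spec this
      have hm' := Nat.find_min' this ⟨h1, h3⟩
      refine ⟨Nat.find this, hs.1, by omega, hs.2, fun j hj1 hj2 hj3 => ?_⟩
      have := Nat.find_min' this ⟨hj1, hj3⟩
      omega
    · push Not at hU
      exact ⟨m + 1, by omega, le_rfl, h0, fun k h1 h2 => hU k h1 h2⟩

/-- nearest good number below -/
theorem grid2_down (U : ℕ → Prop) {i x0 : ℕ} (hx : x0 < i) (h0 : U x0) :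
    ∃ i', x0 ≤ i' ∧ i' < i ∧ U i' ∧ ∀ k, i' < k → k < i → ¬ U k := by
  induction i, hx using Nat.le_induction with
  | base => exact ⟨x0, le_rfl, by omega, h0, fun k h1 h2 => by omega⟩
  | succ m hm ih =>
    by_cases hU : U m
    · exact ⟨m, by omega, by omega, hU, fun k h1 h2 => by omega⟩
    · obtain ⟨i', h1, h2, h3, h4⟩ := ih
      refine ⟨i', h1, by omega, h3, fun k hk1 hk2 => ?_⟩
      rcases Nat.lt_or_ge k m with h | h
      · exact h4 k hk1 h
      · have : k = m := by omega
        subst this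
        exact hU

theorem grid2_zmod {x : ZMod 2} (h : x ≠ 0) : x + 1 = 0 := by
  revert x
  decide

/-- the boundary cells with value one are in affected rows or columns -/
theorem grid2_bdcard {a b : ℕ} (ha : 1 ≤ a) (hb : 1 ≤ b) (C R : Finset ℕ)
    (P : ℕ → ℕ → ZMod 2)
    (hC : ∀ i j, i < a → j < b → P i j ≠ 0 → i ∈ C)
    (hR : ∀ i j, i < a → j < b → P i j ≠ 0 → j ∈ R) :
    ((range (2 * (a + b))).filter fun t => P (bcell a b t).1 (bcell a b t).2 ≠ 0).card ≤
      2 * (C.card + R.card) := by
  have hsub : ((range (2 * (a + b))).filter fun t => P (bcell a b t).1 (bcell a b t).2 ≠ 0) ⊆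
      (C ∪ R.image (fun y => a + y)) ∪ (C.image (fun x => 2 * a + b - x - 1) ∪
        R.image (fun y => 2 * (a + b) - y - 1)) := by
    intro t ht
    rw [mem_filter, mem_range] at ht
    obtain ⟨ht, hP⟩ := ht
    have hlt := bcell_lt ha hb ht
    have h1 := hC _ _ hlt.1 hlt.2 hP
    have h2 := hR _ _ hlt.1 hlt.2 hP
    rcases Nat.lt_or_ge t a with c1 | c1
    · have e : bcell a b t = (t, 0) := by
        unfold bcell
        rw [if_pos c1]
      rw [e] at h1
      exact mem_union_left _ (mem_union_left _ h1)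
    rcases Nat.lt_or_ge t (a + b) with c2 | c2
    · have e : bcell a b t = (a - 1, t - a) := by
        unfold bcell
        rw [if_neg (by omega), if_pos c2]
      rw [e] at h2
      refine mem_union_left _ (mem_union_right _ (mem_image.mpr ⟨t - a, h2, by omega⟩))
    rcases Nat.lt_or_ge t (2 * a + b) with c3 | c3
    · have e : bcell a b t = (2 * a + b - t - 1, b - 1) := by
        unfold bcell
        rw [if_neg (by omega), if_neg (by omega), if_pos c3]
      rw [e] at h1
      refine mem_union_right _ (mem_union_left _ (mem_image.mpr ⟨_, h1, by simp only []; omega⟩))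
    · have e : bcell a b t = (0, 2 * (a + b) - t - 1) := by
        unfold bcell
        rw [if_neg (by omega), if_neg (by omega), if_neg (by omega)]
      rw [e] at h2
      refine mem_union_right _ (mem_union_right _ (mem_image.mpr ⟨_, h2, by simp only []; omega⟩))
  refine (card_le_card hsub).trans ?_
  refine (card_union_le _ _).trans ?_
  have c1 := (card_union_le C (R.image (fun y => a + y)))
  have c2 := (card_union_le (C.image (fun x => 2 * a + b - x - 1))
    (R.image (fun y => 2 * (a + b) - y - 1)))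
  have c3 : (R.image (fun y => a + y)).card ≤ R.card := card_image_le
  have c4 : (C.image (fun x => 2 * a + b - x - 1)).card ≤ C.card := card_image_le
  have c5 : (R.image (fun y => 2 * (a + b) - y - 1)).card ≤ R.card := card_image_le
  omega

/-- Case A of the isoperimetric inequality: there is an unaffected column and an unaffected row. All unaffected columns and
rows have the same value (every unaffected column meets every unaffected row), take the fill or its complement so that it
is `0`. (1) A boundary edge `t` whose cell has value `1`: for `t < a` the cell is `(t, 0)`, so column `t` is affected; similarly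
for the three other sides; so there are at most `2 n_h + 2 n_v` of them, `n_h`, `n_v` = numbers of affected
columns and rows. (2) Let the cell `(i, j)` have value `1`; let `i'` be an unaffected column nearest to `i`; then
`|i - i'| ≤ n_h` (all columns between are affected, `i` too), the cell `(i', j)` has value `0`, so by `fill_change` there is a vertical edge `yv x j ≠ 0` with `x`
between. -/
theorem iso_A {a b : ℕ} (ha : 1 ≤ a) (hb : 1 ≤ b) {yh yv : ℕ → ℕ → ZMod 2}
    (h : GEven a b yh yv)
    (hc : ∃ x < a, ∀ y, 0 < y → y < b → yh x y = 0)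
    (hr : ∃ y < b, ∀ x, 0 < x → x < a → yv x y = 0) :
    ∃ P, GFill a b yh yv P ∧
      ((range (2 * (a + b))).filter fun t => P (bcell a b t).1 (bcell a b t).2 ≠ 0).card ≤
        3 * gN a b yh yv ∧
      ∀ i j, i < a → j < b → P i j ≠ 0 → ∃ x, 0 < x ∧ x < a ∧ yv x j ≠ 0 ∧
        (i - x) + (x - i) ≤ gN a b yh yv := by
  obtain ⟨P0, hP0⟩ := grid_fill a b yh yv h
  obtain ⟨x0, hx0, hxu⟩ := hc
  obtain ⟨y0, hy0, hyu⟩ := hr
  set C := (range a).filter fun x => ∃ y, 0 < y ∧ y < b ∧ yh x y ≠ 0 with hCd
  set R := (range b).filter fun y => ∃ x, 0 < x ∧ x < a ∧ yv x y ≠ 0 with hRd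
  have haff := affected_le a b yh yv
  rw [← hCd, ← hRd] at haff
  obtain ⟨P, hP, hP00⟩ : ∃ P, GFill a b yh yv P ∧ P x0 y0 = 0 := by
    by_cases h0 : P0 x0 y0 = 0
    · exact ⟨P0, hP0, h0⟩
    · exact ⟨_, grid_fill_compl hP0, grid2_zmod h0⟩
  have hcol0 : ∀ j, j < b → P x0 j = 0 := fun j hj => by
    rw [fill_col hP hx0 hxu hj hy0, hP00]
  have hrow0 : ∀ i, i < a → P i y0 = 0 := fun i hi => by
    rw [fill_row hP hy0 hyu hi hx0, hP00]
  have hC : ∀ i j, i < a → j < b → P i j ≠ 0 → i ∈ C := by
    intro i j hi hj hne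
    rw [hCd, mem_filter, mem_range]
    refine ⟨hi, ?_⟩
    by_contra hcon
    push Not at hcon
    apply hne
    rw [fill_col hP hi hcon hj hy0]
    exact hrow0 i hi
  have hR : ∀ i j, i < a → j < b → P i j ≠ 0 → j ∈ R := by
    intro i j hi hj hne
    rw [hRd, mem_filter, mem_range]
    refine ⟨hj, ?_⟩
    by_contra hcon
    push Not at hcon
    apply hne
    rw [fill_row hP hj hcon hi hx0]
    exact hcol0 j hj
  have hunC : ∀ i, i < a → i ∉ C → ∀ j, j < b → P i j = 0 := by
    intro i hi hiC j hj
    by_contra hne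
    exact hiC (hC i j hi hj hne)
  refine ⟨P, hP, ?_, ?_⟩
  · have := grid2_bdcard ha hb C R P hC hR
    omega
  · intro i j hi hj hne
    have hiC := hC i j hi hj hne
    have hx0C : x0 ∉ C := by
      rw [hCd, mem_filter]
      rintro ⟨-, y, h1, h2, h3⟩
      exact h3 (hxu y h1 h2)
    have hcardle : ∀ S : Finset ℕ, S ⊆ C → S.card ≤ gN a b yh yv := fun S hS => by
      have := card_le_card hS
      omega
    rcases lt_trichotomy i x0 with hlt | heq | hgt
    · obtain ⟨i', h1, h2, h3, h4⟩ := grid2_up (fun k => k ∉ C) hlt hx0C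
      have hS : Finset.Ico i i' ⊆ C := by
        intro k hk
        rw [Finset.mem_Ico] at hk
        rcases Nat.eq_or_lt_of_le hk.1 with h | h
        · rw [← h]; exact hiC
        · exact not_not.mp (h4 k h hk.2)
      have hc1 := hcardle _ hS
      rw [Nat.card_Ico] at hc1
      have hz := hunC i' (by omega) h3 j hj
      obtain ⟨x, hx1, hx2, hx3⟩ := fill_change hP hj h1 (by omega) (by rw [hz]; exact hne)
      exact ⟨x, by omega, by omega, hx3, by omega⟩
    · rw [heq] at hiC
      exact absurd hiC hx0C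
    · obtain ⟨i', h1, h2, h3, h4⟩ := grid2_down (fun k => k ∉ C) hgt hx0C
      have hS : Finset.Ioc i' i ⊆ C := by
        intro k hk
        rw [Finset.mem_Ioc] at hk
        rcases Nat.eq_or_lt_of_le hk.2 with h | h
        · rw [h]; exact hiC
        · exact not_not.mp (h4 k hk.1 h)
      have hc1 := hcardle _ hS
      rw [Nat.card_Ioc] at hc1
      have hz := hunC i' (by omega) h3 j hj
      obtain ⟨x, hx1, hx2, hx3⟩ := fill_change hP hj h2 hi (by rw [hz]; exact hne.symm)
      exact ⟨x, by omega, by omega, hx3, by omega⟩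

/-- Case B: all columns are affected, or all rows are affected. Then `gN ≥ a`; the fill or its complement has at most
`a + b ≤ 3 a` boundary edges. -/
theorem iso_B {a b : ℕ} (ha : 1 ≤ a) (hab : a ≤ b) (hba : b ≤ a + 1) {yh yv : ℕ → ℕ → ZMod 2}
    (h : GEven a b yh yv)
    (hc : (∀ x < a, ∃ y, 0 < y ∧ y < b ∧ yh x y ≠ 0) ∨ (∀ y < b, ∃ x, 0 < x ∧ x < a ∧ yv x y ≠ 0)) :
    a ≤ gN a b yh yv ∧ ∃ P, GFill a b yh yv P ∧
      ((range (2 * (a + b))).filter fun t => P (bcell a b t).1 (bcell a b t).2 ≠ 0).card ≤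
        3 * gN a b yh yv := by
  have haff := affected_le a b yh yv
  have h1 : a ≤ gN a b yh yv := by
    rcases hc with hc | hc
    · have : (range a).filter (fun x => ∃ y, 0 < y ∧ y < b ∧ yh x y ≠ 0) = range a := by
        rw [filter_eq_self]
        intro x hx
        exact hc x (mem_range.mp hx)
      rw [this, card_range] at haff
      omega
    · have : (range b).filter (fun y => ∃ x, 0 < x ∧ x < a ∧ yv x y ≠ 0) = range b := by
        rw [filter_eq_self]
        intro x hx
        exact hc x (mem_range.mp hx)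
      rw [this, card_range] at haff
      omega
  refine ⟨h1, ?_⟩
  obtain ⟨P0, hP0⟩ := grid_fill a b yh yv h
  have hsum := card_filter_add_card_filter_not (s := range (2 * (a + b)))
    (fun t => P0 (bcell a b t).1 (bcell a b t).2 ≠ 0)
  rw [card_range] at hsum
  by_cases hle : ((range (2 * (a + b))).filter
      fun t => P0 (bcell a b t).1 (bcell a b t).2 ≠ 0).card ≤ a + b
  · exact ⟨P0, hP0, by omega⟩
  · refine ⟨_, grid_fill_compl hP0, ?_⟩
    have e : ((range (2 * (a + b))).filter
        fun t => P0 (bcell a b t).1 (bcell a b t).2 + 1 ≠ 0) =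
        ((range (2 * (a + b))).filter
          fun t => ¬ (P0 (bcell a b t).1 (bcell a b t).2 ≠ 0)) := by
      apply filter_congr
      intro t _
      generalize P0 (bcell a b t).1 (bcell a b t).2 = z
      revert z
      decide
    rw [e]
    omega

/-- Isoperimetric inequality: cases A and B (in case B every cell is within `a + b ≤ 3 a ≤ 3 gN` of an end of an
edge of the chain). Last clause: every cell with value `1` is within `3 gN` of the left / lower end `(p, q)` of an
edge of the chain. -/
theorem grid_iso {a b : ℕ} (ha : 1 ≤ a) (hab : a ≤ b) (hba : b ≤ a + 1) {yh yv : ℕ → ℕ → ZMod 2}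
    (h : GEven a b yh yv) :
    ∃ P, GFill a b yh yv P ∧
      ((range (2 * (a + b))).filter fun t => P (bcell a b t).1 (bcell a b t).2 ≠ 0).card ≤
        3 * gN a b yh yv ∧
      ∀ i j, i < a → j < b → P i j ≠ 0 → ∃ p q, p < a ∧ q < b ∧
        ((0 < q ∧ yh p q ≠ 0) ∨ (0 < p ∧ yv p q ≠ 0)) ∧ gd (i, j) (p, q) ≤ 3 * gN a b yh yv := by
  by_cases hA : (∃ x < a, ∀ y, 0 < y → y < b → yh x y = 0) ∧
      (∃ y < b, ∀ x, 0 < x → x < a → yv x y = 0)
  · obtain ⟨P, hP, h1, h2⟩ := iso_A ha (ha.trans hab) h hA.1 hA.2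
    refine ⟨P, hP, h1, fun i j hi hj hne => ?_⟩
    obtain ⟨x, hx, hxa, hv, hd⟩ := h2 i j hi hj hne
    refine ⟨x, j, hxa, hj, Or.inr ⟨hx, hv⟩, ?_⟩
    unfold gd
    simp only []
    omega
  · have hc : (∀ x < a, ∃ y, 0 < y ∧ y < b ∧ yh x y ≠ 0) ∨
        (∀ y < b, ∃ x, 0 < x ∧ x < a ∧ yv x y ≠ 0) := by
      by_contra hcon
      push Not at hcon
      exact hA ⟨hcon.1, hcon.2⟩
    obtain ⟨h1, P, hP, h2⟩ := iso_B ha hab hba h hc
    refine ⟨P, hP, h2, fun i j hi hj hne => ?_⟩
    rcases hc with hc | hc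
    · obtain ⟨y, hy, hyb, hv⟩ := hc 0 (by omega)
      refine ⟨0, y, by omega, hyb, Or.inl ⟨hy, hv⟩, ?_⟩
      have := gd_le (a := a) (b := b) (p := (i, j)) (q := (0, y)) ⟨hi.le, hj.le⟩
        ⟨Nat.zero_le _, hyb.le⟩
      omega
    · obtain ⟨x, hx, hxa, hv⟩ := hc 0 (by omega)
      refine ⟨x, 0, hxa, by omega, Or.inr ⟨hx, hv⟩, ?_⟩
      have := gd_le (a := a) (b := b) (p := (i, j)) (q := (x, 0)) ⟨hi.le, hj.le⟩
        ⟨hxa.le, Nat.zero_le _⟩
      omega

end Pool.Agent.H.MP_c8cc4c_co
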