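import Mathlib
import Pool.Agent.H.MP_c8cc4c_co.G.GlueD
import Pool.Agent.H.MP_c8cc4c_co.G.GlueB
import Pool.Agent.H.MP_c8cc4c_co.G.Grid2
import Pool.Agent.H.MP_c8cc4c_co.B.Path

/-! # MP_c8cc4c_co, part G, file 9: `H_1 = 0` for the glued complex, degrees, the glued complex is a sphere -/

open scoped Classical
open Finset

noncomputable section

namespace Pool.Agent.H.MP_c8cc4c_co

variable {M : PC} (Mo : Mouths M)

/-- The restriction of an even chain of the glued complex to the interior edges of the mouth `i` is even at all interior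
vertices (`glue_dE_int`). -/
theorem glue_geven (hM : M.IsSphere) {z : (glue M Mo).E → ZMod 2} (hz : (glue M Mo).Ev z)
    (i : Mo.I) : GEven (Mo.a i) (Mo.b i) (fun x y => xE Mo z (Sum.inr (i, false, x, y)))
      (fun x y => xE Mo z (Sum.inr (i, true, x, y))) := by
  intro x y h1 h2 h3 h4
  have hok : Mo.okV (Sum.inr (i, x, y)) := ⟨h1, h2, h3, h4⟩
  have := glue_dE_int Mo hM z i hok
  rw [hz] at this
  exact this.symm

theorem GlueE_xF_cell (c : (glue M Mo).F → ZMod 2) (i : Mo.I) {x y : ℕ} (hx : x < Mo.a i)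
    (hy : y < Mo.b i) : xF Mo c (Sum.inr (i, x, y)) = c ⟨Sum.inr (i, x, y), ⟨hx, hy⟩⟩ := by
  unfold xF
  rw [dif_pos]

theorem GlueE_xE (z : (glue M Mo).E → ZMod 2) (e : M.E ⊕ (Mo.I × Bool × ℕ × ℕ))
    (h : Mo.okE e) : xE Mo z e = z ⟨e, h⟩ := by
  unfold xE
  rw [dif_pos]

theorem GlueE_add_self (a : ZMod 2) : a + a = 0 := by
  rcases zmod2_cases a with h | h <;> rw [h] <;> decide

/-- the boundary of a chain is even: only `face_two` is used -/
theorem GlueE_ev {N : PC} (h2 : ∀ f v, N.At f v → ∃ e e', e ≠ e' ∧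
    ∀ d, (N.bd f d ∧ N.inc d v) ↔ d = e ∨ d = e') (c : N.F → ZMod 2) : N.Ev (N.dF c) := by
  intro v
  unfold PC.dE PC.dF
  simp only [Finset.sum_filter]
  have e1 : (∑ a, if N.inc a v then ∑ b, if N.bd b a then c b else 0 else 0) =
      ∑ a, ∑ b, if N.bd b a ∧ N.inc a v then c b else 0 := by
    refine Finset.sum_congr rfl fun a _ => ?_
    split_ifs with h
    · refine Finset.sum_congr rfl fun b _ => ?_
      simp [h]
    · simp [h]
  rw [e1, Finset.sum_comm]
  refine Finset.sum_eq_zero fun f _ => ?_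
  rw [← Finset.sum_filter]
  by_cases hf : N.At f v
  · obtain ⟨e, e', hne, he⟩ := h2 f v hf
    have : (univ.filter fun a => N.bd f a ∧ N.inc a v) = {e, e'} := by
      ext d
      simp only [mem_filter, mem_univ, true_and, mem_insert, mem_singleton]
      exact he d
    rw [this, Finset.sum_pair hne]
    exact GlueE_add_self _
  · refine Finset.sum_eq_zero fun d hd => ?_
    exact absurd ⟨d, (mem_filter.1 hd).2⟩ hf

/-- A chain which is given on the cells of each mouth by `P i` and is zero on the other faces has the boundary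
`z` on the interior edges, if `P i` fills the restriction of `z` (`glue_dF_h`, `glue_dF_v`). -/
theorem glue_fill (hM : M.IsSphere) {z : (glue M Mo).E → ZMod 2} (P : Mo.I → ℕ → ℕ → ZMod 2)
    (hP : ∀ i, GFill (Mo.a i) (Mo.b i) (fun x y => xE Mo z (Sum.inr (i, false, x, y)))
      (fun x y => xE Mo z (Sum.inr (i, true, x, y))) (P i)) :
    ∃ c : (glue M Mo).F → ZMod 2, (∀ f f', f.1 = Sum.inl f' → c f = 0) ∧
      (∀ f i x y, f.1 = Sum.inr (i, x, y) → c f = P i x y) ∧
      ∀ e p, e.1 = Sum.inr p → (glue M Mo).dF c e = z e := by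
  let c : (glue M Mo).F → ZMod 2 := fun f => match f.1 with
    | Sum.inl _ => 0
    | Sum.inr (i, x, y) => P i x y
  refine ⟨c, ?_, ?_, ?_⟩
  · intro f f' hf
    show (match f.1 with
    | Sum.inl _ => (0 : ZMod 2)
    | Sum.inr (i, x, y) => P i x y) = 0
    rw [hf]
  · intro f i x y hf
    show (match f.1 with
    | Sum.inl _ => (0 : ZMod 2)
    | Sum.inr (i, x, y) => P i x y) = P i x y
    rw [hf]
  · intro e p hep
    obtain ⟨e, he⟩ := e
    simp only at hep
    subst hep
    obtain ⟨i, b, x, y⟩ := p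
    have hc : ∀ x y, (hx : x < Mo.a i) → (hy : y < Mo.b i) →
        xF Mo c (Sum.inr (i, x, y)) = P i x y := by
      intro x y hx hy
      rw [GlueE_xF_cell Mo c i hx hy]
    cases b with
    | false =>
      have he' : x < Mo.a i ∧ 0 < y ∧ y < Mo.b i := he
      rw [glue_dF_h Mo hM c i he, hc _ _ he'.1 (by omega), hc _ _ he'.1 he'.2.2,
        (hP i).1 x y he'.1 he'.2.1 he'.2.2]
      exact GlueE_xE Mo z _ he
    | true =>
      have he' : 0 < x ∧ x < Mo.a i ∧ y < Mo.b i := he
      rw [glue_dF_v Mo hM c i he, hc _ _ (by omega) he'.2.2, hc _ _ he'.2.1 he'.2.2,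
        (hP i).2 x y he'.1 he'.2.1 he'.2.2]
      exact GlueE_xE Mo z _ he

/-- A chain `c'` of `M` whose boundary is zero on all edges which are not real is constant on every disc `i`: the boundary of the product `c i * c'` is supported
on `ge i`; it is even, so it has the same value `κ` on all `ge i t` (`gv_edges`); so `c i * c'` and `κ c i` have the same
boundary and are equal (`dF_inj`; both vanish on the faces not in the disc, which exist). -/
theorem disc_const (hM : M.IsSphere) (c' : M.F → ZMod 2)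
    (h : ∀ e, ¬ Mo.okE (Sum.inl e) → M.dF c' e = 0) (i : Mo.I) {f g : M.F} (hf : Mo.c i f ≠ 0)
    (hg : Mo.c i g ≠ 0) : c' f = c' g := by
  set p : M.F → ZMod 2 := fun f => Mo.c i f * c' f with hp
  -- the boundary of `p` is supported on the edges `ge i t`
  have h0 : ∀ e, M.dF (Mo.c i) e = 0 → M.dF p e = 0 := by
    intro e he
    obtain ⟨a, b, hab, hbd⟩ := hM.bd_two e
    have ha := (hbd a).2 (Or.inl rfl)
    have hb := (hbd b).2 (Or.inr rfl)
    have hcab : Mo.c i a = Mo.c i b := (dF_zero_iff hM (Mo.c i)).1 he a b ha hb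
    rw [dF_eq hM hab ha hb]
    show Mo.c i a * c' a + Mo.c i b * c' b = 0
    rcases zmod2_cases (Mo.c i a) with h1 | h1
    · rw [← hcab, h1]; simp
    · have hnok : ¬ Mo.okE (Sum.inl e) := by
        intro hok
        obtain ⟨d, hd, hd0⟩ := (real_edge_iff Mo hM e).1 hok i
        rcases (hbd d).1 hd with rfl | rfl
        · rw [h1] at hd0; exact one_ne_zero hd0
        · rw [← hcab, h1] at hd0; exact one_ne_zero hd0
      have := h e hnok
      rw [dF_eq hM hab ha hb] at this
      rw [← hcab, h1, one_mul, one_mul]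
      exact this
  have hev := ev_dF hM p
  have hn := n_ge Mo i
  have hstep : ∀ t, M.dF p (Mo.ge i (t + 1)) = M.dF p (Mo.ge i t) := by
    intro t
    have hne : Mo.ge i (t + 1) ≠ Mo.ge i (t + 1 + Mo.n i - 1) := by
      intro heq
      rw [ge_mod Mo i (t + 1), ge_mod Mo i (t + 1 + Mo.n i - 1)] at heq
      have e := ge_inj Mo hM i (Nat.mod_lt _ (by omega)) (Nat.mod_lt _ (by omega)) heq
      have e2 : Mo.n i ∣ (t + 1 + Mo.n i - 1) - (t + 1) := (Nat.modEq_iff_dvd' (by omega)).1 e
      have e3 : (t + 1 + Mo.n i - 1) - (t + 1) = Mo.n i - 1 := by omega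
      rw [e3] at e2
      have := Nat.le_of_dvd (by omega) e2
      omega
    have hs := hev (Mo.gv i (t + 1))
    unfold PC.dE at hs
    have hiff := gv_edges Mo hM i (t + 1)
    have hsub : ({Mo.ge i (t + 1), Mo.ge i (t + 1 + Mo.n i - 1)} : Finset M.E) ⊆
        univ.filter fun e => M.inc e (Mo.gv i (t + 1)) := by
      intro e he
      simp only [mem_insert, mem_singleton] at he
      rw [mem_filter]
      exact ⟨mem_univ _, ((hiff e).2 he).1⟩
    rw [← Finset.sum_subset hsub, Finset.sum_pair hne] at hs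
    · have e1 : Mo.ge i (t + 1 + Mo.n i - 1) = Mo.ge i t := by
        have : t + 1 + Mo.n i - 1 = t + 2 * (Mo.a i + Mo.b i) := by
          unfold Mouths.n at hn ⊢
          omega
        rw [this, Mo.ge_per]
      rw [e1] at hs
      rcases zmod2_cases (M.dF p (Mo.ge i (t + 1))) with h1 | h1 <;>
        rcases zmod2_cases (M.dF p (Mo.ge i t)) with h2 | h2 <;>
        rw [h1, h2] at hs ⊢ <;> (exfalso; revert hs; decide)
    · intro e he he2
      by_contra hne0
      apply he2
      simp only [mem_insert, mem_singleton]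
      refine (hiff e).1 ⟨(mem_filter.1 he).2, fun h1 => hne0 (h0 e h1)⟩
  have hall : ∀ t, M.dF p (Mo.ge i t) = M.dF p (Mo.ge i 0) := by
    intro t
    induction t with
    | zero => rfl
    | succ t ih => rw [hstep, ih]
  set κ := M.dF p (Mo.ge i 0) with hκ
  have heq : M.dF p = M.dF (fun f => κ * Mo.c i f) := by
    funext e
    have hr : M.dF (fun f => κ * Mo.c i f) e = κ * M.dF (Mo.c i) e := by
      unfold PC.dF
      rw [Finset.mul_sum]
    rw [hr]
    by_cases he : M.dF (Mo.c i) e = 0
    · rw [he, h0 e he, mul_zero]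
    · obtain ⟨t, rfl⟩ := (Mo.dc i e).1 he
      rw [zmod2_ne_zero.1 he, mul_one, hall]
  obtain ⟨_, g0, _, _, _, _, hg0⟩ := ge_faces Mo hM i 0
  have hpe : p = fun f => κ * Mo.c i f := by
    rcases dF_inj hM heq with h1 | h1
    · exact h1
    · exfalso
      have := congrFun h1 g0
      simp only [hp, Pi.add_apply, hg0, zero_mul, mul_zero, Pi.one_apply, zero_add] at this
      exact zero_ne_one this
  have hval : ∀ d, Mo.c i d ≠ 0 → c' d = κ := by
    intro d hd
    have := congrFun hpe d
    simp only [hp, zmod2_ne_zero.1 hd, one_mul, mul_one] at this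
    exact this
  rw [hval f hf, hval g hg]

/-- `h1` for the glued complex. Let `z` be even; let `c1` fill `z` in the caps (`grid_fill`, `glue_geven`, `glue_fill`);
`z' = z + dF c1` vanishes on the interior edges. The chain `z'' e = xE z' (inl e)` of `M` is even (`glue_dE_real` at real
vertices; at an interior vertex no edge is real), so `z'' = dF c'`, `c'` is constant on every disc (`disc_const`; the discs are
nonempty). Let `c2 (inl f) = c' f`, `c2` = value of `c'` on the disc `i` for the cells of the mouth `i`. Then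
`dF c2 = z'` (`glue_dF_real`, `glue_dF_h`, `glue_dF_v`), so `z = dF (c1 + c2)`. -/
theorem glue_h1 (hM : M.IsSphere) : ∀ z : (glue M Mo).E → ZMod 2, (glue M Mo).Ev z →
    ∃ c : (glue M Mo).F → ZMod 2, (glue M Mo).dF c = z := by
  intro z hz
  choose P hP using fun i => grid_fill (Mo.a i) (Mo.b i) _ _ (glue_geven Mo hM hz i)
  obtain ⟨c1, -, -, hc1⟩ := glue_fill Mo hM P hP
  set z' := z + (glue M Mo).dF c1 with hz'
  have hz'0 : ∀ (e : (glue M Mo).E) p, e.1 = Sum.inr p → z' e = 0 := by
    intro e p hep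
    show z e + (glue M Mo).dF c1 e = 0
    rw [hc1 e p hep]
    exact GlueE_add_self _
  have hev' : (glue M Mo).Ev z' := ev_add hz (GlueE_ev (glue_face_two Mo hM) c1)
  set w : M.E → ZMod 2 := fun e => xE Mo z' (Sum.inl e) with hw
  have hwev : M.Ev w := by
    intro v
    by_cases hv : v ∈ Mo.Real
    · have := glue_dE_real Mo hM z' hz'0 (x := v) hv
      rw [hev'] at this
      exact this.symm
    · unfold PC.dE
      refine Finset.sum_eq_zero fun e he => ?_
      have hnok : ¬ Mo.okE (Sum.inl e) := fun hok => hv (hok v (mem_filter.1 he).2)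
      show xE Mo z' (Sum.inl e) = 0
      unfold xE
      rw [dif_neg hnok]
  obtain ⟨c', hc'⟩ := hM.h1 w hwev
  have hconst : ∀ i {f g : M.F}, Mo.c i f ≠ 0 → Mo.c i g ≠ 0 → c' f = c' g := by
    intro i f g hf hg
    refine disc_const Mo hM c' ?_ i hf hg
    intro e hnok
    rw [hc']
    show xE Mo z' (Sum.inl e) = 0
    unfold xE
    rw [dif_neg hnok]
  have hφ : ∀ i, ∃ f, Mo.c i f ≠ 0 := by
    intro i
    obtain ⟨f, _, _, _, _, hf, _⟩ := ge_faces Mo hM i 0
    exact ⟨f, by rw [hf]; exact one_ne_zero⟩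
  choose φ hφ using hφ
  let c2 : (glue M Mo).F → ZMod 2 := fun f => match f.1 with
    | Sum.inl f' => c' f'
    | Sum.inr (i, _, _) => c' (φ i)
  have hcell : ∀ i x y, x < Mo.a i → y < Mo.b i →
      xF Mo c2 (Sum.inr (i, x, y)) = c' (φ i) := by
    intro i x y hx hy
    rw [GlueE_xF_cell Mo c2 i hx hy]
  have hside : ∀ {e : M.E}, Mo.okE (Sum.inl e) → ∀ {f : M.F}, M.bd f e →
      side Mo c2 e f = c' f := by
    intro e he f hf
    by_cases hd : ∀ i, Mo.c i f = 0
    · rw [side_out Mo c2 e hd]
      unfold xF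
      rw [dif_pos (show Mo.okF (Sum.inl f) from hd)]
    · push Not at hd
      obtain ⟨i, hi⟩ := hd
      obtain ⟨t, ht, rfl⟩ := real_edge_ge Mo hM he hf hi
      rw [side_in Mo hM c2 ht hi]
      have hb : 1 ≤ Mo.b i := le_trans (Mo.ha i) (Mo.hab i)
      have hbc := bcell_lt (Mo.ha i) hb (t := t) ht
      have := hcell i _ _ hbc.1 hbc.2
      rw [Prod.mk.eta] at this
      rw [this]
      exact hconst i (hφ i) hi
  have hc2 : (glue M Mo).dF c2 = z' := by
    funext e
    obtain ⟨e, he⟩ := e
    rcases e with e | ⟨i, b, x, y⟩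
    · obtain ⟨f, g, hfg, hbd⟩ := hM.bd_two e
      have hf := (hbd f).2 (Or.inl rfl)
      have hg := (hbd g).2 (Or.inr rfl)
      rw [glue_dF_real Mo hM c2 he hfg hf hg, hside he hf, hside he hg, ← dF_eq hM hfg hf hg, hc']
      exact GlueE_xE Mo z' _ he
    · rw [hz'0 ⟨Sum.inr (i, b, x, y), he⟩ _ rfl]
      cases b with
      | false =>
        have he' : x < Mo.a i ∧ 0 < y ∧ y < Mo.b i := he
        rw [glue_dF_h Mo hM c2 i he, hcell _ _ _ he'.1 (by omega), hcell _ _ _ he'.1 he'.2.2]
        exact GlueE_add_self _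
      | true =>
        have he' : 0 < x ∧ x < Mo.a i ∧ y < Mo.b i := he
        rw [glue_dF_v Mo hM c2 i he, hcell _ _ _ (by omega) he'.2.2, hcell _ _ _ he'.2.1 he'.2.2]
        exact GlueE_add_self _
  refine ⟨c1 + c2, ?_⟩
  rw [dF_add, hc2, hz']
  funext e
  show (glue M Mo).dF c1 e + (z e + (glue M Mo).dF c1 e) = z e
  have : (glue M Mo).dF c1 e + (z e + (glue M Mo).dF c1 e) =
      z e + ((glue M Mo).dF c1 e + (glue M Mo).dF c1 e) := by ring
  rw [this, GlueE_add_self, add_zero]

/-- The glued complex is a sphere (put together `glue_inc_two`, `glue_bd_two`, `glue_face_two`, `glue_face_ne`,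
`glue_face_cyc`, `glue_conn`, `glue_nonempty`, `glue_star_int`, `glue_star_real`, `glue_h1`). -/
theorem glue_sphere : GlueSphereStmt := by
  intro M hM Mo
  exact {
    inc_two := glue_inc_two Mo hM
    bd_two := glue_bd_two Mo hM
    face_two := glue_face_two Mo hM
    face_ne := glue_face_ne Mo hM
    face_cyc := glue_face_cyc Mo hM
    conn := glue_conn Mo hM
    nonempty := glue_nonempty Mo hM
    star := by
      intro v c hc
      rcases hv : v.1 with x | q
      · exact glue_star_real Mo hM v hv c hc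
      · exact glue_star_int Mo hM v hv c hc
    h1 := glue_h1 Mo hM }

theorem GlueE_ge_ne (hM : M.IsSphere) (i : Mo.I) (t : ℕ) :
    Mo.ge i t ≠ Mo.ge i (t + Mo.n i - 1) := by
  have hn := n_ge Mo i
  intro heq
  rw [ge_mod Mo i t, ge_mod Mo i (t + Mo.n i - 1)] at heq
  have e := ge_inj Mo hM i (Nat.mod_lt _ (by omega)) (Nat.mod_lt _ (by omega)) heq
  have e2 : Mo.n i ∣ (t + Mo.n i - 1) - t := (Nat.modEq_iff_dvd' (by omega)).1 e
  have e3 : (t + Mo.n i - 1) - t = Mo.n i - 1 := by omega
  rw [e3] at e2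
  have := Nat.le_of_dvd (by omega) e2
  omega

theorem GlueE_end {i : Mo.I} {b : Bool} {p q : ℕ} (hok : Mo.okE (Sum.inr (i, b, p, q))) {x : M.V}
    (h : Mo.rinc (Sum.inr (i, b, p, q)) (Sum.inl x)) : ∃ X Y, X ≤ Mo.a i ∧ Y ≤ Mo.b i ∧
      ¬ (0 < X ∧ X < Mo.a i ∧ 0 < Y ∧ Y < Mo.b i) ∧ Mo.gp i X Y = Sum.inl x ∧
      ((b = false ∧ q = Y ∧ (p = X ∨ p + 1 = X) ∧ p < Mo.a i ∧ 0 < q ∧ q < Mo.b i) ∨
       (b = true ∧ p = X ∧ (q = Y ∨ q + 1 = Y) ∧ 0 < p ∧ p < Mo.a i ∧ q < Mo.b i)) := by
  have key : ∀ X Y, Sum.inl x = Mo.gp i X Y →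
      ¬ (0 < X ∧ X < Mo.a i ∧ 0 < Y ∧ Y < Mo.b i) := by
    intro X Y h1 h2
    rw [gp_int Mo i h2] at h1
    exact absurd h1 (by simp)
  cases b with
  | false =>
    have hok' : p < Mo.a i ∧ 0 < q ∧ q < Mo.b i := hok
    rcases h with h | h
    · exact ⟨p, q, by omega, by omega, key _ _ h, h.symm, Or.inl ⟨rfl, rfl, Or.inl rfl, hok'⟩⟩
    · exact ⟨p + 1, q, by omega, by omega, key _ _ h, h.symm,
        Or.inl ⟨rfl, rfl, Or.inr rfl, hok'⟩⟩
  | true =>
    have hok' : 0 < p ∧ p < Mo.a i ∧ q < Mo.b i := hok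
    rcases h with h | h
    · exact ⟨p, q, by omega, by omega, key _ _ h, h.symm, Or.inr ⟨rfl, rfl, Or.inl rfl, hok'⟩⟩
    · exact ⟨p, q + 1, by omega, by omega, key _ _ h, h.symm,
        Or.inr ⟨rfl, rfl, Or.inr rfl, hok'⟩⟩

theorem GlueE_gp_eq {i j : Mo.I} {X Y p q : ℕ} (h : Sum.inr (i, X, Y) = Mo.gp j p q) :
    i = j ∧ X = p ∧ Y = q := by
  unfold Mouths.gp at h
  split_ifs at h with h1
  simp only [Sum.inr.injEq, Prod.mk.injEq] at h
  exact h

/-- Degrees. Interior grid vertices have the four edges `he (x-1) y`, `he x y`, `ve x (y-1)`, `ve x y`. At a real vertex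
there are the real edges at `x` and for each mouth with `x = gv i t` at most one interior grid edge (the boundary point
`bpt t` is on at most one interior grid edge). -/
theorem glue_deg : GlueDegStmt := by
  intro M hM Mo v
  refine ⟨?_, ?_⟩
  · intro x hv
    set A := univ.filter fun e : (glue M Mo).E => (glue M Mo).inc e v ∧ ∃ e', e.1 = Sum.inl e'
      with hA
    set B := univ.filter fun e : (glue M Mo).E => (glue M Mo).inc e v ∧ ∃ e', e.1 = Sum.inr e'
      with hB
    have hAB : (univ.filter fun e : (glue M Mo).E => (glue M Mo).inc e v) ⊆ A ∪ B := by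
      intro e he
      have he' := (mem_filter.1 he).2
      rw [mem_union, hA, hB, mem_filter, mem_filter]
      rcases h : e.1 with e' | e'
      · exact Or.inl ⟨mem_univ _, he', e', rfl⟩
      · exact Or.inr ⟨mem_univ _, he', e', rfl⟩
    have hinc : ∀ e : (glue M Mo).E, (glue M Mo).inc e v → Mo.rinc e.1 (Sum.inl x) := by
      intro e he
      rw [← hv]
      exact he
    have h1 : A.card ≤ M.deg x := by
      unfold PC.deg
      have hex : ∀ e ∈ A, ∃ e', e.1 = Sum.inl e' ∧ M.inc e' x := by
        intro e he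
        rw [hA, mem_filter] at he
        obtain ⟨_, he1, e', he2⟩ := he
        have := hinc e he1
        rw [he2] at this
        obtain ⟨x', hx', hxx⟩ := this
        have : x = x' := Sum.inl.inj hxx
        exact ⟨e', he2, this ▸ hx'⟩
      rcases A.eq_empty_or_nonempty with hemp | ⟨e0, he0⟩
      · rw [hemp]; simp
      have : Nonempty M.E := ⟨(hex e0 he0).choose⟩
      choose! φ hφ using hex
      refine Finset.card_le_card_of_injOn φ ?_ ?_
      · intro e he
        simp only [coe_filter, mem_univ, true_and, Set.mem_ofPred_eq]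
        exact (hφ e he).2
      · intro e he e2 he2 heq
        apply Subtype.ext
        rw [(hφ e he).1, (hφ e2 he2).1, heq]
    have h2 : B.card ≤ (univ.filter fun i => ∃ t, Mo.gv i t = x).card := by
      have hex : ∀ e ∈ B, ∃ i : Mo.I, ∃ (b : Bool) (p q : ℕ), e.1 = Sum.inr (i, b, p, q) := by
        intro e he
        rw [hB, mem_filter] at he
        obtain ⟨_, _, ⟨i, b, p, q⟩, he2⟩ := he
        exact ⟨i, b, p, q, he2⟩
      rcases B.eq_empty_or_nonempty with hemp | ⟨e0, he0⟩
      · rw [hemp]; simp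
      have : Nonempty Mo.I := ⟨(hex e0 he0).choose⟩
      choose! φ hφ using hex
      have hend : ∀ e ∈ B, ∀ b p q, e.1 = Sum.inr (φ e, b, p, q) →
          Mo.okE (Sum.inr (φ e, b, p, q)) ∧ Mo.rinc (Sum.inr (φ e, b, p, q)) (Sum.inl x) := by
        intro e he b p q hb
        have h3 := e.2
        rw [hB, mem_filter] at he
        have h4 := hinc e he.2.1
        rw [hb] at h3 h4
        exact ⟨h3, h4⟩
      refine Finset.card_le_card_of_injOn φ ?_ ?_
      · intro e he
        simp only [coe_filter, mem_univ, true_and, Set.mem_ofPred_eq]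
        obtain ⟨b, p, q, hb⟩ := hφ e he
        obtain ⟨h3, h4⟩ := hend e he b p q hb
        obtain ⟨X, Y, hX, hY, _, hg, _⟩ := GlueE_end Mo h3 h4
        obtain ⟨t, _, ht, _⟩ := gp_real Mo _ hX hY hg
        exact ⟨t, ht⟩
      · intro e he e2 he2 heq
        obtain ⟨b, p, q, hb⟩ := hφ e he
        obtain ⟨b', p', q', hb'⟩ := hφ e2 he2
        obtain ⟨h3, h4⟩ := hend e he b p q hb
        obtain ⟨h3', h4'⟩ := hend e2 he2 b' p' q' hb'
        rw [← heq] at hb' h3' h4'
        obtain ⟨X, Y, hX, hY, hn, hg, hc⟩ := GlueE_end Mo h3 h4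
        obtain ⟨X', Y', hX', hY', hn', hg', hc'⟩ := GlueE_end Mo h3' h4'
        obtain ⟨rfl, rfl⟩ := gp_inj Mo _ hX hY hX' hY' (hg.trans hg'.symm)
        have hbb : b = b' ∧ p = p' ∧ q = q' := by
          rcases hc with ⟨rfl, c1⟩ | ⟨rfl, c1⟩ <;> rcases hc' with ⟨rfl, c2⟩ | ⟨rfl, c2⟩
          · exact ⟨rfl, by omega, by omega⟩
          · exfalso; omega
          · exfalso; omega
          · exact ⟨rfl, by omega, by omega⟩
        obtain ⟨rfl, rfl, rfl⟩ := hbb
        apply Subtype.ext
        rw [hb, hb']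
    calc (glue M Mo).deg v ≤ (A ∪ B).card := Finset.card_le_card hAB
      _ ≤ A.card + B.card := Finset.card_union_le _ _
      _ ≤ _ := Nat.add_le_add h1 h2
  · rintro ⟨i, X, Y⟩ hv
    have hok := v.2
    rw [hv] at hok
    have hok' : 0 < X ∧ X < Mo.a i ∧ 0 < Y ∧ Y < Mo.b i := hok
    have o1 : Mo.okE (Sum.inr (i, false, X - 1, Y)) := ⟨by omega, by omega, by omega⟩
    have o2 : Mo.okE (Sum.inr (i, false, X, Y)) := ⟨by omega, by omega, by omega⟩
    have o3 : Mo.okE (Sum.inr (i, true, X, Y - 1)) := ⟨by omega, by omega, by omega⟩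
    have o4 : Mo.okE (Sum.inr (i, true, X, Y)) := ⟨by omega, by omega, by omega⟩
    have hgp : Mo.gp i X Y = Sum.inr (i, X, Y) := gp_int Mo i hok'
    let e1 : (glue M Mo).E := ⟨_, o1⟩
    let e2 : (glue M Mo).E := ⟨_, o2⟩
    let e3 : (glue M Mo).E := ⟨_, o3⟩
    let e4 : (glue M Mo).E := ⟨_, o4⟩
    have hset : (univ.filter fun e : (glue M Mo).E => (glue M Mo).inc e v) = {e1, e2, e3, e4} := by
      ext e
      simp only [mem_filter, mem_univ, true_and, mem_insert, mem_singleton]
      have hr : (glue M Mo).inc e v ↔ Mo.rinc e.1 (Sum.inr (i, X, Y)) := by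
        rw [← hv]; exact Iff.rfl
      rw [hr]
      constructor
      · intro h
        obtain ⟨e, he⟩ := e
        rcases e with e | ⟨j, b, p, q⟩
        · obtain ⟨x, _, hx⟩ := h
          exact absurd hx (by simp)
        · cases b with
          | false =>
            rcases h with h | h
            · obtain ⟨rfl, rfl, rfl⟩ := GlueE_gp_eq Mo h
              exact Or.inr (Or.inl rfl)
            · obtain ⟨rfl, hX, rfl⟩ := GlueE_gp_eq Mo h
              left
              apply Subtype.ext
              show Sum.inr (i, false, p, Y) = Sum.inr (i, false, X - 1, Y)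
              have : X - 1 = p := by omega
              rw [this]
          | true =>
            rcases h with h | h
            · obtain ⟨rfl, rfl, rfl⟩ := GlueE_gp_eq Mo h
              exact Or.inr (Or.inr (Or.inr rfl))
            · obtain ⟨rfl, rfl, hY⟩ := GlueE_gp_eq Mo h
              right; right; left
              apply Subtype.ext
              show Sum.inr (i, true, X, q) = Sum.inr (i, true, X, Y - 1)
              have : Y - 1 = q := by omega
              rw [this]
      · rintro (rfl | rfl | rfl | rfl)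
        · right
          show Sum.inr (i, X, Y) = Mo.gp i (X - 1 + 1) Y
          have : X - 1 + 1 = X := by omega
          rw [this, hgp]
        · left
          show Sum.inr (i, X, Y) = Mo.gp i X Y
          rw [hgp]
        · right
          show Sum.inr (i, X, Y) = Mo.gp i X (Y - 1 + 1)
          have : Y - 1 + 1 = Y := by omega
          rw [this, hgp]
        · left
          show Sum.inr (i, X, Y) = Mo.gp i X Y
          rw [hgp]
    have n12 : e1 ≠ e2 := by
      intro h
      have := congrArg Subtype.val h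
      simp only [e1, e2, Sum.inr.injEq, Prod.mk.injEq, true_and, and_true] at this
      omega
    have n13 : e1 ≠ e3 := by
      intro h
      have := congrArg Subtype.val h
      simp [e1, e3] at this
    have n14 : e1 ≠ e4 := by
      intro h
      have := congrArg Subtype.val h
      simp [e1, e4] at this
    have n23 : e2 ≠ e3 := by
      intro h
      have := congrArg Subtype.val h
      simp [e2, e3] at this
    have n24 : e2 ≠ e4 := by
      intro h
      have := congrArg Subtype.val h
      simp [e2, e4] at this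
    have n34 : e3 ≠ e4 := by
      intro h
      have := congrArg Subtype.val h
      simp only [e3, e4, Sum.inr.injEq, Prod.mk.injEq, true_and] at this
      omega
    unfold PC.deg
    rw [hset, card_insert_of_notMem (by simp [n12, n13, n14]),
      card_insert_of_notMem (by simp [n23, n24]), card_insert_of_notMem (by simp [n34]),
      card_singleton]

/-- the number of mouths at a vertex is at most its degree (each mouth at `x = gv i t` has its own
face at `x`, and the edge `ge i t` of this face determines at most two mouths; simpler: map the mouth `i` to the edge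
`ge i t` with the face on the side of the disc... an edge `e` at `x` is `ge i t` with `gv i t = x` for at most
two `i`, `ge i (t + n - 1)` for at most two `i`, in total it is on at most two mouths, and every mouth at `x` has two
edges at `x`). -/
theorem mouths_at (hM : M.IsSphere) (x : M.V) :
    (univ.filter fun i => ∃ t, Mo.gv i t = x).card ≤ M.deg x := by
  unfold PC.deg
  have key := Finset.card_mul_le_card_mul (s := univ.filter fun i => ∃ t, Mo.gv i t = x)
    (t := univ.filter fun e => M.inc e x) (m := 2) (n := 2)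
    (fun i e => M.dF (Mo.c i) e ≠ 0) ?_ ?_
  · omega
  · intro i hi
    obtain ⟨t, ht⟩ := (mem_filter.1 hi).2
    have hsub : ({Mo.ge i t, Mo.ge i (t + Mo.n i - 1)} : Finset M.E) ⊆
        Finset.bipartiteAbove (fun i e => M.dF (Mo.c i) e ≠ 0) (univ.filter fun e => M.inc e x)
          i := by
      intro e he
      simp only [mem_insert, mem_singleton] at he
      have := (gv_edges Mo hM i t e).2 he
      rw [ht] at this
      rw [Finset.mem_bipartiteAbove, mem_filter]
      exact ⟨⟨mem_univ _, this.1⟩, this.2⟩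
    calc 2 = ({Mo.ge i t, Mo.ge i (t + Mo.n i - 1)} : Finset M.E).card :=
          (Finset.card_pair (GlueE_ge_ne Mo hM i t)).symm
      _ ≤ _ := Finset.card_le_card hsub
  · intro e _
    obtain ⟨a, b, hab, hbd⟩ := hM.bd_two e
    have ha := (hbd a).2 (Or.inl rfl)
    have hb := (hbd b).2 (Or.inr rfl)
    have hsub : Finset.bipartiteBelow (fun i e => M.dF (Mo.c i) e ≠ 0)
        (univ.filter fun i => ∃ t, Mo.gv i t = x) e ⊆
        (univ.filter fun i => Mo.c i a ≠ 0) ∪ (univ.filter fun i => Mo.c i b ≠ 0) := by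
      intro i hi
      rw [Finset.mem_bipartiteBelow] at hi
      rw [mem_union, mem_filter, mem_filter]
      by_contra hcon
      push Not at hcon
      apply hi.2
      rw [dF_eq hM hab ha hb, hcon.1 (mem_univ _), hcon.2 (mem_univ _), add_zero]
    have hone : ∀ f : M.F, (univ.filter fun i => Mo.c i f ≠ 0).card ≤ 1 := by
      intro f
      rw [Finset.card_le_one]
      intro i hi j hj
      exact Mo.disj i j f (mem_filter.1 hi).2 (mem_filter.1 hj).2
    calc _ ≤ _ := Finset.card_le_card hsub
      _ ≤ _ := Finset.card_union_le _ _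
      _ ≤ 1 + 1 := Nat.add_le_add (hone a) (hone b)

end Pool.Agent.H.MP_c8cc4c_co
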