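import Mathlib
import Pool.Agent.H.MP_c8cc4c_co.G.Grid2

/-! # MP_c8cc4c_co, part G, file 3: the crossing lemma in the grid -/

open scoped Classical
open Finset

noncomputable section

namespace Pool.Agent.H.MP_c8cc4c_co

/-- interior horizontal edges of the path `p 0, ..., p L` -/
def pathH (p : ℕ → ℕ × ℕ) (L : ℕ) (x y : ℕ) : ZMod 2 :=
  if ∃ i < L, (p i = (x, y) ∧ p (i + 1) = (x + 1, y)) ∨ (p (i + 1) = (x, y) ∧ p i = (x + 1, y))
  then 1 else 0

/-- interior vertical edges of the path -/
def pathV (p : ℕ → ℕ × ℕ) (L : ℕ) (x y : ℕ) : ZMod 2 :=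
  if ∃ i < L, (p i = (x, y) ∧ p (i + 1) = (x, y + 1)) ∨ (p (i + 1) = (x, y) ∧ p i = (x, y + 1))
  then 1 else 0

/-- A crosscut of the grid: an injective path of length `L ≥ 2` from the boundary point `s` to the boundary
point `t`, interior points in the interior. -/
structure Crosscut (a b s t L : ℕ) (p : ℕ → ℕ × ℕ) : Prop where
  hL : 2 ≤ L
  h0 : p 0 = bpt a b s
  h1 : p L = bpt a b t
  adj : ∀ i < L, gd (p i) (p (i + 1)) = 1
  inj : ∀ i j, i ≤ L → j ≤ L → p i = p j → i = j
  int : ∀ i, 0 < i → i < L → 0 < (p i).1 ∧ (p i).1 < a ∧ 0 < (p i).2 ∧ (p i).2 < b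

/-- `v` and `w` are consecutive on the path -/
def Cons3 (p : ℕ → ℕ × ℕ) (L : ℕ) (v w : ℕ × ℕ) : Prop :=
  ∃ i < L, (p i = v ∧ p (i + 1) = w) ∨ (p (i + 1) = v ∧ p i = w)

theorem grid3_comm {p : ℕ → ℕ × ℕ} {L : ℕ} {v w : ℕ × ℕ} : Cons3 p L v w ↔ Cons3 p L w v := by
  unfold Cons3
  constructor
  · rintro ⟨i, hi, h | h⟩
    · exact ⟨i, hi, Or.inr ⟨h.2, h.1⟩⟩
    · exact ⟨i, hi, Or.inl ⟨h.2, h.1⟩⟩
  · rintro ⟨i, hi, h | h⟩
    · exact ⟨i, hi, Or.inr ⟨h.2, h.1⟩⟩
    · exact ⟨i, hi, Or.inl ⟨h.2, h.1⟩⟩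

theorem grid3_H (p : ℕ → ℕ × ℕ) (L x y : ℕ) :
    pathH p L x y = if Cons3 p L (x, y) (x + 1, y) then 1 else 0 := by
  unfold pathH
  by_cases h : Cons3 p L (x, y) (x + 1, y)
  · rw [if_pos h]
    exact if_pos h
  · rw [if_neg h]
    exact if_neg h

theorem grid3_V (p : ℕ → ℕ × ℕ) (L x y : ℕ) :
    pathV p L x y = if Cons3 p L (x, y) (x, y + 1) then 1 else 0 := by
  unfold pathV
  by_cases h : Cons3 p L (x, y) (x, y + 1)
  · rw [if_pos h]
    exact if_pos h
  · rw [if_neg h]
    exact if_neg h

theorem grid3_on {p : ℕ → ℕ × ℕ} {L : ℕ} {v w : ℕ × ℕ} (h : Cons3 p L v w) :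
    (∃ i ≤ L, p i = v) ∧ ∃ i ≤ L, p i = w := by
  obtain ⟨i, hi, h | h⟩ := h
  · exact ⟨⟨i, hi.le, h.1⟩, ⟨i + 1, hi, h.2⟩⟩
  · exact ⟨⟨i + 1, hi, h.1⟩, ⟨i, hi.le, h.2⟩⟩

/-- the neighbours on the path of an interior point of the path -/
theorem grid3_nb {p : ℕ → ℕ × ℕ} {L : ℕ} (inj : ∀ i j, i ≤ L → j ≤ L → p i = p j → i = j)
    {k : ℕ} (hk : 0 < k) (hkL : k < L) (w : ℕ × ℕ) :
    Cons3 p L (p k) w ↔ (w = p (k - 1) ∨ w = p (k + 1)) := by
  constructor
  · rintro ⟨i, hi, h | h⟩
    · have := inj i k hi.le hkL.le h.1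
      subst this
      exact Or.inr h.2.symm
    · have := inj (i + 1) k hi hkL.le h.1
      subst this
      exact Or.inl h.2.symm
  · rintro (h | h)
    · refine ⟨k - 1, by omega, Or.inr ⟨?_, h.symm⟩⟩
      rw [Nat.sub_add_cancel hk]
    · exact ⟨k, hkL, Or.inl ⟨rfl, h.symm⟩⟩

theorem grid3_four {x y : ℕ} (hx : 0 < x) (hy : 0 < y) {A : ℕ × ℕ} (h : gd (x, y) A = 1) :
    A = (x - 1, y) ∨ A = (x + 1, y) ∨ A = (x, y - 1) ∨ A = (x, y + 1) := by
  obtain ⟨u, v⟩ := A
  unfold gd at h
  simp only [] at h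
  simp only [Prod.mk.injEq]
  omega

/-- The chain of a crosscut is even at every interior vertex: no edge of the path is at a vertex not on the path; at
`p i`, `0 < i < L`, exactly the two edges to `p (i-1)` and `p (i+1)`, which are different. -/
theorem crosscut_even {a b s t L : ℕ} {p : ℕ → ℕ × ℕ} (h : Crosscut a b s t L p) (hs : s < 2 * (a + b))
    (ht : t < 2 * (a + b)) : GEven a b (pathH p L) (pathV p L) := by
  intro x y hx hxa hy hyb
  have inj := h.inj
  rw [grid3_H, grid3_H, grid3_V, grid3_V, Nat.sub_add_cancel hx, Nat.sub_add_cancel hy]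
  rw [grid3_comm (v := (x - 1, y)), grid3_comm (v := (x, y - 1))]
  by_cases hon : ∃ i ≤ L, p i = (x, y)
  · obtain ⟨k, hk, hpk⟩ := hon
    have hk0 : 0 < k := by
      rcases Nat.eq_zero_or_pos k with h0 | h0
      · exfalso
        subst h0
        rw [h.h0] at hpk
        have hb1 : onBd a b (bpt a b s).1 (bpt a b s).2 := bpt_le (by omega) (by omega) hs
        rw [hpk] at hb1
        exact hb1.2.2 ⟨hx, hxa, hy, hyb⟩
      · exact h0
    have hkL : k < L := by
      rcases Nat.lt_or_ge k L with h0 | h0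
      · exact h0
      · exfalso
        have : k = L := le_antisymm hk h0
        subst this
        rw [h.h1] at hpk
        have hb1 : onBd a b (bpt a b t).1 (bpt a b t).2 := bpt_le (by omega) (by omega) ht
        rw [hpk] at hb1
        exact hb1.2.2 ⟨hx, hxa, hy, hyb⟩
    rw [← hpk]
    simp only [grid3_nb inj hk0 hkL]
    have hA : gd (x, y) (p (k - 1)) = 1 := by
      rw [← hpk, gd_comm]
      have := h.adj (k - 1) (by omega)
      rwa [Nat.sub_add_cancel hk0] at this
    have hB : gd (x, y) (p (k + 1)) = 1 := by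
      rw [← hpk]
      exact h.adj k hkL
    have hAB : p (k - 1) ≠ p (k + 1) := by
      intro he
      have := inj _ _ (by omega) (by omega) he
      omega
    have d1 : x - 1 ≠ x := by omega
    have d2 : x - 1 ≠ x + 1 := by omega
    have d3 : y - 1 ≠ y := by omega
    have d4 : y - 1 ≠ y + 1 := by omega
    rcases grid3_four hx hy hA with e | e | e | e <;> rcases grid3_four hx hy hB with e' | e' | e' | e' <;>
      rw [e, e'] at hAB ⊢ <;>
      first
        | exact absurd rfl hAB
        | (simp only [Prod.mk.injEq, d1, d2, d3, d4, d1.symm, d2.symm, d3.symm, d4.symm, and_true,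
            and_false, true_and, false_and, or_true, or_false, true_or, false_or, if_true, if_false,
            and_self, or_self, Nat.succ_ne_self, (Nat.succ_ne_self _).symm]
           decide)
  · push Not at hon
    have e1 : ∀ w, ¬ Cons3 p L (x, y) w := by
      intro w hw
      obtain ⟨⟨i, hi, hp⟩, -⟩ := grid3_on hw
      exact hon i hi hp
    rw [if_neg (e1 _), if_neg (e1 _), if_neg (e1 _), if_neg (e1 _)]
    simp

/-- At a boundary point `v` with only one possible inner neighbour `w`. -/
theorem grid3_bd {a b s t L : ℕ} {p : ℕ → ℕ × ℕ} (h : Crosscut a b s t L p) {v w : ℕ × ℕ}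
    (hv : ¬ (0 < v.1 ∧ v.1 < a ∧ 0 < v.2 ∧ v.2 < b))
    (hw : ∀ z : ℕ × ℕ, gd v z = 1 → 0 < z.1 → z.1 < a → 0 < z.2 → z.2 < b → z = w) :
    Cons3 p L v w ↔ (bpt a b s = v ∨ bpt a b t = v) := by
  have hL := h.hL
  constructor
  · rintro ⟨i, hi, h1 | h1⟩
    · rcases Nat.eq_zero_or_pos i with h0 | h0
      · subst h0
        left
        rw [← h.h0, h1.1]
      · have := h.int i h0 hi
        rw [h1.1] at this
        exact absurd this hv
    · rcases Nat.eq_or_lt_of_le (show i + 1 ≤ L from hi) with h0 | h0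
      · right
        rw [← h.h1, ← h0, h1.1]
      · have := h.int (i + 1) (by omega) h0
        rw [h1.1] at this
        exact absurd this hv
  · rintro (h1 | h1)
    · refine ⟨0, by omega, Or.inl ⟨by rw [h.h0, h1], ?_⟩⟩
      have hi := h.int 1 (by omega) (by omega)
      have hg := h.adj 0 (by omega)
      rw [h.h0, h1, zero_add] at hg
      rw [zero_add]
      exact hw _ hg hi.1 hi.2.1 hi.2.2.1 hi.2.2.2
    · refine ⟨L - 1, by omega, Or.inr ⟨by rw [Nat.sub_add_cancel (by omega), h.h1, h1], ?_⟩⟩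
      have hi := h.int (L - 1) (by omega) (by omega)
      have hg := h.adj (L - 1) (by omega)
      rw [Nat.sub_add_cancel (by omega), h.h1, h1, gd_comm] at hg
      exact hw _ hg hi.1 hi.2.1 hi.2.2.1 hi.2.2.2

/-- A crosscut does not start or end at a point without inner neighbour. -/
theorem grid3_corner {a b s t L : ℕ} {p : ℕ → ℕ × ℕ} (h : Crosscut a b s t L p) {v : ℕ × ℕ}
    (hw : ∀ z : ℕ × ℕ, gd v z = 1 → 0 < z.1 → z.1 < a → 0 < z.2 → z.2 < b → False) :
    ¬ (bpt a b s = v ∨ bpt a b t = v) := by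
  have hL := h.hL
  rintro (h1 | h1)
  · have hi := h.int 1 (by omega) (by omega)
    have hg := h.adj 0 (by omega)
    rw [h.h0, h1, zero_add] at hg
    exact hw _ hg hi.1 hi.2.1 hi.2.2.1 hi.2.2.2
  · have hi := h.int (L - 1) (by omega) (by omega)
    have hg := h.adj (L - 1) (by omega)
    rw [Nat.sub_add_cancel (by omega), h.h1, h1, gd_comm] at hg
    exact hw _ hg hi.1 hi.2.1 hi.2.2.1 hi.2.2.2

theorem grid3_ne {x y : ZMod 2} {q : Prop} [Decidable q] (h : y + x = if q then 1 else 0) :
    x ≠ y ↔ q := by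
  by_cases hq : q
  · rw [if_pos hq] at h
    simp only [hq, iff_true]
    revert h
    revert x y
    decide
  · rw [if_neg hq] at h
    simp only [hq, iff_false, not_not]
    revert h
    revert x y
    decide

theorem grid3_bpt_inj {a b s u : ℕ} (ha : 1 ≤ a) (hb : 1 ≤ b) (hs : s < 2 * (a + b))
    (hu : u < 2 * (a + b)) : bpt a b s = bpt a b u ↔ u = s := by
  constructor
  · intro h
    have h1 := bix_bpt ha hb hs
    have h2 := bix_bpt ha hb hu
    rw [h] at h1
    omega
  · rintro rfl
    rfl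

/-- A crosscut does not start or end at a corner, and at its start the interior edge at the boundary point `s` is
in the chain; at the other boundary points (except `t`) the interior edge is not in the chain. In terms of a fill `P`: the
values of the boundary cells at the boundary edges `u - 1` and `u` (cyclically) differ exactly for `u = s` and `u = t`. (At a corner the
two boundary cells are the same cell; at another boundary point they are separated by one interior edge.) -/
theorem crosscut_bd {a b s t L : ℕ} {p : ℕ → ℕ × ℕ} (h : Crosscut a b s t L p) (ha : 1 ≤ a)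
    (hb : 1 ≤ b) (hs : s < 2 * (a + b)) (ht : t < 2 * (a + b)) {P : ℕ → ℕ → ZMod 2}
    (hP : GFill a b (pathH p L) (pathV p L) P) {u : ℕ} (hu : u < 2 * (a + b)) :
    P (bcell a b u).1 (bcell a b u).2 ≠
      P (bcell a b ((u + 2 * (a + b) - 1) % (2 * (a + b)))).1
        (bcell a b ((u + 2 * (a + b) - 1) % (2 * (a + b)))).2 ↔ u = s ∨ u = t := by
  have hiff : (u = s ∨ u = t) ↔ (bpt a b s = bpt a b u ∨ bpt a b t = bpt a b u) := by
    rw [grid3_bpt_inj ha hb hs hu, grid3_bpt_inj ha hb ht hu]
  rw [hiff]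
  have hmod : 0 < u → (u + 2 * (a + b) - 1) % (2 * (a + b)) = u - 1 := by
    intro h0
    rw [show u + 2 * (a + b) - 1 = (u - 1) + 2 * (a + b) from by omega, Nat.add_mod_right,
      Nat.mod_eq_of_lt (by omega)]
  have hcorner : bcell a b u = bcell a b ((u + 2 * (a + b) - 1) % (2 * (a + b))) →
      (∀ z : ℕ × ℕ, gd (bpt a b u) z = 1 → 0 < z.1 → z.1 < a → 0 < z.2 → z.2 < b → False) →
      (P (bcell a b u).1 (bcell a b u).2 ≠
      P (bcell a b ((u + 2 * (a + b) - 1) % (2 * (a + b)))).1
        (bcell a b ((u + 2 * (a + b) - 1) % (2 * (a + b)))).2 ↔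
        (bpt a b s = bpt a b u ∨ bpt a b t = bpt a b u)) := by
    intro h1 h2
    rw [← h1]
    simp only [ne_eq, not_true_eq_false, false_iff]
    exact grid3_corner h h2
  -- the corner 0
  rcases Nat.eq_zero_or_pos u with u0 | u0
  · subst u0
    apply hcorner
    · rw [show (0 + 2 * (a + b) - 1) % (2 * (a + b)) = 2 * (a + b) - 1 from
        (by rw [zero_add]; exact Nat.mod_eq_of_lt (by omega))]
      unfold bcell
      rw [if_pos (by omega), if_neg (by omega), if_neg (by omega), if_neg (by omega)]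
      refine Prod.ext rfl ?_
      simp only []
      omega
    · have e : bpt a b 0 = (0, 0) := by
        unfold bpt
        rw [if_pos (by omega)]
      rw [e]
      rintro ⟨z1, z2⟩ h1 h2 h3 h4 h5
      unfold gd at h1
      simp only [] at h1 h2 h3 h4 h5
      omega
  rw [hmod u0] at hcorner ⊢
  rcases Nat.lt_or_ge u a with c1 | c1
  · -- bottom side
    have e1 : bcell a b u = (u, 0) := by
      unfold bcell
      rw [if_pos c1]
    have e2 : bcell a b (u - 1) = (u - 1, 0) := by
      unfold bcell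
      rw [if_pos (by omega)]
    have e3 : bpt a b u = (u, 0) := by
      unfold bpt
      rw [if_pos (by omega)]
    rw [e1, e2, e3]
    have hf := hP.2 u 0 u0 c1 (by omega)
    rw [grid3_V] at hf
    rw [grid3_ne hf]
    apply grid3_bd h
    · simp
    · rintro ⟨z1, z2⟩ h1 h2 h3 h4 h5
      unfold gd at h1
      simp only [] at h1 h2 h3 h4 h5
      refine Prod.ext ?_ ?_ <;> simp only [] <;> omega
  rcases Nat.eq_or_lt_of_le c1 with c2 | c2
  · -- corner a
    subst c2
    apply hcorner
    · unfold bcell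
      rw [if_neg (by omega), if_pos (by omega), if_pos (by omega)]
      refine Prod.ext rfl ?_
      simp only []
      omega
    · have e : bpt a b a = (a, 0) := by
        unfold bpt
        rw [if_pos (by omega)]
      rw [e]
      rintro ⟨z1, z2⟩ h1 h2 h3 h4 h5
      unfold gd at h1
      simp only [] at h1 h2 h3 h4 h5
      omega
  rcases Nat.lt_or_ge u (a + b) with c3 | c3
  · -- right side
    have e1 : bcell a b u = (a - 1, u - a) := by
      unfold bcell
      rw [if_neg (by omega), if_pos c3]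
    have e2 : bcell a b (u - 1) = (a - 1, u - 1 - a) := by
      unfold bcell
      rw [if_neg (by omega), if_pos (by omega)]
    have e3 : bpt a b u = (a, u - a) := by
      unfold bpt
      rw [if_neg (by omega), if_pos (by omega)]
    rw [e1, e2, e3]
    have hf := hP.1 (a - 1) (u - a) (by omega) (by omega) (by omega)
    rw [grid3_H, Nat.sub_add_cancel ha, show u - a - 1 = u - 1 - a from by omega] at hf
    simp only [] 
    rw [grid3_ne hf, grid3_comm]
    apply grid3_bd h
    · simp
    · rintro ⟨z1, z2⟩ h1 h2 h3 h4 h5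
      unfold gd at h1
      simp only [] at h1 h2 h3 h4 h5
      refine Prod.ext ?_ ?_ <;> simp only [] <;> omega
  rcases Nat.eq_or_lt_of_le c3 with c4 | c4
  · -- corner a + b
    subst c4
    apply hcorner
    · unfold bcell
      rw [if_neg (by omega), if_neg (by omega), if_pos (by omega), if_neg (by omega),
        if_pos (by omega)]
      refine Prod.ext ?_ ?_ <;> simp only [] <;> omega
    · have e : bpt a b (a + b) = (a, b) := by
        unfold bpt
        rw [if_neg (by omega), if_pos (by omega)]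
        refine Prod.ext rfl ?_
        simp only []
        omega
      rw [e]
      rintro ⟨z1, z2⟩ h1 h2 h3 h4 h5
      unfold gd at h1
      simp only [] at h1 h2 h3 h4 h5
      omega
  rcases Nat.lt_or_ge u (2 * a + b) with c5 | c5
  · -- top side
    have e1 : bcell a b u = (2 * a + b - u - 1, b - 1) := by
      unfold bcell
      rw [if_neg (by omega), if_neg (by omega), if_pos c5]
    have e2 : bcell a b (u - 1) = (2 * a + b - u, b - 1) := by
      unfold bcell
      rw [if_neg (by omega), if_neg (by omega), if_pos (by omega)]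
      refine Prod.ext ?_ rfl
      simp only []
      omega
    have e3 : bpt a b u = (2 * a + b - u, b) := by
      unfold bpt
      rw [if_neg (by omega), if_neg (by omega), if_pos (by omega)]
    rw [e1, e2, e3]
    have hf := hP.2 (2 * a + b - u) (b - 1) (by omega) (by omega) (by omega)
    rw [grid3_V, Nat.sub_add_cancel hb, add_comm] at hf
    simp only []
    rw [grid3_ne hf, grid3_comm]
    apply grid3_bd h
    · simp
    · rintro ⟨z1, z2⟩ h1 h2 h3 h4 h5
      unfold gd at h1
      simp only [] at h1 h2 h3 h4 h5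
      refine Prod.ext ?_ ?_ <;> simp only [] <;> omega
  rcases Nat.eq_or_lt_of_le c5 with c6 | c6
  · -- corner 2 a + b
    subst c6
    apply hcorner
    · unfold bcell
      rw [if_neg (by omega), if_neg (by omega), if_neg (by omega), if_neg (by omega),
        if_neg (by omega), if_pos (by omega)]
      refine Prod.ext ?_ ?_ <;> simp only [] <;> omega
    · have e : bpt a b (2 * a + b) = (0, b) := by
        unfold bpt
        rw [if_neg (by omega), if_neg (by omega), if_pos (by omega)]
        refine Prod.ext ?_ rfl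
        simp only []
        omega
      rw [e]
      rintro ⟨z1, z2⟩ h1 h2 h3 h4 h5
      unfold gd at h1
      simp only [] at h1 h2 h3 h4 h5
      omega
  · -- left side
    have e1 : bcell a b u = (0, 2 * (a + b) - u - 1) := by
      unfold bcell
      rw [if_neg (by omega), if_neg (by omega), if_neg (by omega)]
    have e2 : bcell a b (u - 1) = (0, 2 * (a + b) - u) := by
      unfold bcell
      rw [if_neg (by omega), if_neg (by omega), if_neg (by omega)]
      refine Prod.ext rfl ?_
      simp only []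
      omega
    have e3 : bpt a b u = (0, 2 * (a + b) - u) := by
      unfold bpt
      rw [if_neg (by omega), if_neg (by omega), if_neg (by omega)]
    rw [e1, e2, e3]
    have hf := hP.1 0 (2 * (a + b) - u) (by omega) (by omega) (by omega)
    rw [grid3_H, add_comm] at hf
    simp only []
    rw [grid3_ne hf]
    apply grid3_bd h
    · simp
    · rintro ⟨z1, z2⟩ h1 h2 h3 h4 h5
      unfold gd at h1
      simp only [] at h1 h2 h3 h4 h5
      refine Prod.ext ?_ ?_ <;> simp only [] <;> omega

/-- the cell `(i, j)` is at the grid point `q` -/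
def cellAt (q : ℕ × ℕ) (i j : ℕ) : Prop := (q.1 = i ∨ q.1 = i + 1) ∧ (q.2 = j ∨ q.2 = j + 1)

/-- horizontal step -/
theorem grid3_stepV {a b L : ℕ} {p : ℕ → ℕ × ℕ}
    {P : ℕ → ℕ → ZMod 2} (hP : GFill a b (pathH p L) (pathV p L) P) {q : ℕ × ℕ}
    (hq : ∀ i ≤ L, p i ≠ q) {i i' j : ℕ} (hi : i < a) (hj : j < b) (hi' : i' < a)
    (h1 : cellAt q i j) (h2 : cellAt q i' j) : P i j = P i' j := by
  have h0 : (2 : ZMod 2) = 0 := rfl
  have key : ∀ x, 0 < x → x < a → q.1 = x → (q.2 = j ∨ q.2 = j + 1) → P (x - 1) j = P x j := by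
    intro x hx hxa hq1 hq2
    have hf := hP.2 x j hx hxa hj
    rw [grid3_V, if_neg] at hf
    · linear_combination hf - P x j * h0
    · intro hc
      obtain ⟨⟨k, hk, hpk⟩, ⟨k', hk', hpk'⟩⟩ := grid3_on hc
      rcases hq2 with h | h
      · exact hq k hk (by rw [hpk]; exact Prod.ext hq1.symm h.symm)
      · exact hq k' hk' (by rw [hpk']; exact Prod.ext hq1.symm h.symm)
  rcases lt_trichotomy i i' with hlt | heq | hgt
  · have e1 : q.1 = i' := by
      have := h1.1; have := h2.1; omega
    have e2 : i = i' - 1 := by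
      have := h1.1; have := h2.1; omega
    rw [e2]
    exact key i' (by omega) hi' e1 h1.2
  · rw [heq]
  · have e1 : q.1 = i := by
      have := h1.1; have := h2.1; omega
    have e2 : i' = i - 1 := by
      have := h1.1; have := h2.1; omega
    rw [e2]
    exact (key i (by omega) hi e1 h1.2).symm

/-- vertical step -/
theorem grid3_stepH {a b L : ℕ} {p : ℕ → ℕ × ℕ}
    {P : ℕ → ℕ → ZMod 2} (hP : GFill a b (pathH p L) (pathV p L) P) {q : ℕ × ℕ}
    (hq : ∀ i ≤ L, p i ≠ q) {i j j' : ℕ} (hi : i < a) (hj : j < b) (hj' : j' < b)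
    (h1 : cellAt q i j) (h2 : cellAt q i j') : P i j = P i j' := by
  have h0 : (2 : ZMod 2) = 0 := rfl
  have key : ∀ y, 0 < y → y < b → q.2 = y → (q.1 = i ∨ q.1 = i + 1) → P i (y - 1) = P i y := by
    intro y hy hyb hq1 hq2
    have hf := hP.1 i y hi hy hyb
    rw [grid3_H, if_neg] at hf
    · linear_combination hf - P i y * h0
    · intro hc
      obtain ⟨⟨k, hk, hpk⟩, ⟨k', hk', hpk'⟩⟩ := grid3_on hc
      rcases hq2 with h | h
      · exact hq k hk (by rw [hpk]; exact Prod.ext h.symm hq1.symm)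
      · exact hq k' hk' (by rw [hpk']; exact Prod.ext h.symm hq1.symm)
  rcases lt_trichotomy j j' with hlt | heq | hgt
  · have e1 : q.2 = j' := by
      have := h1.2; have := h2.2; omega
    have e2 : j = j' - 1 := by
      have := h1.2; have := h2.2; omega
    rw [e2]
    exact key j' (by omega) hj' e1 h1.1
  · rw [heq]
  · have e1 : q.2 = j := by
      have := h1.2; have := h2.2; omega
    have e2 : j' = j - 1 := by
      have := h1.2; have := h2.2; omega
    rw [e2]
    exact (key j (by omega) hj e1 h1.1).symm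

/-- At a grid point not on the crosscut all cells have the same value. -/
theorem crosscut_const {a b s t L : ℕ} {p : ℕ → ℕ × ℕ} (h : Crosscut a b s t L p)
    {P : ℕ → ℕ → ZMod 2} (hP : GFill a b (pathH p L) (pathV p L) P) {q : ℕ × ℕ}
    (hq : ∀ i ≤ L, p i ≠ q) {i j i' j' : ℕ} (hi : i < a) (hj : j < b) (hi' : i' < a) (hj' : j' < b)
    (h1 : cellAt q i j) (h2 : cellAt q i' j') : P i j = P i' j' := by
  have h3 : cellAt q i j' := ⟨h1.1, h2.2⟩
  rw [grid3_stepH hP hq hi hj hj' h1 h3, grid3_stepV hP hq hi hj' hi' h3 h2]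

/-- the boundary cell is at the boundary point -/
theorem grid3_cell {a b u : ℕ} (ha : 1 ≤ a) (hb : 1 ≤ b) (hu : u < 2 * (a + b)) :
    cellAt (bpt a b u) (bcell a b u).1 (bcell a b u).2 := by
  unfold cellAt
  rcases Nat.lt_or_ge u a with c1 | c1
  · have e1 : bcell a b u = (u, 0) := by
      unfold bcell
      rw [if_pos c1]
    have e3 : bpt a b u = (u, 0) := by
      unfold bpt
      rw [if_pos (by omega)]
    rw [e1, e3]
    exact ⟨Or.inl rfl, Or.inl rfl⟩
  rcases Nat.lt_or_ge u (a + b) with c3 | c3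
  · have e1 : bcell a b u = (a - 1, u - a) := by
      unfold bcell
      rw [if_neg (by omega), if_pos c3]
    have e3 : bpt a b u = (a, u - a) := by
      unfold bpt
      rcases Nat.eq_or_lt_of_le c1 with c2 | c2
      · rw [if_pos (by omega)]
        refine Prod.ext ?_ ?_ <;> simp only [] <;> omega
      · rw [if_neg (by omega), if_pos (by omega)]
    rw [e1, e3]
    exact ⟨Or.inr (by simp only []; omega), Or.inl rfl⟩
  rcases Nat.lt_or_ge u (2 * a + b) with c5 | c5
  · have e1 : bcell a b u = (2 * a + b - u - 1, b - 1) := by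
      unfold bcell
      rw [if_neg (by omega), if_neg (by omega), if_pos c5]
    have e3 : bpt a b u = (2 * a + b - u, b) := by
      unfold bpt
      rcases Nat.eq_or_lt_of_le c3 with c2 | c2
      · rw [if_neg (by omega), if_pos (by omega)]
        refine Prod.ext ?_ ?_ <;> simp only [] <;> omega
      · rw [if_neg (by omega), if_neg (by omega), if_pos (by omega)]
    rw [e1, e3]
    simp only []
    omega
  · have e1 : bcell a b u = (0, 2 * (a + b) - u - 1) := by
      unfold bcell
      rw [if_neg (by omega), if_neg (by omega), if_neg (by omega)]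
    have e3 : bpt a b u = (0, 2 * (a + b) - u) := by
      unfold bpt
      rcases Nat.eq_or_lt_of_le c5 with c2 | c2
      · rw [if_neg (by omega), if_neg (by omega), if_pos (by omega)]
        refine Prod.ext ?_ ?_ <;> simp only [] <;> omega
      · rw [if_neg (by omega), if_neg (by omega), if_neg (by omega)]
    rw [e1, e3]
    exact ⟨Or.inl rfl, Or.inr (by simp only []; omega)⟩

/-- two grid points at distance at most one are at a common cell -/
theorem grid3_common {a b : ℕ} (ha : 1 ≤ a) (hb : 1 ≤ b) {q q' : ℕ × ℕ} (h1 : q.1 ≤ a ∧ q.2 ≤ b)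
    (h2 : q'.1 ≤ a ∧ q'.2 ≤ b) (hd : gd q q' ≤ 1) :
    ∃ i j, i < a ∧ j < b ∧ cellAt q i j ∧ cellAt q' i j := by
  obtain ⟨x, y⟩ := q
  obtain ⟨x', y'⟩ := q'
  unfold gd at hd
  simp only [] at h1 h2 hd
  refine ⟨min (min x x') (a - 1), min (min y y') (b - 1), by omega, by omega, ?_, ?_⟩ <;>
    unfold cellAt <;> simp only [] <;> omega

/-- Crossing lemma: a grid walk `q 0, ..., q K` (steps of length at most one) from the boundary point `u`
strictly between `s` and `t` to a boundary point `v` strictly outside meets the crosscut. (The value of the cells is constant along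
the walk by `crosscut_const`, because consecutive points are at a common cell. By `crosscut_bd` the value
at the boundary edges `s, ..., t-1` differs from the value at the others; the boundary edge `u` has its cell at the point `u`.) -/
theorem grid_cross {a b s t L : ℕ} {p : ℕ → ℕ × ℕ} (h : Crosscut a b s t L p) (ha : 1 ≤ a)
    (hb : 1 ≤ b) (hst : s < t) (ht : t < 2 * (a + b)) (q : ℕ → ℕ × ℕ) (K : ℕ)
    (hq : ∀ j ≤ K, (q j).1 ≤ a ∧ (q j).2 ≤ b) (hq1 : ∀ j < K, gd (q j) (q (j + 1)) ≤ 1)
    {u v : ℕ} (hsu : s < u) (hut : u < t) (hv : v < s ∨ (t < v ∧ v < 2 * (a + b)))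
    (h0 : q 0 = bpt a b u) (hK : q K = bpt a b v) : ∃ i ≤ L, ∃ j ≤ K, p i = q j := by
  by_contra hcon
  push Not at hcon
  have hs : s < 2 * (a + b) := by omega
  have hu : u < 2 * (a + b) := by omega
  have hvn : v < 2 * (a + b) := by omega
  obtain ⟨P, hP⟩ := grid_fill a b _ _ (crosscut_even h hs ht)
  have hoff : ∀ j ≤ K, ∀ i ≤ L, p i ≠ q j := fun j hj i hi => hcon i hi j hj
  -- constant along the walk
  have hwalk : ∀ m ≤ K, ∀ i j i' j', i < a → j < b → i' < a → j' < b →
      cellAt (q 0) i j → cellAt (q m) i' j' → P i j = P i' j' := by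
    intro m
    induction m with
    | zero =>
      intro hm i j i' j' hi hj hi' hj' h1 h2
      exact crosscut_const h hP (hoff 0 hm) hi hj hi' hj' h1 h2
    | succ m ih =>
      intro hm i j i' j' hi hj hi' hj' h1 h2
      obtain ⟨i2, j2, c1, c2, c3, c4⟩ := grid3_common ha hb (hq m (by omega)) (hq (m + 1) hm)
        (hq1 m (by omega))
      rw [ih (by omega) i j i2 j2 hi hj c1 c2 h1 c3]
      exact crosscut_const h hP (hoff (m + 1) hm) c1 c2 hi' hj' c4 h2
  have hcu := bcell_lt ha hb hu
  have hcv := bcell_lt ha hb hvn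
  have hequ : P (bcell a b u).1 (bcell a b u).2 = P (bcell a b v).1 (bcell a b v).2 :=
    hwalk K le_rfl _ _ _ _ hcu.1 hcu.2 hcv.1 hcv.2 (h0 ▸ grid3_cell ha hb hu)
      (hK ▸ grid3_cell ha hb hvn)
  set f : ℕ → ZMod 2 := fun w => P (bcell a b w).1 (bcell a b w).2 with hf
  have hmod : ∀ w, 0 < w → w < 2 * (a + b) → (w + 2 * (a + b) - 1) % (2 * (a + b)) = w - 1 := by
    intro w h0 h1
    rw [show w + 2 * (a + b) - 1 = (w - 1) + 2 * (a + b) from by omega, Nat.add_mod_right,
      Nat.mod_eq_of_lt (by omega)]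
  have hstep : ∀ w, 0 < w → w < 2 * (a + b) → (f w ≠ f (w - 1) ↔ w = s ∨ w = t) := by
    intro w h0 h1
    have := crosscut_bd h ha hb hs ht hP h1
    rwa [hmod w h0 h1] at this
  have hconst : ∀ w w', w ≤ w' → w' < 2 * (a + b) → (∀ x, w < x → x ≤ w' → x ≠ s ∧ x ≠ t) →
      f w' = f w := by
    intro w w' hww
    induction w', hww using Nat.le_induction with
    | base => intro _ _; rfl
    | succ m hm ih =>
      intro h1 h2
      rw [← ih (by omega) (fun x hx1 hx2 => h2 x hx1 (by omega))]
      by_contra hne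
      have := (hstep (m + 1) (by omega) h1).1 hne
      have h3 := h2 (m + 1) (by omega) le_rfl
      omega
  have e1 : f u = f s := hconst s u hsu.le hu (fun x h1 h2 => ⟨by omega, by omega⟩)
  have hequ' : f u = f v := hequ
  rcases hv with hv | ⟨hv, -⟩
  · have e2 : f (s - 1) = f v := hconst v (s - 1) (by omega) (by omega)
      (fun x h1 h2 => ⟨by omega, by omega⟩)
    have e3 := (hstep s (by omega) hs).2 (Or.inl rfl)
    apply e3
    rw [e2, ← hequ', e1]
  · have e2 : f v = f t := hconst t v hv.le hvn (fun x h1 h2 => ⟨by omega, by omega⟩)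
    have e3 := (hstep t (by omega) ht).2 (Or.inr rfl)
    have e4 : f (t - 1) = f s := hconst s (t - 1) (by omega) (by omega)
      (fun x h1 h2 => ⟨by omega, by omega⟩)
    apply e3
    rw [e4, ← e1, hequ', e2]

/-- `l^∞` distance -/
def gi (p q : ℕ × ℕ) : ℕ := max ((p.1 - q.1) + (q.1 - p.1)) ((p.2 - q.2) + (q.2 - p.2))

/-- one step towards `z` -/
def toward (x z : ℕ) : ℕ := if x < z then x + 1 else if z < x then x - 1 else x

/-- replacing a jump by four small steps -/
def sub4 (q q' : ℕ × ℕ) (k : ℕ) : ℕ × ℕ :=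
  if k = 0 then q
  else if k = 1 then (toward q.1 q'.1, q.2)
  else if k = 2 then (q'.1, q.2)
  else (q'.1, toward q.2 q'.2)

/-- Crossing lemma with jumps: steps of `l^∞` length at most `2`; then some point of the walk is within `l^∞` distance `2` of
the crosscut. (Replace a jump from `(x, y)` to `(x', y')` by the walk `(x, y) → (x', y) → (x', y')`; all its points are
within `l^∞` distance `2` of `(x, y)`.) -/
theorem grid_cross_jump {a b s t L : ℕ} {p : ℕ → ℕ × ℕ} (h : Crosscut a b s t L p) (ha : 1 ≤ a)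
    (hb : 1 ≤ b) (hst : s < t) (ht : t < 2 * (a + b)) (q : ℕ → ℕ × ℕ) (K : ℕ)
    (hq : ∀ j ≤ K, (q j).1 ≤ a ∧ (q j).2 ≤ b) (hq1 : ∀ j < K, gi (q j) (q (j + 1)) ≤ 2)
    {u v : ℕ} (hsu : s < u) (hut : u < t) (hv : v < s ∨ (t < v ∧ v < 2 * (a + b)))
    (h0 : q 0 = bpt a b u) (hK : q K = bpt a b v) : ∃ i ≤ L, ∃ j ≤ K, gi (p i) (q j) ≤ 2 := by
  set r : ℕ → ℕ × ℕ := fun m => sub4 (q (m / 4)) (q (m / 4 + 1)) (m % 4) with hr
  have hr4 : ∀ m, r (4 * m) = q m := by
    intro m
    simp only [hr]
    rw [Nat.mul_div_cancel_left m (by norm_num), Nat.mul_mod_right]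
    rfl
  have hrk : ∀ m k, k < 4 → r (4 * m + k) = sub4 (q m) (q (m + 1)) k := by
    intro m k hk
    simp only [hr]
    rw [show (4 * m + k) / 4 = m from by omega, show (4 * m + k) % 4 = k from by omega]
  have hin : ∀ m < K, ∀ k < 4, (sub4 (q m) (q (m + 1)) k).1 ≤ a ∧
      (sub4 (q m) (q (m + 1)) k).2 ≤ b ∧ gi (sub4 (q m) (q (m + 1)) k) (q m) ≤ 2 := by
    intro m hm k hk
    have h1 := hq m hm.le
    have h2 := hq (m + 1) hm
    have h3 := hq1 m hm
    unfold gi at h3 ⊢
    unfold sub4 toward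
    split_ifs <;> (try simp only []) <;> omega
  have hstep4 : ∀ m < K, ∀ k < 3, gd (sub4 (q m) (q (m + 1)) k) (sub4 (q m) (q (m + 1)) (k + 1)) ≤ 1 := by
    intro m hm k hk
    have h3 := hq1 m hm
    unfold gi at h3
    obtain rfl | rfl | rfl : k = 0 ∨ k = 1 ∨ k = 2 := by omega
    · unfold sub4 gd toward
      norm_num
      split_ifs <;> omega
    · unfold sub4 gd toward
      norm_num
      split_ifs <;> omega
    · unfold sub4 gd toward
      norm_num
      split_ifs <;> omega
  have hstep3 : ∀ m < K, gd (sub4 (q m) (q (m + 1)) 3) (q (m + 1)) ≤ 1 := by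
    intro m hm
    have h3 := hq1 m hm
    unfold gi at h3
    unfold sub4 gd toward
    norm_num
    split_ifs <;> omega
  have hrq : ∀ j ≤ 4 * K, (r j).1 ≤ a ∧ (r j).2 ≤ b := by
    intro j hj
    rcases Nat.eq_or_lt_of_le hj with h1 | h1
    · rw [h1, hr4]
      exact hq K le_rfl
    · have h2 := hrk (j / 4) (j % 4) (by omega)
      rw [show 4 * (j / 4) + j % 4 = j from by omega] at h2
      rw [h2]
      have h3 := hin (j / 4) (by omega) (j % 4) (by omega)
      exact ⟨h3.1, h3.2.1⟩
  have hrq1 : ∀ j < 4 * K, gd (r j) (r (j + 1)) ≤ 1 := by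
    intro j hj
    have h2 := hrk (j / 4) (j % 4) (by omega)
    rw [show 4 * (j / 4) + j % 4 = j from by omega] at h2
    rw [h2]
    rcases Nat.lt_or_ge (j % 4) 3 with h3 | h3
    · have h4 := hrk (j / 4) (j % 4 + 1) (by omega)
      rw [show 4 * (j / 4) + (j % 4 + 1) = j + 1 from by omega] at h4
      rw [h4]
      exact hstep4 (j / 4) (by omega) (j % 4) h3
    · have h4 := hr4 (j / 4 + 1)
      rw [show 4 * (j / 4 + 1) = j + 1 from by omega] at h4
      rw [h4, show j % 4 = 3 from by omega]
      exact hstep3 (j / 4) (by omega)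
  obtain ⟨i, hi, j, hj, hij⟩ := grid_cross h ha hb hst ht r (4 * K) hrq hrq1 hsu hut hv
    (by rw [show (0 : ℕ) = 4 * 0 from rfl, hr4]; exact h0) (by rw [hr4]; exact hK)
  refine ⟨i, hi, j / 4, by omega, ?_⟩
  rw [hij]
  rcases Nat.eq_or_lt_of_le hj with h1 | h1
  · rw [h1, hr4, Nat.mul_div_cancel_left K (by norm_num)]
    unfold gi
    omega
  · have h2 := hrk (j / 4) (j % 4) (by omega)
    rw [show 4 * (j / 4) + j % 4 = j from by omega] at h2
    rw [h2]
    exact (hin (j / 4) (by omega) (j % 4) (by omega)).2.2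

end Pool.Agent.H.MP_c8cc4c_co
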