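import Mathlib
import Pool.Agent.H.MP_c8cc4c_co.G.GlueA

/-! # MP_c8cc4c_co, part G, file 10: distances in `M` and in the glued complex

`Q` is a region of `M` which contains all the cycles `gv i`. -/

open scoped Classical
open Finset

noncomputable section

namespace Pool.Agent.H.MP_c8cc4c_co

variable {M : PC} (Mo : Mouths M)

/-- Walks in real vertices of `M` are walks in the glued complex (`glue_adj_real`). -/
theorem glue_near_real (hM : M.IsSphere) {A : Set M.V} (hA : A ⊆ Mo.Real) {k : ℕ} {x y : M.V}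
    (h : Near M.graph A k x y) {u v : (glue M Mo).V} (hu : u.1 = Sum.inl x)
    (hv : v.1 = Sum.inl y) :
    Near (glue M Mo).graph {w | ∃ z ∈ A, w.1 = Sum.inl z} k u v := by
  induction k generalizing x u with
  | zero =>
    obtain ⟨rfl, hx⟩ := near_zero.1 h
    have h2 : u = v := Subtype.ext (hu.trans hv.symm)
    subst h2
    exact near_refl ⟨x, hx, hu⟩
  | succ k ih =>
    rcases near_succ.1 h with h | ⟨hx, z, hadj, h⟩
    · exact near_mono (ih h hu) (Nat.le_succ _) subset_rfl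
    · have hz : z ∈ Mo.Real := hA (near_left h)
      have h1 := ih (u := ⟨Sum.inl z, hz⟩) h rfl
      exact near_succ.2 (Or.inr ⟨⟨x, hx, hu⟩, _, glue_adj_real Mo hM hu rfl hadj, h1⟩)

theorem GlueN_along (hM : M.IsSphere) {Q : Set M.V} (hQ : ∀ i t, Mo.gv i t ∈ Q) (i : Mo.I)
    (s d : ℕ) : Near M.graph (Q ∩ Mo.Real) d (Mo.gv i s) (Mo.gv i (s + d)) := by
  have hmem : ∀ t, Mo.gv i t ∈ Q ∩ Mo.Real := fun t => ⟨hQ i t, gv_real Mo hM i t⟩
  induction d with
  | zero => exact near_refl (hmem s)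
  | succ d ih =>
    refine near_trans ih (near_adj (hmem _) (hmem _) ?_)
    exact ⟨gv_succ_ne Mo i _, Mo.ge i (s + d), (Mo.ge_inc i _).1, (Mo.ge_inc i _).2⟩

theorem GlueN_mouth (hM : M.IsSphere) {Q : Set M.V} (hQ : ∀ i t, Mo.gv i t ∈ Q) (i : Mo.I)
    {s t : ℕ} (hst : s ≤ t) (ht : t < Mo.n i) :
    Near M.graph (Q ∩ Mo.Real) (3 * gd (bpt (Mo.a i) (Mo.b i) s) (bpt (Mo.a i) (Mo.b i) t))
      (Mo.gv i s) (Mo.gv i t) := by
  rcases bpt_dist (Mo.ha i) (Mo.hab i) (Mo.hba i) hst ht with h | h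
  · have h1 := GlueN_along Mo hM hQ i s (t - s)
    rw [show s + (t - s) = t by omega] at h1
    exact near_mono h1 h subset_rfl
  · have h1 := GlueN_along Mo hM hQ i t (2 * (Mo.a i + Mo.b i) - (t - s))
    have h2 : t < 2 * (Mo.a i + Mo.b i) := ht
    rw [show t + (2 * (Mo.a i + Mo.b i) - (t - s)) = s + 2 * (Mo.a i + Mo.b i) by omega,
      Mo.gv_per] at h1
    exact near_mono (near_symm h1) h subset_rfl

/-- Two vertices of a mouth are joined along the mouth: walk in `Q ∩ Real` of length at most three times the grid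
distance (`bpt_dist`, `gv_real`). -/
theorem mouth_near (hM : M.IsSphere) {Q : Set M.V} (hQ : ∀ i t, Mo.gv i t ∈ Q) (i : Mo.I)
    {s t : ℕ} (hs : s < Mo.n i) (ht : t < Mo.n i) :
    Near M.graph (Q ∩ Mo.Real) (3 * gd (bpt (Mo.a i) (Mo.b i) s) (bpt (Mo.a i) (Mo.b i) t))
      (Mo.gv i s) (Mo.gv i t) := by
  rcases le_total s t with hst | hst
  · exact GlueN_mouth Mo hM hQ i hst ht
  · rw [gd_comm]
    exact near_symm (GlueN_mouth Mo hM hQ i hst hs)

/-- Walks in the glued complex outside `O` give walks in `M`. Induction on `k` (first step `near_succ`) of both statements for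
all `u`: step between real vertices adjacent in `M`: clear (for (2) use `mouth_near`); step between the grid points
`p`, `p'` of a mouth `i`, `gd p p' = 1`: (2) for `p'` gives (2) for `p` by the triangle inequality; (2) with
`p = bpt s` and `t = s` gives (1). A real vertex may lie on several mouths: (2) is stated for all `i`. `k = 0`: (2) is `mouth_near`. -/
theorem near_of_glue_aux (hM : M.IsSphere) {Q : Set M.V} (hQ : ∀ i t, Mo.gv i t ∈ Q)
    (v : (glue M Mo).V) (y : M.V) (hv : v.1 = Sum.inl y) (k : ℕ) :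
    ∀ u, Near (glue M Mo).graph (gO Mo Q)ᶜ k u v →
      (∀ x, u.1 = Sum.inl x → Near M.graph (Q ∩ Mo.Real) (3 * k) x y) ∧
      ∀ i p q, p ≤ Mo.a i → q ≤ Mo.b i → u.1 = Mo.gp i p q → ∀ t < Mo.n i,
        Near M.graph (Q ∩ Mo.Real) (3 * (k + gd (p, q) (bpt (Mo.a i) (Mo.b i) t)))
          (Mo.gv i t) y := by
  have hend : ∀ u : (glue M Mo).V, ∀ x, u ∈ (gO Mo Q)ᶜ → u.1 = Sum.inl x → x ∈ Q ∩ Mo.Real := by
    intro u x hu hx
    refine ⟨?_, ?_⟩
    · by_contra hxQ
      exact hu ⟨x, hx, hxQ⟩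
    · obtain ⟨u, hu0⟩ := u
      have hx' : u = Sum.inl x := hx
      subst hx'
      exact hu0
  induction k with
  | zero =>
    intro u h
    obtain ⟨rfl, hu⟩ := near_zero.1 h
    constructor
    · intro x hx
      have h1 : x = y := Sum.inl.inj (hx.symm.trans hv)
      subst h1
      exact near_refl (hend u x hu hx)
    · intro i p q hp hq hu' t ht
      obtain ⟨s, hs, hsy, hsb⟩ := gp_real Mo i hp hq (hu'.symm.trans hv)
      have h1 := mouth_near Mo hM hQ i ht hs
      rw [hsy, gd_comm, ← hsb] at h1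
      rw [Nat.zero_add]
      exact h1
  | succ k ih =>
    intro u h
    have hone : ∀ x, u.1 = Sum.inl x → Near M.graph (Q ∩ Mo.Real) (3 * (k + 1)) x y := by
      intro x hx
      rcases near_succ.1 h with h | ⟨hu, w, hadj, h⟩
      · exact near_mono ((ih u h).1 x hx) (by omega) subset_rfl
      · obtain ⟨ih1, ih2⟩ := ih w h
        rcases glue_adj Mo hM hadj with ⟨x', z, hx', hz, hxz⟩ |
          ⟨j, a, b, a', b', ha, hb, ha', hb', hua, hwa, hg⟩
        · obtain rfl : x = x' := Sum.inl.inj (hx.symm.trans hx')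
          have h1 := ih1 z hz
          exact near_mono (near_succ.2 (Or.inr ⟨hend u x hu hx, z, hxz, h1⟩)) (by omega) subset_rfl
        · obtain ⟨s, hs, hsy, hsb⟩ := gp_real Mo j ha hb (hua.symm.trans hx)
          have h1 := ih2 j a' b' ha' hb' hwa s hs
          rw [hsy, ← hsb, gd_comm, hg] at h1
          exact h1
    refine ⟨hone, ?_⟩
    intro i p q hp hq hu' t ht
    by_cases hint : 0 < p ∧ p < Mo.a i ∧ 0 < q ∧ q < Mo.b i
    · rw [gp_int Mo i hint] at hu'
      rcases near_succ.1 h with h | ⟨hu, w, hadj, h⟩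
      · have h1 := (ih u h).2 i p q hp hq (by rw [hu', gp_int Mo i hint]) t ht
        exact near_mono h1 (by omega) subset_rfl
      · obtain ⟨ih1, ih2⟩ := ih w h
        rcases glue_adj Mo hM hadj with ⟨x', z, hx', hz, hxz⟩ |
          ⟨j, a, b, a', b', ha, hb, ha', hb', hua, hwa, hg⟩
        · exact absurd (hu'.symm.trans hx') (by simp)
        · have h2 : Mo.gp j a b = Sum.inr (i, p, q) := hua.symm.trans hu'
          have h3 : j = i ∧ a = p ∧ b = q := by
            unfold Mouths.gp at h2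
            split_ifs at h2 with h4
            have h5 := Sum.inr.inj h2
            rw [Prod.mk.injEq, Prod.mk.injEq] at h5
            exact h5
          obtain ⟨rfl, rfl, rfl⟩ := h3
          have h1 := ih2 j a' b' ha' hb' hwa t ht
          have h4 := gd_tri (a', b') (a, b) (bpt (Mo.a j) (Mo.b j) t)
          rw [gd_comm (a', b') (a, b), hg] at h4
          exact near_mono h1 (by omega) subset_rfl
    · have h1 := gp_bd' Mo i (x := p) (y := q) ⟨hp, hq, hint⟩
      obtain ⟨s, hs, hsy, hsb⟩ := gp_real Mo i hp hq h1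
      have h2 := hone _ (hu'.trans h1)
      have h3 := mouth_near Mo hM hQ i ht hs
      rw [hsy, gd_comm, ← hsb] at h3
      exact near_mono (near_trans h3 h2) (by omega) subset_rfl

theorem near_of_glue (hM : M.IsSphere) {Q : Set M.V} (hQ : ∀ i t, Mo.gv i t ∈ Q) {k : ℕ}
    {u v : (glue M Mo).V} {x y : M.V} (hu : u.1 = Sum.inl x) (hv : v.1 = Sum.inl y)
    (h : Near (glue M Mo).graph (gO Mo Q)ᶜ k u v) :
    Near M.graph (Q ∩ Mo.Real) (3 * k) x y := by
  exact (near_of_glue_aux Mo hM hQ v y hv k u h).1 x hu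

theorem GlueN_exit (hM : M.IsSphere) {Q : Set M.V} (hQ : ∀ i t, Mo.gv i t ∈ Q) {k : ℕ}
    {u v : (glue M Mo).V} (hu : u ∈ (gO Mo Q)ᶜ) (hv : v ∈ gO Mo Q)
    (h : Near (glue M Mo).graph Set.univ k u v) :
    ∃ (u' : (glue M Mo).V) (x' y' : M.V) (k' : ℕ), k' + 1 ≤ k ∧
      Near (glue M Mo).graph (gO Mo Q)ᶜ k' u u' ∧
      u'.1 = Sum.inl x' ∧ M.graph.Adj x' y' ∧ y' ∉ Q := by
  obtain ⟨u', v', k', l, hk, h1, h2, h3, -⟩ := near_exit (B := (gO Mo Q)ᶜ) h hu
    (fun h' => h' hv)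
  have h3' : v' ∈ gO Mo Q := by
    by_contra h'
    exact h3 h'
  obtain ⟨y0, hy0, hyQ⟩ := h3'
  have h1' : Near (glue M Mo).graph (gO Mo Q)ᶜ k' u u' :=
    near_mono h1 le_rfl Set.inter_subset_right
  rcases glue_adj Mo hM h2 with ⟨x', z, hx', hz, hxz⟩ |
    ⟨j, a, b, a', b', ha, hb, ha', hb', hua, hwa, hg⟩
  · obtain rfl : y0 = z := Sum.inl.inj (hy0.symm.trans hz)
    exact ⟨u', x', y0, k', by omega, h1', hx', hxz, hyQ⟩
  · obtain ⟨s, hs, hsy, hsb⟩ := gp_real Mo j ha' hb' (hwa.symm.trans hy0)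
    rw [← hsy] at hyQ
    exact absurd (hQ j s) hyQ

/-- Distance to `O`: a vertex of `O` is not on a mouth, so it is adjacent in the glued complex only to real vertices
adjacent in `M`. (`near_exit` for the set `Oᶜ`, then `near_of_glue`.) -/
theorem near_O_of_glue (hM : M.IsSphere) {Q : Set M.V} (hQ : ∀ i t, Mo.gv i t ∈ Q) {k : ℕ}
    {u v : (glue M Mo).V} {x : M.V} (hu : u.1 = Sum.inl x) (hv : v ∈ gO Mo Q)
    (h : Near (glue M Mo).graph Set.univ k u v) :
    ∃ y, y ∉ Q ∧ Near M.graph Set.univ (3 * k) x y := by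
  by_cases hxQ : x ∈ Q
  · have huB : u ∈ (gO Mo Q)ᶜ := by
      rintro ⟨x', hx', hxQ'⟩
      obtain rfl : x = x' := Sum.inl.inj (hu.symm.trans hx')
      exact hxQ' hxQ
    obtain ⟨u', x', y', k', hk', hnear, hu', hadj, hy'⟩ := GlueN_exit Mo hM hQ huB hv h
    have h1 := near_of_glue Mo hM hQ hu hu' hnear
    refine ⟨y', hy', ?_⟩
    have h2 := near_trans (near_mono h1 le_rfl (Set.subset_univ _))
      (near_adj (A := Set.univ) (Set.mem_univ _) (Set.mem_univ _) hadj)
    exact near_mono h2 (by omega) subset_rfl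
  · exact ⟨x, hxQ, near_mono (near_refl (Set.mem_univ x)) (Nat.zero_le _) subset_rfl⟩

/-- Distance from a grid point to `O`: all vertices of the mouth are near `O`. -/
theorem near_O_of_glue_grid (hM : M.IsSphere) {Q : Set M.V} (hQ : ∀ i t, Mo.gv i t ∈ Q) {k : ℕ}
    {u v : (glue M Mo).V} {i : Mo.I} {p q : ℕ} (hp : p ≤ Mo.a i) (hq : q ≤ Mo.b i)
    (hu : u.1 = Mo.gp i p q) (hv : v ∈ gO Mo Q) (h : Near (glue M Mo).graph Set.univ k u v)
    (t : ℕ) : ∃ y, y ∉ Q ∧ Near M.graph Set.univ (3 * (k + Mo.n i)) (Mo.gv i t) y := by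
  have huB : u ∈ (gO Mo Q)ᶜ := by
    rintro ⟨x', hx', hxQ'⟩
    obtain ⟨s, hs, hsy, hsb⟩ := gp_real Mo i hp hq (hu.symm.trans hx')
    rw [← hsy] at hxQ'
    exact hxQ' (hQ i s)
  obtain ⟨u', x', y', k', hk', hnear, hu', hadj, hy'⟩ := GlueN_exit Mo hM hQ huB hv h
  have hn := n_ge Mo i
  have h1 := (near_of_glue_aux Mo hM hQ u' x' hu' k' u hnear).2 i p q hp hq hu (t % Mo.n i)
    (Nat.mod_lt _ (by omega))
  rw [← gv_mod Mo i t] at h1
  refine ⟨y', hy', ?_⟩
  have h2 := near_trans (near_mono h1 le_rfl (Set.subset_univ _))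
    (near_adj (A := Set.univ) (Set.mem_univ _) (Set.mem_univ _) hadj)
  have h3 := bpt_le (Mo.ha i) (le_trans (Mo.ha i) (Mo.hab i)) (Nat.mod_lt t (show 0 < Mo.n i by omega))
  have h4 := gd_le (a := Mo.a i) (b := Mo.b i) (p := (p, q))
    (q := bpt (Mo.a i) (Mo.b i) (t % Mo.n i)) ⟨hp, hq⟩ ⟨h3.1, h3.2.1⟩
  have h5 : Mo.n i = 2 * (Mo.a i + Mo.b i) := rfl
  exact near_mono h2 (by omega) subset_rfl

end Pool.Agent.H.MP_c8cc4c_co
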